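import Pool.Agent.Helper4K9.MP.Ring
import Pool.Agent.Helper4K9.AP.Fin
import Pool.Agent.Y356.IL.Rcq

/-!
Curves given by iterated linear differential equations whose coefficients are small meromorphic
functions.
-/

set_option autoImplicit false

namespace Pool.Agent.Helper4K9.MP

open MvPolynomial Metric Set Filter Topology FF Pool.Agent.W602.GT Pool.Agent.TH143
  Pool.Agent.TH143.GT Pool.Agent.W603.BP Pool.Agent.W603.BPR Pool.Agent.W603.GR
  Pool.Agent.W603.PV Pool.Agent.Helper4K9.IP Pool.Agent.Helper4K9.AP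
open Pool.Agent.Y377.IL (GmCurve nonconst_of_wr' poly_ne)

variable {N : ℕ} {p : Ideal (MvPolynomial (Fin (N + 1)) ℂ)} {Q : MvPolynomial (Fin (N + 1)) ℂ}
  {q : ℕ} {f : ℂ → Fin (N + 1) → ℂ}

/-- The map from the punctured disc with the vector `f` of homogeneous coordinates, to the
complement of the hypersurface `Q = 0` of degree `q`, is given near the origin by iterated linear
differential equations whose coefficients are meromorphic functions which are small with respect
to `f`. -/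
def MerAdm (Q : MvPolynomial (Fin (N + 1)) ℂ) (q : ℕ) (f : ℂ → Fin (N + 1) → ℂ) : Prop :=
  ∃ (δ : ℝ) (hδ : 0 < δ), δ ≤ 1 ∧ IterCurve (PB δ) (smallMer hδ f) Q q f

/-- The Zariski closure of the curve `f` is covered by curves of the multiplicative group in the
complement of `Q = 0`. -/
def Fam (Q : MvPolynomial (Fin (N + 1)) ℂ) (f : ℂ → Fin (N + 1) → ℂ) (S : Set ℂ) : Prop :=
  ∃ (M : Type) (_ : Field M) (_ : Algebra ℂ M) (P : Fin (N + 1) → Polynomial M),
    (∀ G : MvPolynomial (Fin (N + 1)) ℂ, (∃ e, G.IsHomogeneous e) →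
      (aeval P G = 0 ↔ ∀ z ∈ S, eval (f z) G = 0)) ∧
    (∃ (c : M) (k : ℕ), c ≠ 0 ∧ aeval P Q = Polynomial.C c * Polynomial.X ^ k) ∧
    ∃ j k, Polynomial.derivative (P j) * P k ≠ P j * Polynomial.derivative (P k)

theorem merAdm_fam (hQ : Q.IsHomogeneous q)
    (han : ∀ j, AnalyticOnNhd ℂ (fun w => f w j) (PB 1))
    (hne : ∀ z ∈ PB 1, f z ≠ 0) (hX : ∀ z ∈ PB 1, eval (f z) Q ≠ 0) (hit : MerAdm Q q f) :
    Extends f ∨ Fam Q f (PB 1) := by
  obtain ⟨δ, hδ, hδ1, hit⟩ := hit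
  have hDB := db_smallMer hδ hδ1 f
  have hsub := pb_sub hδ1
  have hrel : ∀ G : MvPolynomial (Fin (N + 1)) ℂ, (∀ z ∈ PB δ, eval (f z) G = 0) ↔
      ∀ z ∈ PB 1, eval (f z) G = 0 := by
    intro G
    constructor
    · intro h
      have h1 : AnalyticOnNhd ℂ (fun z => eval (f z) G) (PB 1) := eval_an' han G
      obtain ⟨z0, hz0⟩ := PB_nonempty hδ
      intro z hz
      refine h1.eqOn_zero_of_preconnected_of_eventuallyEq_zero (PB_preconn one_pos) (hsub hz0) ?_ hz
      filter_upwards [(PB_open δ).mem_nhds hz0] with x hx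
      exact h x hx
    · exact fun h z hz => h z (hsub hz)
  rcases log_mainOn (PB_open δ) (PB_preconn hδ) (PB_nonempty hδ) hQ hDB
    (fun j => (han j).mono hsub) (fun z hz => hne z (hsub hz)) (fun z hz => hX z (hsub hz)) hit with
    halg | ⟨M, i1, i2, P, h1, h2, h3⟩
  · obtain ⟨C, hC⟩ := growth_of_alg hδ hδ1 (fun j => (han j).mono hsub)
      (fun z hz => hne z (hsub hz)) halg
    exact Or.inl (extends_of_growth han hne hC)
  · exact Or.inr ⟨M, i1, i2, P, fun G hG => by rw [h1 G hG, hrel G], h2, h3⟩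

/-- entire curves which extend at infinity -/
theorem fam_of_rational (hQ : Q.IsHomogeneous q) (hd : ∀ j, Differentiable ℂ (fun z => f z j))
    (hne : ∀ z, f z ≠ 0) (hX : ∀ z, eval (f z) Q ≠ 0)
    (hnc : ∃ z w j k, f z j * f w k ≠ f z k * f w j) (hext : Extends (fun w => f w⁻¹)) :
    Fam Q f univ := by
  obtain ⟨u, P, hu, hfP⟩ := rational_of_extends f hd hne hext
  have hfu : ∀ x, f x = fun j => u x * (P j).eval x := fun x => funext (hfP x)
  have hPe : ∀ (G : MvPolynomial (Fin (N + 1)) ℂ) (x : ℂ),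
      (aeval P G : Polynomial ℂ).eval x = eval (fun j => (P j).eval x) G := by
    intro G x
    have h2 : (aeval P G : Polynomial ℂ).eval x
        = (Polynomial.aeval x : Polynomial ℂ →ₐ[ℂ] ℂ) (aeval P G) := by
      rw [Polynomial.coe_aeval_eq_eval]
    rw [h2, comp_aeval_apply, ← aeval_eq_eval]
    rfl
  have hfe : ∀ (G : MvPolynomial (Fin (N + 1)) ℂ) (d : ℕ), G.IsHomogeneous d → ∀ x,
      eval (f x) G = u x ^ d * (aeval P G : Polynomial ℂ).eval x := by
    intro G d hG x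
    rw [hfu, eval_smul_homog hG, hPe]
  have hQP : ∀ x, (aeval P Q : Polynomial ℂ).eval x ≠ 0 := by
    intro x h0
    apply hX x
    rw [hfe Q q hQ, h0, mul_zero]
  refine ⟨ℂ, inferInstance, inferInstance, P, ?_, ?_, ?_⟩
  · rintro G ⟨d, hG⟩
    constructor
    · intro h x _
      rw [hfe G d hG, h, Polynomial.eval_zero, mul_zero]
    · intro h
      apply Polynomial.funext
      intro x
      have h1 := h x (mem_univ x)
      rw [hfe G d hG] at h1
      rw [Polynomial.eval_zero]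
      exact (mul_eq_zero.1 h1).resolve_left (pow_ne_zero _ (hu x))
  · have h1 : (aeval P Q : Polynomial ℂ).degree = 0 := by
      by_contra hdeg
      obtain ⟨x, hx⟩ := IsAlgClosed.exists_root _ hdeg
      exact hQP x hx
    have h2 := Polynomial.eq_C_of_degree_eq_zero h1
    refine ⟨(aeval P Q : Polynomial ℂ).coeff 0, 0, ?_, by rw [pow_zero, mul_one]; exact h2⟩
    intro h0
    rw [h0, Polynomial.C_0] at h2
    apply hQP 0
    rw [h2, Polynomial.eval_zero]
  · by_contra hcon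
    push Not at hcon
    obtain ⟨s, t, j, k, hst⟩ := hnc
    apply hst
    rw [hfP, hfP, hfP, hfP]
    linear_combination (u s * u t) * poly_const (hcon j k) s t

/-- entire curves -/
theorem merAdm_fam_ent (hQ : Q.IsHomogeneous q) (hf : EntireCurve p Q f)
    (hit : MerAdm Q q (fun w => f w⁻¹)) : Fam Q f univ := by
  obtain ⟨hd, hne, hfQ, hnc⟩ := ent_data hf
  obtain ⟨a1, a2, a3⟩ := inv_facts hd hne hfQ
  rcases merAdm_fam hQ a1 a2 a3 hit with h | ⟨M, i1, i2, P, h1, h2, h3⟩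
  · exact fam_of_rational hQ hd hne hfQ hnc h
  · refine ⟨M, i1, i2, P, fun G hG => ?_, h2, h3⟩
    rw [h1 G hG]
    constructor
    · intro h z _
      have e1 : AnalyticOnNhd ℂ (fun z => eval (f z) G) univ :=
        eval_an' (fun j z _ => (hd j).analyticAt z) G
      refine e1.eqOn_zero_of_preconnected_of_eventuallyEq_zero (z₀ := 2) isPreconnected_univ
        (mem_univ _) ?_ (mem_univ z)
      have e2 : ∀ᶠ x in 𝓝 (2 : ℂ), 1 < ‖x‖ :=
        continuous_norm.continuousAt.eventually (lt_mem_nhds (by norm_num))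
      filter_upwards [e2] with x hx
      have hx0 : x ≠ 0 := by
        intro h0
        rw [h0, norm_zero] at hx
        linarith
      have h4 : eval (f (x⁻¹)⁻¹) G = 0 := h x⁻¹ ⟨inv_ne_zero hx0, by
        rw [norm_inv]
        exact inv_lt_one_of_one_lt₀ hx⟩
      rwa [inv_inv] at h4
    · intro h z _
      exact h _ (mem_univ _)

theorem Fam.not_lgt {S : Set ℂ} (h : Fam Q f S) (hQ : Q.IsHomogeneous q) {K : Type} [Field K]
    [Algebra ℂ K] {w : ℕ} {y : Fin (N + 1) → K} (hy : GenPt f S K w y) :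
    ¬ LogGeneralType ℂ K w (OffQ Q q y) := by
  obtain ⟨M, i1, i2, P, h1, h2, h3⟩ := h
  exact Pool.Agent.Helper4K9.IP.not_lgt hQ hy.ne hy.gen hy.dim P (fun G hG => by
    rw [h1 G hG]
    exact hy.rel G hG) h2 h3

/-- the curve lies in the Zariski closure of the union of the curves of the multiplicative
group -/
theorem Fam.gm {S : Set ℂ} (h : Fam Q f S) (hI : ∀ z ∈ S, ∀ H ∈ p, eval (f z) H = 0)
    {G : MvPolynomial (Fin (N + 1)) ℂ} (hG : ∃ e, G.IsHomogeneous e)
    (hGm : ∀ P : Fin (N + 1) → Polynomial ℂ, GmCurve p Q P → ∀ t, t ≠ 0 →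
      eval (fun j => (P j).eval t) G = 0) : ∀ z ∈ S, eval (f z) G = 0 := by
  obtain ⟨M, i1, i2, P, h1, h2, h3⟩ := h
  rw [← h1 G hG]
  have hev : ∀ (p : Fin (N + 1) → Polynomial ℂ) (G : MvPolynomial (Fin (N + 1)) ℂ) (u : ℂ),
      (aeval p G : Polynomial ℂ).eval u = eval (fun j => (p j).eval u) G := by
    intro p G u
    have e1 := MvPolynomial.comp_aeval_apply (f := p) (Polynomial.aeval u) G
    rw [Polynomial.coe_aeval_eq_eval] at e1
    rw [e1, MvPolynomial.aeval_eq_eval]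
  refine Pool.Agent.Y356.IL.t_RCQ N p Q G (fun P' e1 e2 e3 => ?_) M P (fun G' hG' hGh' => ?_) h2 h3
  · apply poly_ne
    intro t ht
    rw [hev]
    refine hGm P' ⟨fun u hu => ?_, fun u _ G' hG' hGh' => ?_, nonconst_of_wr' e3⟩ t ht
    · obtain ⟨c, k, hc, hck⟩ := e2
      rw [← hev, hck, Polynomial.eval_mul, Polynomial.eval_C, Polynomial.eval_pow,
        Polynomial.eval_X]
      exact mul_ne_zero hc (pow_ne_zero _ hu)
    · rw [← hev, e1 G' hG' hGh', Polynomial.eval_zero]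
  · rw [h1 G' hGh']
    exact fun z hz => hI z hz G' hG'

/-- **Picard's theorem**, strong form -/
theorem strong_picard (hp : IsHomog p) (hQ : Q.IsHomogeneous q) {G : MvPolynomial (Fin (N + 1)) ℂ}
    (hG : IsForm G) (h : SubLogGT p Q q G) (hf : PCurve p Q f) (hit : MerAdm Q q f)
    (hfG : ∃ z ∈ ball (0 : ℂ) 1 \ {0}, eval (f z) G ≠ 0) : Extends f := by
  have han := hf.an
  have hne : ∀ w ∈ PB 1, f w ≠ 0 := fun w hw => (hf.2 w (mem_disc.2 hw)).1
  have hX : ∀ z ∈ PB 1, ∀ H ∈ p, eval (f z) H = 0 := fun z hz => (hf.2 z (mem_disc.2 hz)).2.1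
  have hfQ : ∀ z ∈ PB 1, eval (f z) Q ≠ 0 := fun z hz => (hf.2 z (mem_disc.2 hz)).2.2
  obtain ⟨z0, hz0⟩ := PB_nonempty one_pos
  obtain ⟨j0, hj0⟩ := Function.ne_iff.1 (hne z0 hz0)
  obtain ⟨K, i1, i2, w, y, h1, h2, h3, h4, h5⟩ := exists_closure f (PB_preconn one_pos) han
    ⟨z0, hz0, hj0⟩
  have hy : GenPt f (PB 1) K w y := ⟨h1, h2, h3, h4⟩
  rcases Nat.eq_zero_or_pos w with hw | hw
  · exact extends_of_const han hne (h5 hw)
  · have hsub := subVar_of_genPt hp hQ hy hX ⟨z0, hz0, hfQ z0 hz0⟩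
    have hGy : W602.GT.val y G ≠ 0 := by
      intro h0
      obtain ⟨z, hz, hzG⟩ := hfG
      exact hzG ((hy.rel G hG).1 h0 z (mem_disc.1 hz))
    rcases merAdm_fam hQ han hne hfQ hit with h6 | h6
    · exact h6
    · exact absurd (h K w y hw hsub hGy) (h6.not_lgt hQ hy)

/-- **Brody's property**, strong form -/
theorem strong_brody (hp : IsHomog p) (hQ : Q.IsHomogeneous q) {G : MvPolynomial (Fin (N + 1)) ℂ}
    (hG : IsForm G) (h : SubLogGT p Q q G) (hf : EntireCurve p Q f)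
    (hit : MerAdm Q q (fun w => f w⁻¹)) (z : ℂ) : eval (f z) G = 0 := by
  by_contra hz
  obtain ⟨hd, hne, hfQ, hnc⟩ := ent_data hf
  have hfa : ∀ j, AnalyticOnNhd ℂ (fun w => f w j) univ := fun j z _ => (hd j).analyticAt z
  obtain ⟨j0, hj0⟩ := Function.ne_iff.1 (hne 0)
  obtain ⟨K, i1, i2, w, y, h1, h2, h3, h4, h5⟩ := exists_closure f isPreconnected_univ hfa
    ⟨0, mem_univ _, hj0⟩
  have hy : GenPt f univ K w y := ⟨h1, h2, h3, h4⟩
  rcases Nat.eq_zero_or_pos w with hw | hw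
  · choose c hc using h5 hw
    obtain ⟨s, t, j, k, hst⟩ := hnc
    apply hst
    rw [hc j s (mem_univ _), hc k t (mem_univ _), hc k s (mem_univ _), hc j t (mem_univ _)]
    ring
  · have hsub := subVar_of_genPt hp hQ hy (fun z _ => (hf.2.1 z).2.1) ⟨0, mem_univ _, hfQ 0⟩
    have hGy : W602.GT.val y G ≠ 0 := by
      intro h0
      exact hz ((hy.rel G hG).1 h0 z (mem_univ z))
    exact (merAdm_fam_ent hQ hf hit).not_lgt hQ hy (h K w y hw hsub hGy)

end Pool.Agent.Helper4K9.MP
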