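import Pool.Agent.Helper4K9.MP.Gr

/-!
Classes of meromorphic functions near a puncture, given by their growth.
-/

set_option autoImplicit false

namespace Pool.Agent.Helper4K9.MP

open Metric Set Filter Topology Pool.Agent.W603.BP Pool.Agent.Helper4K9.IP Pool.Agent.Helper4K9.AP

variable {N : ℕ} {δ : ℝ} {f : ℂ → Fin (N + 1) → ℂ}

/-- at most a multiple of the characteristic of `f` -/
def Dom (f : ℂ → Fin (N + 1) → ℂ) (φ : ℝ → ℝ) : Prop :=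
  ∃ K C : ℝ, 0 ≤ K ∧ ∀ᶠ r in cofin, φ r ≤ K * |TP f r| + C * (1 + Real.log r)

/-- small with respect to the characteristic of `f` -/
def Sml (f : ℂ → Fin (N + 1) → ℂ) (φ : ℝ → ℝ) : Prop :=
  ∀ ε : ℝ, 0 < ε → ∃ C : ℝ, ∀ᶠ r in cofin, φ r ≤ ε * |TP f r| + C * (1 + Real.log r)

/-- growth conditions -/
structure Gr (G : (ℝ → ℝ) → Prop) : Prop where
  zero : G fun _ => 0
  add : ∀ φ ψ, G φ → G ψ → G fun r => φ r + ψ r
  mono : ∀ φ ψ, G φ → (∃ C : ℝ, ∀ᶠ r in cofin, ψ r ≤ φ r + C * (1 + Real.log r)) → G ψ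

theorem gr_dom (f : ℂ → Fin (N + 1) → ℂ) : Gr (Dom f) := by
  refine ⟨⟨0, 0, le_rfl, Eventually.of_forall fun r => by simp⟩, ?_, ?_⟩
  · rintro φ ψ ⟨K1, C1, hK1, h1⟩ ⟨K2, C2, hK2, h2⟩
    refine ⟨K1 + K2, C1 + C2, by linarith, ?_⟩
    filter_upwards [h1, h2] with r h3 h4
    linarith
  · rintro φ ψ ⟨K1, C1, hK1, h1⟩ ⟨C, h2⟩
    refine ⟨K1, C1 + C, hK1, ?_⟩
    filter_upwards [h1, h2] with r h3 h4
    linarith

theorem gr_sml (f : ℂ → Fin (N + 1) → ℂ) : Gr (Sml f) := by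
  refine ⟨fun ε hε => ⟨0, Eventually.of_forall fun r => by
    have h1 : 0 ≤ ε * |TP f r| := by positivity
    linarith⟩, ?_, ?_⟩
  · intro φ ψ h1 h2 ε hε
    obtain ⟨C1, h3⟩ := h1 (ε / 2) (by linarith)
    obtain ⟨C2, h4⟩ := h2 (ε / 2) (by linarith)
    refine ⟨C1 + C2, ?_⟩
    filter_upwards [h3, h4] with r h5 h6
    linarith
  · rintro φ ψ h1 ⟨C, h2⟩ ε hε
    obtain ⟨C1, h3⟩ := h1 ε hε
    refine ⟨C1 + C, ?_⟩
    filter_upwards [h3, h2] with r h5 h6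
    linarith

theorem Sml.dom {φ : ℝ → ℝ} (h : Sml f φ) : Dom f φ := by
  obtain ⟨C, hC⟩ := h 1 one_pos
  exact ⟨1, C, zero_le_one, hC⟩

/-- what the lemma on the logarithmic derivative gives -/
theorem Dom.sml {φ ψ : ℝ → ℝ} (h : Dom f φ)
    (h1 : ∀ ε : ℝ, 0 < ε → ∃ C : ℝ, 0 ≤ C ∧ ∀ᶠ r in cofin, ψ r ≤ ε * φ r + C * (1 + Real.log r)) :
    Sml f ψ := by
  obtain ⟨K, C, hK, h2⟩ := h
  intro ε hε
  have hK1 : 0 < K + 1 := by linarith
  obtain ⟨C1, hC1, h3⟩ := h1 (ε / (K + 1)) (by positivity)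
  refine ⟨ε / (K + 1) * C + C1, ?_⟩
  filter_upwards [h2, h3] with r h4 h5
  have h6 : 0 ≤ ε / (K + 1) := by positivity
  have h7 := mul_le_mul_of_nonneg_left h4 h6
  have h8 : ε / (K + 1) * (K * |TP f r|) ≤ ε * |TP f r| := by
    have h9 : ε / (K + 1) * K ≤ ε := by
      rw [div_mul_eq_mul_div, div_le_iff₀ hK1]
      nlinarith
    calc ε / (K + 1) * (K * |TP f r|) = ε / (K + 1) * K * |TP f r| := by ring
      _ ≤ _ := mul_le_mul_of_nonneg_right h9 (abs_nonneg _)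
  have h9 : ε / (K + 1) * (K * |TP f r| + C * (1 + Real.log r)) =
    ε / (K + 1) * (K * |TP f r|) + ε / (K + 1) * C * (1 + Real.log r) := by ring
  rw [h9] at h7
  have h10 : (ε / (K + 1) * C + C1) * (1 + Real.log r) = ε / (K + 1) * C * (1 + Real.log r) +
    C1 * (1 + Real.log r) := by ring
  rw [h10]
  linarith

/-- `a` is the quotient of two holomorphic functions on the punctured disc, with a denominator of
growth `G` -/
def Den (δ : ℝ) (G : (ℝ → ℝ) → Prop) (a : ℂ → ℂ) : Prop :=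
  ∃ b c : ℂ → ℂ, AnalyticOnNhd ℂ b (PB δ) ∧ AnalyticOnNhd ℂ c (PB δ) ∧ (∃ w ∈ PB δ, c w ≠ 0) ∧
    (∀ᶠ w in codiscreteWithin (PB δ), a w * c w = b w) ∧ G (lP c)

theorem Den.mero (hδ : 0 < δ) {G : (ℝ → ℝ) → Prop} {a : ℂ → ℂ} (h : Den δ G a) :
    MeromorphicOn a (PB δ) := by
  obtain ⟨b, c, hb, hc, hc0, habc, -⟩ := h
  intro x hx
  have h1 : MeromorphicAt (fun z => b z / c z) x :=
    (hb x hx).meromorphicAt.fun_div (hc x hx).meromorphicAt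
  refine h1.congr ?_
  filter_upwards [cd_ev (PB_open δ) habc hx, cd_ev (PB_open δ) (an_ne hδ hc hc0) hx] with z h2 h3
  rw [div_eq_iff h3]
  exact h2.symm

theorem Den.congr {G : (ℝ → ℝ) → Prop} {a a' : ℂ → ℂ} (h : Den δ G a)
    (h1 : ∀ᶠ w in codiscreteWithin (PB δ), a w = a' w) : Den δ G a' := by
  obtain ⟨b, c, hb, hc, hc0, habc, hG⟩ := h
  refine ⟨b, c, hb, hc, hc0, ?_, hG⟩
  filter_upwards [habc, h1] with w h2 h3
  rw [← h3]
  exact h2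

theorem Den.weaken {G G' : (ℝ → ℝ) → Prop} (hGG : ∀ φ, G φ → G' φ) {a : ℂ → ℂ} (h : Den δ G a) :
    Den δ G' a := by
  obtain ⟨b, c, hb, hc, hc0, habc, hG⟩ := h
  exact ⟨b, c, hb, hc, hc0, habc, hGG _ hG⟩

theorem mul_nz (hδ : 0 < δ) {b c : ℂ → ℂ} (hb : AnalyticOnNhd ℂ b (PB δ))
    (hc : AnalyticOnNhd ℂ c (PB δ)) (hb0 : ∃ w ∈ PB δ, b w ≠ 0) (hc0 : ∃ w ∈ PB δ, c w ≠ 0) :
    ∃ w ∈ PB δ, b w * c w ≠ 0 := by
  obtain ⟨w, hw, h1, h2⟩ := cd_exists (PB_open δ) (PB_nonempty hδ)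
    ((an_ne hδ hb hb0).and (an_ne hδ hc hc0))
  exact ⟨w, hw, mul_ne_zero h1 h2⟩

theorem gr_lP_mul (hδ : 0 < δ) {G : (ℝ → ℝ) → Prop} (hG : Gr G) {b c : ℂ → ℂ}
    (hb : AnalyticOnNhd ℂ b (PB δ)) (hc : AnalyticOnNhd ℂ c (PB δ)) (hb0 : ∃ w ∈ PB δ, b w ≠ 0)
    (hc0 : ∃ w ∈ PB δ, c w ≠ 0) (h1 : G (lP b)) (h2 : G (lP c)) :
    G (lP fun w => b w * c w) := by
  refine hG.mono _ _ (hG.add _ _ h1 h2) ⟨0, ?_⟩
  filter_upwards [cofin_gt δ⁻¹] with r hr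
  rw [lP_mul hδ (an_mer hb) (an_mer hc) (an_ne hδ hb hb0) (an_ne hδ hc hc0) hr]
  simp

theorem an_mul {b c : ℂ → ℂ} (hb : AnalyticOnNhd ℂ b (PB δ)) (hc : AnalyticOnNhd ℂ c (PB δ)) :
    AnalyticOnNhd ℂ (fun w => b w * c w) (PB δ) := fun w hw => (hb w hw).fun_mul (hc w hw)

theorem an_add {b c : ℂ → ℂ} (hb : AnalyticOnNhd ℂ b (PB δ)) (hc : AnalyticOnNhd ℂ c (PB δ)) :
    AnalyticOnNhd ℂ (fun w => b w + c w) (PB δ) := fun w hw => (hb w hw).fun_add (hc w hw)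

theorem an_sub {b c : ℂ → ℂ} (hb : AnalyticOnNhd ℂ b (PB δ)) (hc : AnalyticOnNhd ℂ c (PB δ)) :
    AnalyticOnNhd ℂ (fun w => b w - c w) (PB δ) := fun w hw => (hb w hw).fun_sub (hc w hw)

theorem den_an {G : (ℝ → ℝ) → Prop} (hδ : 0 < δ) (hG : Gr G) {b : ℂ → ℂ}
    (hb : AnalyticOnNhd ℂ b (PB δ)) : Den δ G b := by
  obtain ⟨w, hw⟩ := PB_nonempty hδ
  refine ⟨b, fun _ => 1, hb, fun _ _ => analyticAt_const, ⟨w, hw, one_ne_zero⟩,
    Eventually.of_forall fun _ => mul_one _, hG.mono _ _ hG.zero ⟨0, ?_⟩⟩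
  filter_upwards with r
  unfold lP
  simp [Real.circleAverage_const]

theorem Den.add (hδ : 0 < δ) {G : (ℝ → ℝ) → Prop} (hG : Gr G) {a a' : ℂ → ℂ} (h : Den δ G a)
    (h' : Den δ G a') : Den δ G fun w => a w + a' w := by
  obtain ⟨b, c, hb, hc, hc0, habc, hgc⟩ := h
  obtain ⟨b', c', hb', hc', hc0', habc', hgc'⟩ := h'
  refine ⟨fun w => b w * c' w + b' w * c w, fun w => c w * c' w, an_add (an_mul hb hc')
    (an_mul hb' hc), an_mul hc hc', mul_nz hδ hc hc' hc0 hc0', ?_,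
    gr_lP_mul hδ hG hc hc' hc0 hc0' hgc hgc'⟩
  filter_upwards [habc, habc'] with w h1 h2
  rw [← h1, ← h2]
  ring

theorem Den.mul (hδ : 0 < δ) {G : (ℝ → ℝ) → Prop} (hG : Gr G) {a a' : ℂ → ℂ} (h : Den δ G a)
    (h' : Den δ G a') : Den δ G fun w => a w * a' w := by
  obtain ⟨b, c, hb, hc, hc0, habc, hgc⟩ := h
  obtain ⟨b', c', hb', hc', hc0', habc', hgc'⟩ := h'
  refine ⟨fun w => b w * b' w, fun w => c w * c' w, an_mul hb hb', an_mul hc hc',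
    mul_nz hδ hc hc' hc0 hc0', ?_, gr_lP_mul hδ hG hc hc' hc0 hc0' hgc hgc'⟩
  filter_upwards [habc, habc'] with w h1 h2
  rw [← h1, ← h2]
  ring

theorem Den.deriv (hδ : 0 < δ) {G : (ℝ → ℝ) → Prop} (hG : Gr G) {a : ℂ → ℂ} (h : Den δ G a) :
    Den δ G (deriv a) := by
  have hm := h.mero hδ
  obtain ⟨b, c, hb, hc, hc0, habc, hgc⟩ := h
  refine ⟨fun w => _root_.deriv b w * c w - b w * _root_.deriv c w, fun w => c w * c w,
    an_sub (an_mul hb.deriv hc) (an_mul hb hc.deriv), an_mul hc hc, mul_nz hδ hc hc hc0 hc0, ?_,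
    gr_lP_mul hδ hG hc hc hc0 hc0 hgc hgc⟩
  filter_upwards [cd_all (PB_open δ) habc, mer_an hm, cd_self (Ω := PB δ)] with w h1 h2 h3
  have h4 : _root_.deriv b w = _root_.deriv a w * c w + a w * _root_.deriv c w := by
    have h5 : b =ᶠ[𝓝 w] fun w => a w * c w := by
      filter_upwards [h1] with x hx
      exact hx.symm
    rw [h5.deriv_eq, deriv_fun_mul h2.differentiableAt (hc w h3).differentiableAt]
  rw [h4, ← h1.self_of_nhds]
  ring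

theorem nz_of_cd {a b c : ℂ → ℂ} (hδ : 0 < δ)
    (ha0 : ¬ ∀ᶠ w in codiscreteWithin (PB δ), a w = 0)
    (hc : AnalyticOnNhd ℂ c (PB δ)) (hc0 : ∃ w ∈ PB δ, c w ≠ 0)
    (habc : ∀ᶠ w in codiscreteWithin (PB δ), a w * c w = b w) : ∃ w ∈ PB δ, b w ≠ 0 := by
  by_contra hcon
  push Not at hcon
  apply ha0
  filter_upwards [habc, an_ne hδ hc hc0, cd_self (Ω := PB δ)] with w h1 h2 h3
  rw [hcon w h3] at h1
  exact (mul_eq_zero.1 h1).resolve_right h2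

/-- meromorphic functions of growth at most that of `f` -/
structure OO (δ : ℝ) (f : ℂ → Fin (N + 1) → ℂ) (a : ℂ → ℂ) : Prop where
  den : Den δ (Dom f) a
  dom : Dom f (mP a)

/-- meromorphic functions of growth at most that of `f`, with a small proximity function -/
structure SS (δ : ℝ) (f : ℂ → Fin (N + 1) → ℂ) (a : ℂ → ℂ) : Prop where
  oo : OO δ f a
  sml : Sml f (mP a)

theorem OO.congr (hδ : 0 < δ) {a a' : ℂ → ℂ} (h : OO δ f a)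
    (h1 : ∀ᶠ w in codiscreteWithin (PB δ), a w = a' w) : OO δ f a' := by
  refine ⟨h.den.congr h1, (gr_dom f).mono _ _ h.dom ⟨0, ?_⟩⟩
  filter_upwards [cofin_gt δ⁻¹] with r hr
  rw [mP_congr hδ h1 hr]
  simp

theorem SS.congr (hδ : 0 < δ) {a a' : ℂ → ℂ} (h : SS δ f a)
    (h1 : ∀ᶠ w in codiscreteWithin (PB δ), a w = a' w) : SS δ f a' := by
  refine ⟨h.oo.congr hδ h1, (gr_sml f).mono _ _ h.sml ⟨0, ?_⟩⟩
  filter_upwards [cofin_gt δ⁻¹] with r hr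
  rw [mP_congr hδ h1 hr]
  simp

theorem gr_mP_add (hδ : 0 < δ) {G : (ℝ → ℝ) → Prop} (hG : Gr G) {a b : ℂ → ℂ}
    (ha : MeromorphicOn a (PB δ)) (hb : MeromorphicOn b (PB δ)) (h1 : G (mP a)) (h2 : G (mP b)) :
    G (mP fun w => a w + b w) := by
  refine hG.mono _ _ (hG.add _ _ h1 h2) ⟨Real.log 2, ?_⟩
  filter_upwards [cofin_gt δ⁻¹, cofin_gt 1] with r hr hr1
  have h3 := mP_addm hδ ha hb hr
  have h4 : 0 ≤ Real.log 2 * Real.log r :=
    mul_nonneg (Real.log_nonneg (by norm_num)) (Real.log_nonneg hr1.le)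
  linarith

theorem gr_mP_mul (hδ : 0 < δ) {G : (ℝ → ℝ) → Prop} (hG : Gr G) {a b : ℂ → ℂ}
    (ha : MeromorphicOn a (PB δ)) (hb : MeromorphicOn b (PB δ)) (h1 : G (mP a)) (h2 : G (mP b)) :
    G (mP fun w => a w * b w) := by
  refine hG.mono _ _ (hG.add _ _ h1 h2) ⟨0, ?_⟩
  filter_upwards [cofin_gt δ⁻¹] with r hr
  have h3 := mP_mulm hδ ha hb hr
  linarith

theorem gr_mP_const {G : (ℝ → ℝ) → Prop} (hG : Gr G) (x : ℂ) : G (mP fun _ => x) := by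
  refine hG.mono _ _ hG.zero ⟨Real.posLog ‖x‖, ?_⟩
  filter_upwards [cofin_gt 1] with r hr1
  have h1 : mP (fun _ => x) r = Real.posLog ‖x‖ := by
    unfold mP
    rw [Real.circleAverage_const]
  rw [h1]
  have h2 : 0 ≤ Real.posLog ‖x‖ * Real.log r :=
    mul_nonneg Real.posLog_nonneg (Real.log_nonneg hr1.le)
  linarith

theorem OO.add (hδ : 0 < δ) {a b : ℂ → ℂ} (ha : OO δ f a) (hb : OO δ f b) :
    OO δ f fun w => a w + b w :=
  ⟨ha.den.add hδ (gr_dom f) hb.den, gr_mP_add hδ (gr_dom f) (ha.den.mero hδ) (hb.den.mero hδ)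
    ha.dom hb.dom⟩

theorem OO.mul (hδ : 0 < δ) {a b : ℂ → ℂ} (ha : OO δ f a) (hb : OO δ f b) :
    OO δ f fun w => a w * b w :=
  ⟨ha.den.mul hδ (gr_dom f) hb.den, gr_mP_mul hδ (gr_dom f) (ha.den.mero hδ) (hb.den.mero hδ)
    ha.dom hb.dom⟩

theorem SS.add (hδ : 0 < δ) {a b : ℂ → ℂ} (ha : SS δ f a) (hb : SS δ f b) :
    SS δ f fun w => a w + b w :=
  ⟨ha.oo.add hδ hb.oo, gr_mP_add hδ (gr_sml f) (ha.oo.den.mero hδ) (hb.oo.den.mero hδ)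
    ha.sml hb.sml⟩

theorem SS.mul (hδ : 0 < δ) {a b : ℂ → ℂ} (ha : SS δ f a) (hb : SS δ f b) :
    SS δ f fun w => a w * b w :=
  ⟨ha.oo.mul hδ hb.oo, gr_mP_mul hδ (gr_sml f) (ha.oo.den.mero hδ) (hb.oo.den.mero hδ)
    ha.sml hb.sml⟩

theorem SS.const (hδ : 0 < δ) (f : ℂ → Fin (N + 1) → ℂ) (x : ℂ) : SS δ f fun _ => x :=
  ⟨⟨den_an hδ (gr_dom f) fun _ _ => analyticAt_const, gr_mP_const (gr_dom f) x⟩,
    gr_mP_const (gr_sml f) x⟩

theorem OO.const (hδ : 0 < δ) (f : ℂ → Fin (N + 1) → ℂ) (x : ℂ) : OO δ f fun _ => x :=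
  (SS.const hδ f x).oo

/-- the lemma on the logarithmic derivative for the class `OO` -/
theorem OO.logDeriv (hδ : 0 < δ) (hδ1 : δ ≤ 1) {a : ℂ → ℂ} (ha : OO δ f a)
    (ha0 : ¬ ∀ᶠ w in codiscreteWithin (PB δ), a w = 0) : SS δ f (logDeriv a) := by
  have hm := ha.den.mero hδ
  obtain ⟨⟨b, c, hb, hc, hc0, habc, hgc⟩, hd⟩ := ha
  have hb0 := nz_of_cd hδ ha0 hc hc0 habc
  have hs : Sml f (mP (_root_.logDeriv a)) := Dom.sml ((gr_dom f).add _ _ hgc hd) fun ε hε =>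
    ldP hδ hδ1 hm hb hc hb0 hc0 habc hε
  refine ⟨⟨⟨fun w => deriv b w * c w - b w * deriv c w, fun w => b w * c w,
    an_sub (an_mul hb.deriv hc) (an_mul hb hc.deriv), an_mul hb hc, mul_nz hδ hb hc hb0 hc0, ?_,
    gr_lP_mul hδ (gr_dom f) hb hc hb0 hc0 ?_ hgc⟩, hs.dom⟩, hs⟩
  · filter_upwards [cd_all (PB_open δ) habc, mer_an hm, cd_self (Ω := PB δ),
      mer_ne (PB_preconn hδ) hm ha0] with w h1 h2 h3 h6
    have h4 : deriv b w = deriv a w * c w + a w * deriv c w := by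
      have h5 : b =ᶠ[𝓝 w] fun w => a w * c w := by
        filter_upwards [h1] with x hx
        exact hx.symm
      rw [h5.deriv_eq, deriv_fun_mul h2.differentiableAt (hc w h3).differentiableAt]
    rw [h4, ← h1.self_of_nhds, logDeriv_apply]
    field_simp
    ring
  · refine (gr_dom f).mono _ _ ((gr_dom f).add _ _ hd hgc) ⟨0, ?_⟩
    filter_upwards [cofin_gt δ⁻¹] with r hr
    have h1 : lP b r = lP (fun w => a w * c w) r :=
      lP_congr hδ (habc.mono fun w hw => hw.symm) hr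
    rw [h1, lP_mul hδ hm (an_mer hc) (mer_ne (PB_preconn hδ) hm ha0) (an_ne hδ hc hc0) hr]
    have := lP_le_mP hδ hm hr
    linarith

theorem deriv_zero_of {a : ℂ → ℂ} (ha0 : ∀ᶠ w in codiscreteWithin (PB δ), a w = 0) :
    ∀ᶠ w in codiscreteWithin (PB δ), deriv a w = 0 := by
  filter_upwards [cd_all (PB_open δ) ha0] with w hw
  have h1 : a =ᶠ[𝓝 w] fun _ => 0 := hw
  rw [h1.deriv_eq, deriv_const]

theorem gr_mP_deriv (hδ : 0 < δ) {G : (ℝ → ℝ) → Prop} (hG : Gr G) {a : ℂ → ℂ}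
    (ha : MeromorphicOn a (PB δ)) (ha0 : ¬ ∀ᶠ w in codiscreteWithin (PB δ), a w = 0)
    (h1 : G (mP a)) (h2 : G (mP (logDeriv a))) : G (mP (deriv a)) := by
  have hml : MeromorphicOn (logDeriv a) (PB δ) := fun z hz => (ha z hz).deriv.div (ha z hz)
  refine hG.mono _ _ (gr_mP_mul hδ hG hml ha h2 h1) ⟨0, ?_⟩
  filter_upwards [cofin_gt δ⁻¹] with r hr
  have h3 : mP (fun w => logDeriv a w * a w) r = mP (deriv a) r := by
    refine mP_congr hδ ?_ hr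
    filter_upwards [mer_ne (PB_preconn hδ) ha ha0] with w hw
    rw [logDeriv_apply, div_mul_cancel₀ _ hw]
  rw [h3]
  linarith

theorem OO.deriv (hδ : 0 < δ) (hδ1 : δ ≤ 1) {a : ℂ → ℂ} (ha : OO δ f a) :
    OO δ f (deriv a) := by
  by_cases ha0 : ∀ᶠ w in codiscreteWithin (PB δ), a w = 0
  · refine (OO.const hδ f 0).congr hδ ?_
    filter_upwards [deriv_zero_of ha0] with w hw
    exact hw.symm
  · exact ⟨ha.den.deriv hδ (gr_dom f), gr_mP_deriv hδ (gr_dom f) (ha.den.mero hδ) ha0 ha.dom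
      (ha.logDeriv hδ hδ1 ha0).oo.dom⟩

theorem SS.deriv (hδ : 0 < δ) (hδ1 : δ ≤ 1) {a : ℂ → ℂ} (ha : SS δ f a) :
    SS δ f (deriv a) := by
  by_cases ha0 : ∀ᶠ w in codiscreteWithin (PB δ), a w = 0
  · refine (SS.const hδ f 0).congr hδ ?_
    filter_upwards [deriv_zero_of ha0] with w hw
    exact hw.symm
  · exact ⟨ha.oo.deriv hδ hδ1, gr_mP_deriv hδ (gr_sml f) (ha.oo.den.mero hδ) ha0 ha.sml
      (ha.oo.logDeriv hδ hδ1 ha0).sml⟩

end Pool.Agent.Helper4K9.MP
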