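import Pool.Agent.Helper4K9.MP.Wr

/-!
Linear differential equations with small coefficients for curves with few ramification points.
-/

set_option autoImplicit false

namespace Pool.Agent.Helper4K9.MP

open Metric Set Filter Topology Pool.Agent.W603.BP Pool.Agent.Helper4K9.IP Pool.Agent.Helper4K9.AP
open Pool.Agent.H159R3.NV (avg_le_cod)

variable {N : ℕ} {δ : ℝ} {f : ℂ → Fin (N + 1) → ℂ} {m : ℕ}

theorem ci_TP (hδ : 0 < δ) (han : ∀ j, AnalyticOnNhd ℂ (fun w => f w j) (PB δ))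
    (hne : ∀ w ∈ PB δ, f w ≠ 0) {r : ℝ} (hr : δ⁻¹ < r) :
    CircleIntegrable (fun z => Real.log ‖f z⁻¹‖) 0 r := by
  have hd0 : 0 < δ⁻¹ := inv_pos.2 hδ
  have hr0 : 0 < r := hd0.trans hr
  have hfc : ContinuousOn f (PB δ) := continuousOn_pi.2 fun j => (han j).continuousOn
  apply ContinuousOn.circleIntegrable hr0.le
  intro z hz
  rw [← abs_of_pos hr0] at hz
  obtain ⟨h5, h6⟩ := sph_ext hd0.le hr hz
  have h7 := inv_mem_PB hδ h5
  have h8 : ContinuousAt (fun z : ℂ => f z⁻¹) z :=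
    ContinuousAt.comp (g := f) (f := fun z : ℂ => z⁻¹)
      ((hfc _ h7).continuousAt ((PB_open δ).mem_nhds h7))
      (continuousAt_inv₀ (ext_ne_zero hd0.le h5))
  exact (h8.norm.log (norm_ne_zero_iff.2 (hne _ h7))).continuousWithinAt

/-- quotients of functions which are bounded by a power of the curve -/
theorem oo_quot (hδ : 0 < δ) (hδ1 : δ ≤ 1) (han : ∀ j, AnalyticOnNhd ℂ (fun w => f w j) (PB δ))
    (hne : ∀ w ∈ PB δ, f w ≠ 0) {a b : ℂ → ℂ} (ha : AnalyticOnNhd ℂ a (PB δ))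
    (hb : AnalyticOnNhd ℂ b (PB δ)) (hb0 : ∃ w ∈ PB δ, b w ≠ 0) {k : ℕ} {C : ℝ} (hC : 1 ≤ C)
    (haC : ∀ w ∈ PB δ, ‖a w‖ ≤ C * ‖f w‖ ^ k) (hbC : ∀ w ∈ PB δ, ‖b w‖ ≤ C * ‖f w‖ ^ k) :
    OO δ f fun z => a z / b z := by
  have hbn := an_ne hδ hb hb0
  have hd0 : 0 < δ⁻¹ := inv_pos.2 hδ
  have hlC : 0 ≤ Real.log C := Real.log_nonneg hC
  have hb1 : ∀ r, δ⁻¹ < r → lP b r ≤ k * |TP f r| + Real.log C := by
    intro r hr
    have hr0 : 0 < r := hd0.trans hr
    have ciT := ci_TP hδ han hne hr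
    have ciT' : CircleIntegrable (fun z => (k : ℝ) * Real.log ‖f z⁻¹‖) 0 r := by
      have := ciT.const_fun_smul (a := (k : ℝ))
      simpa [smul_eq_mul] using this
    have h1 : lP b r ≤ Real.circleAverage (fun z => (k : ℝ) * Real.log ‖f z⁻¹‖ + Real.log C) 0 r := by
      apply avg_le_cod (ci_lPm hδ (an_mer hb) hr) (ciT'.add (circleIntegrable_const _ _ _)) hr0.ne'
      filter_upwards [cd_circle hδ hbn hr, cd_circle hδ (cd_self (Ω := PB δ)) hr] with z h2 h3
      have e2 : 0 < ‖b z⁻¹‖ := norm_pos_iff.2 h2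
      have e3 : 0 < ‖f z⁻¹‖ := norm_pos_iff.2 (hne _ h3)
      have e6 := Real.log_le_log e2 (hbC _ h3)
      rw [Real.log_mul (by positivity) (by positivity), Real.log_pow] at e6
      change Real.log ‖b z⁻¹‖ ≤ (k : ℝ) * Real.log ‖f z⁻¹‖ + Real.log C
      linarith
    rw [Real.circleAverage_fun_add ciT' (circleIntegrable_const _ _ _),
      Real.circleAverage_const] at h1
    have h3 : Real.circleAverage (fun z => (k : ℝ) * Real.log ‖f z⁻¹‖) 0 r = k * TP f r := by
      have := Real.circleAverage_fun_smul (a := (k : ℝ)) (f := fun z => Real.log ‖f z⁻¹‖)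
        (c := 0) (R := r)
      simp only [smul_eq_mul] at this
      exact this
    rw [h3] at h1
    have h4 : (k : ℝ) * TP f r ≤ k * |TP f r| :=
      mul_le_mul_of_nonneg_left (le_abs_self _) (Nat.cast_nonneg k)
    linarith
  have hm : MeromorphicOn (fun z => a z / b z) (PB δ) := (an_mer ha).div (an_mer hb)
  refine ⟨⟨a, b, ha, hb, hb0, ?_, k, Real.log C, Nat.cast_nonneg k, ?_⟩, ?_⟩
  · filter_upwards [hbn] with w hw
    rw [div_mul_cancel₀ _ hw]
  · filter_upwards [cofin_gt δ⁻¹, cofin_gt 1] with r hr hr1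
    have h1 := hb1 r hr
    have h2 : 0 ≤ Real.log C * Real.log r := mul_nonneg hlC (Real.log_nonneg hr1.le)
    linarith
  · obtain ⟨C1, hC1, hlow⟩ := low_mean hδ hδ1 hb hb0
    refine ⟨k, Real.log C + C1, Nat.cast_nonneg k, ?_⟩
    filter_upwards [cofin_gt δ⁻¹, cofin_gt 1, hlow] with r hr hr1 hlw
    have hr0 : 0 < r := hd0.trans hr
    have ciT := ci_TP hδ han hne hr
    have ciT' : CircleIntegrable (fun z => (k : ℝ) * Real.log ‖f z⁻¹‖) 0 r := by
      have := ciT.const_fun_smul (a := (k : ℝ))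
      simpa [smul_eq_mul] using this
    have ciB := ci_lPm hδ (an_mer hb) hr
    have ciK : CircleIntegrable (fun z => (k : ℝ) * Real.log ‖f z⁻¹‖ + Real.log C) 0 r :=
      ciT'.add (circleIntegrable_const _ _ _)
    have h1 : mP (fun z => a z / b z) r ≤ Real.circleAverage (fun z =>
        ((k : ℝ) * Real.log ‖f z⁻¹‖ + Real.log C) - Real.log ‖b z⁻¹‖) 0 r := by
      apply avg_le_cod (ci_mPm hδ hm hr) (ciK.sub ciB) hr0.ne'
      filter_upwards [cd_circle hδ hbn hr, cd_circle hδ (cd_self (Ω := PB δ)) hr] with z h2 h3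
      have e2 : 0 < ‖b z⁻¹‖ := norm_pos_iff.2 h2
      have e3 : 0 < ‖f z⁻¹‖ := norm_pos_iff.2 (hne _ h3)
      have e4 : Real.log (C * ‖f z⁻¹‖ ^ k) = k * Real.log ‖f z⁻¹‖ + Real.log C := by
        rw [Real.log_mul (by positivity) (by positivity), Real.log_pow]
        ring
      have e6 := Real.log_le_log e2 (hbC _ h3)
      rw [e4] at e6
      change Real.posLog ‖a z⁻¹ / b z⁻¹‖ ≤ ((k : ℝ) * Real.log ‖f z⁻¹‖ + Real.log C) -
        Real.log ‖b z⁻¹‖
      rw [norm_div, Real.posLog_apply]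
      rcases eq_or_ne (a z⁻¹) 0 with h0 | h0
      · rw [h0, norm_zero, zero_div, Real.log_zero, max_self]
        linarith
      · have e1 : 0 < ‖a z⁻¹‖ := norm_pos_iff.2 h0
        have e5 := Real.log_le_log e1 (haC _ h3)
        rw [e4] at e5
        rw [Real.log_div e1.ne' e2.ne']
        exact max_le (by linarith) (by linarith)
    rw [Real.circleAverage_fun_sub ciK ciB, Real.circleAverage_fun_add ciT'
      (circleIntegrable_const _ _ _), Real.circleAverage_const] at h1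
    have h3 : Real.circleAverage (fun z => (k : ℝ) * Real.log ‖f z⁻¹‖) 0 r = k * TP f r := by
      have := Real.circleAverage_fun_smul (a := (k : ℝ)) (f := fun z => Real.log ‖f z⁻¹‖)
        (c := 0) (R := r)
      simp only [smul_eq_mul] at this
      exact this
    rw [h3] at h1
    have h4 : (k : ℝ) * TP f r ≤ k * |TP f r| :=
      mul_le_mul_of_nonneg_left (le_abs_self _) (Nat.cast_nonneg k)
    have h5 : 0 ≤ Real.log C * Real.log r := mul_nonneg hlC (Real.log_nonneg hr1.le)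
    linarith

theorem sml_pow (hδ : 0 < δ) {c : ℂ → ℂ} (hc : AnalyticOnNhd ℂ c (PB δ))
    (hc0 : ∃ w ∈ PB δ, c w ≠ 0) (hs : Sml f (lP c)) (n : ℕ) : Sml f (lP fun w => c w ^ n) := by
  induction n with
  | zero =>
    refine (gr_sml f).mono _ _ (gr_sml f).zero ⟨0, ?_⟩
    filter_upwards with r
    unfold lP
    simp [Real.circleAverage_const]
  | succ n ih =>
    have h1 : AnalyticOnNhd ℂ (fun w => c w ^ n) (PB δ) := fun w hw => (hc w hw).fun_pow n
    have h2 : ∃ w ∈ PB δ, c w ^ n ≠ 0 := by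
      obtain ⟨w, hw, h3⟩ := hc0
      exact ⟨w, hw, pow_ne_zero _ h3⟩
    have h3 := gr_lP_mul hδ (gr_sml f) h1 hc h2 hc0 ih hs
    simpa only [pow_succ] using h3

/-- functions of small proximity whose poles are among the zeros of a function with few zeros -/
theorem mem_of_poles (hδ : 0 < δ) {a c : ℂ → ℂ} (ha : SS δ f a) (hc : AnalyticOnNhd ℂ c (PB δ))
    (hc0 : ∃ w ∈ PB δ, c w ≠ 0) (hs : Sml f (lP c)) {n : ℕ}
    (h0 : ∀ z0 ∈ PB δ, c z0 ≠ 0 → PoleLE 0 a z0) (h1 : ∀ z0 ∈ PB δ, PoleLE n a z0) :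
    a ∈ smallMer hδ f := by
  have ham : MeromorphicOn a (PB δ) := ha.oo.den.mero hδ
  have hcn : AnalyticOnNhd ℂ (fun w => c w ^ n) (PB δ) := fun w hw => (hc w hw).fun_pow n
  have hgm : MeromorphicOn (fun w => a w * c w ^ n) (PB δ) := ham.mul (an_mer hcn)
  have hloc : ∀ z0 ∈ PB δ, PoleLE 0 (fun w => a w * c w ^ n) z0 := by
    intro z0 hz0
    by_cases hz : c z0 = 0
    · obtain ⟨g, hg, h2⟩ := h1 z0 hz0
      have h3 : AnalyticAt ℂ (dslope c z0) z0 := by
        obtain ⟨p, hp⟩ := hc z0 hz0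
        exact ⟨_, hp.has_fpower_series_dslope_fslope⟩
      refine ⟨fun z => g z * dslope c z0 z ^ n, hg.fun_mul (h3.fun_pow n), ?_⟩
      filter_upwards [h2] with z hz'
      have h4 : c z = (z - z0) * dslope c z0 z := by
        have := sub_smul_dslope c z0 z
        rw [hz, sub_zero, smul_eq_mul] at this
        exact this.symm
      rw [← hz', h4, pow_zero, mul_one, mul_pow]
      ring
    · have h2 := (h0 z0 hz0 hz).mul (PoleLE.of_an (hcn z0 hz0) 0)
      exact h2
  obtain ⟨b, hb, hbe⟩ := removable' (V := PB δ) (f := fun w => a w * c w ^ n) (by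
    intro w hw
    exact (hgm w hw).eventually_analyticAt.mono fun z hz => hz.differentiableAt) (by
    intro w hw
    obtain ⟨g, hg, h2⟩ := hloc w hw
    refine ⟨‖g w‖ + 1, ?_⟩
    have h3 : ∀ᶠ z in 𝓝 w, ‖g z‖ < ‖g w‖ + 1 :=
      hg.continuousAt.norm.eventually_lt continuousAt_const (by simp)
    filter_upwards [h2, nhdsWithin_le_nhds h3] with z h4 h5
    rw [pow_zero, mul_one] at h4
    rw [h4]
    exact h5.le)
  refine mem_smallMer.2 ⟨⟨b, fun w => c w ^ n, hb, hcn, ?_, ?_, sml_pow hδ hc hc0 hs n⟩, ha.sml⟩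
  · obtain ⟨w, hw, h3⟩ := hc0
    exact ⟨w, hw, pow_ne_zero _ h3⟩
  · filter_upwards [mer_an hgm, cd_self (Ω := PB δ)] with w h2 h3
    exact (hbe w h3 h2.continuousAt).symm

theorem nb_an {γ u : ℂ → ℂ} {z0 : ℂ} (hγ : AnalyticAt ℂ γ z0) (hu : AnalyticAt ℂ u z0) (i : ℕ) :
    AnalyticAt ℂ (nb γ i u) z0 := by
  induction i with
  | zero => exact hu
  | succ i ih => exact ih.deriv.fun_add (hγ.fun_mul ih)

theorem det_an {A : Fin m → Fin m → ℂ → ℂ} {z0 : ℂ} (hA : ∀ i j, AnalyticAt ℂ (A i j) z0) :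
    AnalyticAt ℂ (fun z => Matrix.det (Matrix.of fun i j => A i j z)) z0 := by
  have h1 : (fun z => Matrix.det (Matrix.of fun i j => A i j z)) = fun z =>
      ∑ σ : Equiv.Perm (Fin m), (((Equiv.Perm.sign σ : ℤˣ) : ℤ) : ℂ) * ∏ i, A (σ i) i z := by
    funext z
    rw [Matrix.det_apply']
    rfl
  rw [h1]
  exact Finset.analyticAt_fun_sum _ fun σ _ => analyticAt_const.fun_mul
    (Finset.analyticAt_fun_prod _ fun i _ => hA _ _)

/-- **Equations with small coefficients** for curves with few ramification points. -/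
theorem coefficients (hδ : 0 < δ) (hδ1 : δ ≤ 1)
    (han : ∀ j, AnalyticOnNhd ℂ (fun w => f w j) (PB δ)) (hne : ∀ w ∈ PB δ, f w ≠ 0)
    (hW0 : ∃ z ∈ PB δ, wd (fun _ => 0) (fun j w => f w j) z ≠ 0) {c : ℂ → ℂ}
    (hc : AnalyticOnNhd ℂ c (PB δ)) (hc0 : ∃ w ∈ PB δ, c w ≠ 0) (hs : Sml f (lP c))
    (hcW : ∀ z ∈ PB δ, wd (fun _ => 0) (fun j w => f w j) z = 0 → c z = 0) :
    ∃ j0 : Fin (N + 1), (∃ w ∈ PB δ, f w j0 ≠ 0) ∧
      OO δ f (fun z => wd (fun _ => 0) (fun j w => f w j) z / f z j0 ^ (N + 1)) ∧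
      ∃ C : ℕ → ℂ → ℂ, (∀ l ≤ N, C l ∈ smallMer hδ f) ∧ (C (N + 1) = fun _ => 1) ∧
      ∀ j : Fin (N + 1), ∀ᶠ z in codiscreteWithin (PB δ), ∑ i ∈ Finset.range (N + 1 + 1),
        C i z * nb (fun z => (-1 / ((N : ℂ) + 1)) *
          logDeriv (wd (fun _ => 0) fun j w => f w j) z) i (fun w => f w j) z = 0 := by
  obtain ⟨w0, hw0⟩ := PB_nonempty hδ
  obtain ⟨j0, hj0⟩ := Function.ne_iff.1 (hne w0 hw0)
  have hj0' : f w0 j0 ≠ 0 := hj0
  set g : ℂ → ℂ := fun w => f w j0 with hg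
  have hgan : AnalyticOnNhd ℂ g (PB δ) := han j0
  have hg0 : ∃ w ∈ PB δ, g w ≠ 0 := ⟨w0, hw0, hj0'⟩
  have hgn := an_ne hδ hgan hg0
  have hgm := an_mer hgan
  have hgz : ¬ ∀ᶠ w in codiscreteWithin (PB δ), g w = 0 := by
    intro h
    obtain ⟨w, hw, h1, h2⟩ := cd_exists (PB_open δ) (PB_nonempty hδ) (h.and hgn)
    exact h2 h1
  set F : Fin (N + 1) → ℂ → ℂ := fun j w => f w j with hF
  have hFm : ∀ j, MeromorphicOn (F j) (PB δ) := fun j => an_mer (han j)
  set W : ℂ → ℂ := wd (fun _ => 0) F with hW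
  have hWan : AnalyticOnNhd ℂ W (PB δ) := fun z hz => det_an fun i j =>
    nb_an analyticAt_const (han j z hz) _
  have hWm := an_mer hWan
  have hWn := an_ne hδ hWan hW0
  set y : Fin (N + 1) → ℂ → ℂ := fun j z => F j z / g z with hy
  have hyo : ∀ j, OO δ f (y j) := fun j => oo_quot hδ hδ1 han hne (han j) hgan hg0 (k := 1)
    le_rfl (fun w _ => by rw [one_mul, pow_one]; exact norm_le_pi_norm (f w) j)
    (fun w _ => by rw [one_mul, pow_one]; exact norm_le_pi_norm (f w) j0)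
  set Wy : ℂ → ℂ := wd (fun _ => 0) y with hWy
  have hWyo : OO δ f Wy := wd_oo hδ hδ1 (OO.const hδ f 0) hyo
  have hWym := hWyo.den.mero hδ
  have hrel : ∀ᶠ z in codiscreteWithin (PB δ), W z = g z ^ (N + 1) * Wy z :=
    wd_quot hδ hgm hgz hFm
  have hWyz : ¬ ∀ᶠ w in codiscreteWithin (PB δ), Wy w = 0 := by
    intro h
    obtain ⟨w, hw, h1, h2, h3⟩ := cd_exists (PB_open δ) (PB_nonempty hδ) ((h.and hrel).and hWn
      |>.mono fun w hw => (⟨hw.1.1, hw.1.2, hw.2⟩ : _ ∧ _ ∧ _))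
    apply h3
    rw [h2, h1, mul_zero]
  have hWyn := mer_ne (PB_preconn hδ) hWym hWyz
  set κ : ℂ := -1 / ((N : ℂ) + 1) with hκ
  have hN1 : (N : ℂ) + 1 ≠ 0 := Nat.cast_add_one_ne_zero N
  set γy : ℂ → ℂ := fun z => κ * logDeriv Wy z with hγy
  have hγys : SS δ f γy := (SS.const hδ f κ).mul hδ (hWyo.logDeriv hδ hδ1 hWyz)
  have hγy1 : ∀ z0 ∈ PB δ, PoleLE 1 γy z0 := by
    intro z0 hz0
    have h1 := (PoleLE.of_an (a := fun _ : ℂ => κ) (z0 := z0) analyticAt_const 0).mul
      (PoleLE.logDeriv (hWym z0 hz0))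
    rwa [zero_add] at h1
  set γ : ℂ → ℂ := fun z => κ * logDeriv W z with hγ
  have hldWm : MeromorphicOn (logDeriv W) (PB δ) := hWm.deriv.div hWm
  have hγm : MeromorphicOn γ (PB δ) := MeromorphicOn.mul (fun x _ => MeromorphicAt.const κ x) hldWm
  obtain ⟨C, hCs, hC1, -, hCp, hCk⟩ := operators hδ hδ1 hγys hγy1
    (fun j => if h : j < N + 1 then y ⟨j, h⟩ else fun _ => 0) (fun j => by
      by_cases h : j < N + 1
      · simp only [h, dif_pos]
        exact hyo _
      · simp only [h, dif_neg, not_false_iff]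
        exact OO.const hδ f 0) (N + 1)
  -- the gauge
  have hgauge : ∀ᶠ z in codiscreteWithin (PB δ), γ z + logDeriv g z = γy z := by
    have h2 : ∀ᶠ z in codiscreteWithin (PB δ), logDeriv W z =
        ((N : ℂ) + 1) * logDeriv g z + logDeriv Wy z := by
      filter_upwards [cd_all (PB_open δ) hrel, hgn, hWyn, mer_an hgm, mer_an hWym] with z h3 h4 h5
        h6 h7
      have h8 : W =ᶠ[𝓝 z] fun z => g z ^ (N + 1) * Wy z := h3
      have h9 : logDeriv W z = logDeriv (fun z => g z ^ (N + 1) * Wy z) z := by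
        rw [logDeriv_apply, logDeriv_apply, h8.deriv_eq, h8.self_of_nhds]
      rw [h9, logDeriv_mul (f := fun z => g z ^ (N + 1)) z (pow_ne_zero _ h4) h5
        (h6.differentiableAt.fun_pow _) h7.differentiableAt, logDeriv_fun_pow h6.differentiableAt]
      push_cast
      ring
    filter_upwards [h2] with z h3
    change κ * logDeriv W z + logDeriv g z = κ * logDeriv Wy z
    rw [h3, hκ]
    field_simp
    ring
  have hrelG : ∀ j : Fin (N + 1), ∀ᶠ z in codiscreteWithin (PB δ),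
      ∑ i ∈ Finset.range (N + 1 + 1), C i z * nb γ i (F j) z = 0 := by
    intro j
    have hyj : MeromorphicOn (y j) (PB δ) := (hyo j).den.mero hδ
    have h3 : ∀ᶠ z in codiscreteWithin (PB δ), ∀ i ∈ Finset.range (N + 1 + 1),
        nb γ i (F j) z = g z * nb γy i (y j) z := by
      rw [Filter.eventually_all_finset]
      intro i _
      have h4 : ∀ᶠ z in codiscreteWithin (PB δ), F j z = g z * y j z := by
        filter_upwards [hgn] with z hz
        change F j z = g z * (F j z / g z)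
        field_simp
      filter_upwards [nb_congr (γ := γ) (γ' := γ) (Eventually.of_forall fun _ => rfl) h4 i,
        nb_gauge hδ hγm hgm hgz hyj i,
        nb_congr hgauge (u := y j) (v := y j) (Eventually.of_forall fun _ => rfl) i] with z h5 h6 h7
      rw [h5, h6, h7]
    have h5 := hCk j j.2
    simp only [j.2, dif_pos] at h5
    filter_upwards [h3, h5] with z h6 h7
    have h8 : ∑ i ∈ Finset.range (N + 1 + 1), C i z * nb γ i (F j) z =
        g z * ∑ i ∈ Finset.range (N + 1 + 1), C i z * nb γy i (y j) z := by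
      rw [Finset.mul_sum]
      refine Finset.sum_congr rfl fun i hi => ?_
      rw [h6 i hi]
      ring
    rw [h8]
    have h9 : ∑ i ∈ Finset.range (N + 1 + 1), C i z * nb γy i (y j) z = 0 := h7
    rw [h9, mul_zero]
  refine ⟨j0, ⟨w0, hw0, hj0'⟩, hWyo.congr hδ ?_, C, fun l hl => ?_, hC1, hrelG⟩
  · filter_upwards [hrel, hgn] with z h1 h2
    rw [h1]
    have h3 : g z ^ (N + 1) ≠ 0 := pow_ne_zero _ h2
    change Wy z = g z ^ (N + 1) * Wy z / g z ^ (N + 1)
    field_simp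
  -- the coefficients have few poles
  · refine mem_of_poles hδ (hCs l) hc hc0 hs (n := N + 1 - l) (fun z0 hz0 hcz => ?_)
      (fun z0 hz0 => hCp l (by omega) z0 hz0)
    have hWz : W z0 ≠ 0 := fun h => hcz (hcW z0 hz0 h)
    have hWa := hWan z0 hz0
    have hγa : AnalyticAt ℂ γ z0 := by
      have h1 : AnalyticAt ℂ (fun z => deriv W z / W z) z0 := hWa.deriv.fun_div hWa hWz
      have h2 : AnalyticAt ℂ (logDeriv W) z0 := h1
      exact analyticAt_const.fun_mul h2
    have hGa : ∀ i j, AnalyticAt ℂ (nb γ i (F j)) z0 := fun i j => nb_an hγa (han j z0 hz0) i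
    have htw := cd_ev (PB_open δ) (wd_twist hγm hFm) hz0
    have hrl : ∀ᶠ z in 𝓝[≠] z0, ∀ j : Fin (N + 1),
        ∑ i ∈ Finset.range (N + 1 + 1), C i z * nb γ i (F j) z = 0 :=
      eventually_all.2 fun j => cd_ev (PB_open δ) (hrelG j) hz0
    let l' : Fin (N + 1) := ⟨l, by omega⟩
    let num : ℂ → ℂ := fun z => Matrix.det (Matrix.of fun i j : Fin (N + 1) =>
      if j = l' then -nb γ (N + 1) (F i) z else nb γ (j : ℕ) (F i) z)
    have hnum : AnalyticAt ℂ num z0 := det_an (A := fun i j z =>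
      if j = l' then -nb γ (N + 1) (F i) z else nb γ (j : ℕ) (F i) z) fun i j => by
      by_cases h : j = l'
      · simp only [h, if_true]
        exact (hGa _ _).fun_neg
      · simp only [h, if_false]
        exact hGa _ _
    refine ⟨fun z => num z / W z, hnum.fun_div hWa hWz, ?_⟩
    filter_upwards [htw, hrl, nhdsWithin_le_nhds (hWa.continuousAt.eventually_ne hWz)] with z h1 h2
      h3
    rw [pow_zero, mul_one, eq_div_iff h3]
    let A : Matrix (Fin (N + 1)) (Fin (N + 1)) ℂ := Matrix.of fun i j => nb γ (j : ℕ) (F i) z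
    let v : Fin (N + 1) → ℂ := fun i => -nb γ (N + 1) (F i) z
    let x : Fin (N + 1) → ℂ := fun i => C (i : ℕ) z
    have h4 : A.det = W z := by
      have h5 : wd γ F z = W z := h1
      rw [← h5]
      unfold wd
      rw [← Matrix.det_transpose]
      rfl
    have h5 : A.mulVec x = v := by
      funext i
      have h6 := h2 i
      rw [Finset.sum_range_succ, hC1] at h6
      change ∑ j : Fin (N + 1), nb γ (j : ℕ) (F i) z * C (j : ℕ) z = -nb γ (N + 1) (F i) z
      rw [Fin.sum_univ_eq_sum_range (fun j => nb γ j (F i) z * C j z) (N + 1)]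
      have h7 : ∑ j ∈ Finset.range (N + 1), nb γ j (F i) z * C j z =
          ∑ j ∈ Finset.range (N + 1), C j z * nb γ j (F i) z :=
        Finset.sum_congr rfl fun _ _ => mul_comm _ _
      rw [h7]
      linear_combination h6
    have h6 : A.cramer v l' = A.det * x l' := by
      rw [← h5, Matrix.cramer_eq_adjugate_mulVec, Matrix.mulVec_mulVec, Matrix.adjugate_mul,
        Matrix.smul_mulVec, Matrix.one_mulVec]
      rfl
    have h7 : num z = A.cramer v l' := by
      rw [Matrix.cramer_apply]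
      change Matrix.det _ = Matrix.det _
      congr 1
      ext i j
      rw [Matrix.updateCol_apply]
      rfl
    rw [h7, h6, h4]
    change C l z * W z = W z * C (l' : ℕ) z
    ring

end Pool.Agent.Helper4K9.MP
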