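import Pool.Agent.Helper4K9.MP.Iter
import Pool.Agent.Helper4K9.AP.Unit

/-!
Curves with few inflection points are given by linear differential equations with small
coefficients.
-/

set_option autoImplicit false

namespace Pool.Agent.Helper4K9.MP

open MvPolynomial Metric Set Filter Topology Pool.Agent.W603.BP Pool.Agent.Helper4K9.IP
  Pool.Agent.Helper4K9.AP

variable {N n : ℕ} {δ : ℝ} {f : ℂ → Fin (N + 1) → ℂ} {g : ℂ → Fin (n + 1) → ℂ}

theorem TP_le (hδ : 0 < δ) (han : ∀ j, AnalyticOnNhd ℂ (fun w => f w j) (PB δ))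
    (hne : ∀ w ∈ PB δ, f w ≠ 0) (hgan : ∀ j, AnalyticOnNhd ℂ (fun w => g w j) (PB δ))
    (hgne : ∀ w ∈ PB δ, g w ≠ 0) {C : ℝ} (hC : 1 ≤ C) (h : ∀ w ∈ PB δ, ‖g w‖ ≤ C * ‖f w‖) {r : ℝ}
    (hr : δ⁻¹ < r) : TP g r ≤ TP f r + Real.log C := by
  have hd0 : 0 < δ⁻¹ := inv_pos.2 hδ
  have ci1 := ci_TP hδ han hne hr
  have ci2 := ci_TP hδ hgan hgne hr
  have h1 : TP g r ≤ Real.circleAverage (fun z => Real.log ‖f z⁻¹‖ + Real.log C) 0 r := by
    apply Real.circleAverage_mono ci2 (ci1.add (circleIntegrable_const _ _ _))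
    intro z hz
    obtain ⟨h5, h6⟩ := sph_ext hd0.le hr hz
    have h7 := inv_mem_PB hδ h5
    have e1 : 0 < ‖f z⁻¹‖ := norm_pos_iff.2 (hne _ h7)
    have e2 : 0 < ‖g z⁻¹‖ := norm_pos_iff.2 (hgne _ h7)
    have e3 := Real.log_le_log e2 (h _ h7)
    rw [Real.log_mul (by positivity) e1.ne'] at e3
    change Real.log ‖g z⁻¹‖ ≤ Real.log ‖f z⁻¹‖ + Real.log C
    linarith
  rw [Real.circleAverage_fun_add ci1 (circleIntegrable_const _ _ _),
    Real.circleAverage_const] at h1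
  exact h1

theorem sml_of_TP {φ : ℝ → ℝ} {C : ℝ} (hTP : ∀ᶠ r in cofin, |TP g r| ≤ |TP f r| + C)
    (h : Sml g φ) : Sml f φ := by
  intro ε hε
  obtain ⟨C1, h1⟩ := h ε hε
  refine ⟨C1 + ε * |C|, ?_⟩
  filter_upwards [hTP, h1, cofin_gt 1] with r h2 h3 h4
  have h5 : 0 ≤ Real.log r := Real.log_nonneg h4.le
  have h6 := mul_le_mul_of_nonneg_left h2 hε.le
  have h7 : ε * C ≤ ε * |C| * (1 + Real.log r) := by
    have h8 : ε * C ≤ ε * |C| := mul_le_mul_of_nonneg_left (le_abs_self _) hε.le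
    have h9 : 0 ≤ ε * |C| * Real.log r := by positivity
    linarith
  rw [mul_add] at h6
  rw [add_mul]
  linarith

theorem lin_bound {m k : ℕ} (M : Fin m → Fin k → ℂ) : ∃ C : ℝ, 1 ≤ C ∧
    ∀ (x : Fin k → ℂ) (y : Fin m → ℂ), (∀ j, y j = ∑ i, M j i * x i) → ‖y‖ ≤ C * ‖x‖ := by
  have h0 : 0 ≤ ∑ j, ∑ i, ‖M j i‖ :=
    Finset.sum_nonneg fun _ _ => Finset.sum_nonneg fun _ _ => norm_nonneg _
  refine ⟨1 + ∑ j, ∑ i, ‖M j i‖, by linarith, fun x y h => ?_⟩
  rw [pi_norm_le_iff_of_nonneg (by positivity)]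
  intro j
  rw [h j]
  have h1 : ‖∑ i, M j i * x i‖ ≤ (∑ i, ‖M j i‖) * ‖x‖ := by
    rw [Finset.sum_mul]
    refine (norm_sum_le _ _).trans (Finset.sum_le_sum fun i _ => ?_)
    rw [norm_mul]
    exact mul_le_mul_of_nonneg_left (norm_le_pi_norm x i) (norm_nonneg _)
  have h2 : ∑ i, ‖M j i‖ ≤ ∑ j, ∑ i, ‖M j i‖ :=
    Finset.single_le_sum (f := fun j => ∑ i, ‖M j i‖)
      (fun _ _ => Finset.sum_nonneg fun _ _ => norm_nonneg _) (Finset.mem_univ j)
  have h3 : 0 ≤ ‖x‖ := norm_nonneg x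
  nlinarith

theorem nb_lin {γ : ℂ → ℂ} (hγ : MeromorphicOn γ (PB δ)) {ι : Type} [Fintype ι] (a : ι → ℂ)
    (u : ι → ℂ → ℂ) (hu : ∀ j, MeromorphicOn (u j) (PB δ)) (i : ℕ) :
    ∀ᶠ z in codiscreteWithin (PB δ),
      nb γ i (fun z => ∑ j, a j * u j z) z = ∑ j, a j * nb γ i (u j) z := by
  induction i with
  | zero => exact Eventually.of_forall fun _ => rfl
  | succ i ih =>
    filter_upwards [ih, cd_deriv ih,
      eventually_all.2 fun j => mer_an (nb_mero hγ (hu j) i)] with z h1 h2 h3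
    rw [nb_succ]
    simp only
    rw [h2, h1]
    have h4 : HasDerivAt (fun z => ∑ j, a j * nb γ i (u j) z)
        (∑ j, a j * deriv (nb γ i (u j)) z) z :=
      HasDerivAt.fun_sum fun j _ => ((h3 j).differentiableAt.hasDerivAt).const_mul (a j)
    rw [h4.deriv, Finset.mul_sum, ← Finset.sum_add_distrib]
    refine Finset.sum_congr rfl fun j _ => ?_
    rw [nb_succ]
    ring

theorem oo_pow (hδ : 0 < δ) {a : ℂ → ℂ} (ha : OO δ f a) (k : ℕ) : OO δ f fun z => a z ^ k := by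
  have h1 := oo_prod hδ (Finset.range k) (fun _ => a) fun _ _ => ha
  simpa using h1

/-- **Curves with few inflection points.** -/
theorem few_iter {Q : MvPolynomial (Fin (N + 1)) ℂ} {q : ℕ} (hQ : Q.IsHomogeneous q) (hδ : 0 < δ)
    (hδ1 : δ ≤ 1) (han : ∀ j, AnalyticOnNhd ℂ (fun w => f w j) (PB δ)) (hne : ∀ w ∈ PB δ, f w ≠ 0)
    (hX : ∀ z ∈ PB δ, eval (f z) Q ≠ 0) {M1 : Fin (n + 1) → Fin (N + 1) → ℂ}
    {M2 : Fin (N + 1) → Fin (n + 1) → ℂ} (hg1 : ∀ z j, g z j = ∑ k, M1 j k * f z k)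
    (hg2 : ∀ z ∈ PB δ, ∀ k, f z k = ∑ j, M2 k j * g z j) {c : ℂ → ℂ}
    (hc : AnalyticOnNhd ℂ c (PB δ)) (hc0 : ∃ w ∈ PB δ, c w ≠ 0) (hs : Sml f (lP c))
    (hcW : ∀ z ∈ PB δ, wd (fun _ => 0) (fun j w => g w j) z = 0 → c z = 0) :
    IterCurve (PB δ) (smallMer hδ f) Q q f := by
  have hd0 : 0 < δ⁻¹ := inv_pos.2 hδ
  have hgan : ∀ j, AnalyticOnNhd ℂ (fun w => g w j) (PB δ) := by
    intro j z hz
    have h1 : (fun w => g w j) = fun w => ∑ k, M1 j k * f w k := by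
      funext w
      exact hg1 w j
    rw [h1]
    exact Finset.analyticAt_fun_sum _ fun k _ => analyticAt_const.fun_mul (han k z hz)
  have hgne : ∀ w ∈ PB δ, g w ≠ 0 := by
    intro w hw h0
    apply hne w hw
    funext k
    rw [hg2 w hw k, h0]
    simp
  obtain ⟨C1, hC1, b1⟩ := lin_bound M1
  obtain ⟨C2, hC2, b2⟩ := lin_bound M2
  have b1' : ∀ w ∈ PB δ, ‖g w‖ ≤ C1 * ‖f w‖ := fun w _ => b1 _ _ fun j => hg1 w j
  have b2' : ∀ w ∈ PB δ, ‖f w‖ ≤ C2 * ‖g w‖ := fun w hw => b2 _ _ fun j => hg2 w hw j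
  have hl1 : 0 ≤ Real.log C1 := Real.log_nonneg hC1
  have hl2 : 0 ≤ Real.log C2 := Real.log_nonneg hC2
  have ht : ∀ᶠ r in cofin, |TP g r| ≤ |TP f r| + (Real.log C1 + Real.log C2) ∧
      |TP f r| ≤ |TP g r| + (Real.log C1 + Real.log C2) := by
    filter_upwards [cofin_gt δ⁻¹] with r hr
    have e1 := TP_le hδ han hne hgan hgne hC1 b1' hr
    have e2 := TP_le hδ hgan hgne han hne hC2 b2' hr
    have e3 := le_abs_self (TP f r)
    have e4 := neg_abs_le (TP f r)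
    have e5 := le_abs_self (TP g r)
    have e6 := neg_abs_le (TP g r)
    exact ⟨abs_le.2 ⟨by linarith, by linarith⟩, abs_le.2 ⟨by linarith, by linarith⟩⟩
  have hsg : ∀ φ, Sml f φ ↔ Sml g φ := fun φ =>
    ⟨fun h => sml_of_TP (ht.mono fun r hr => hr.2) h, fun h => sml_of_TP (ht.mono fun r hr => hr.1) h⟩
  have hSM : smallMer hδ g = smallMer hδ f := by
    have h1 : Sml g = Sml f := by
      funext φ
      exact propext (hsg φ).symm
    ext a
    rw [mem_smallMer, mem_smallMer, h1]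
  rw [← hSM]
  set W : ℂ → ℂ := wd (fun _ => 0) (fun j w => g w j) with hW
  have hW0 : ∃ z ∈ PB δ, W z ≠ 0 := by
    obtain ⟨w, hw, h1⟩ := hc0
    exact ⟨w, hw, fun h => h1 (hcW w hw h)⟩
  obtain ⟨j0, hj0, hWo, C, hC, hCn, heq⟩ := coefficients hδ hδ1 hgan hgne hW0 hc hc0
    ((hsg _).1 hs) hcW
  rw [← hW] at heq hWo
  set κ : ℂ := -1 / ((n : ℂ) + 1) with hκ
  have hn1 : (n : ℂ) + 1 ≠ 0 := Nat.cast_add_one_ne_zero n
  set γ : ℂ → ℂ := fun z => κ * logDeriv W z with hγ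
  have hWan : AnalyticOnNhd ℂ W (PB δ) := fun z hz => det_an fun i j =>
    nb_an analyticAt_const (hgan j z hz) _
  have hWm := an_mer hWan
  have hWn := an_ne hδ hWan hW0
  have hγm : MeromorphicOn γ (PB δ) :=
    MeromorphicOn.mul (fun x _ => MeromorphicAt.const κ x) (hWm.deriv.div hWm)
  have hgm : ∀ j, MeromorphicOn (fun w => g w j) (PB δ) := fun j => an_mer (hgan j)
  have hfm : ∀ j, MeromorphicOn (fun w => f w j) (PB δ) := fun j => an_mer (han j)
  have hgn := an_ne hδ (hgan j0) hj0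
  have hfeq : ∀ k, ∀ᶠ z in codiscreteWithin (PB δ), ∑ i ∈ Finset.range (n + 1 + 1),
      C i z * nb γ i (fun w => f w k) z = 0 := by
    intro k
    have h1 : ∀ᶠ w in codiscreteWithin (PB δ), f w k = ∑ j, M2 k j * g w j := by
      filter_upwards [cd_self (Ω := PB δ)] with w hw
      exact hg2 w hw k
    have h2 : ∀ᶠ z in codiscreteWithin (PB δ), ∀ i ∈ Finset.range (n + 1 + 1),
        nb γ i (fun w => f w k) z = ∑ j, M2 k j * nb γ i (fun w => g w j) z := by
      rw [Filter.eventually_all_finset]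
      intro i _
      filter_upwards [nb_congr (γ := γ) (γ' := γ) (Eventually.of_forall fun _ => rfl) h1 i,
        nb_lin hγm (M2 k) (fun j w => g w j) hgm i] with z h3 h4
      rw [h3, h4]
    filter_upwards [h2, eventually_all.2 heq] with z h3 h4
    have h5 : ∑ i ∈ Finset.range (n + 1 + 1), C i z * nb γ i (fun w => f w k) z =
        ∑ j, M2 k j * ∑ i ∈ Finset.range (n + 1 + 1), C i z * nb γ i (fun w => g w j) z := by
      simp only [Finset.mul_sum]
      rw [Finset.sum_comm]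
      refine Finset.sum_congr rfl fun i hi => ?_
      rw [h3 i hi, Finset.mul_sum]
      refine Finset.sum_congr rfl fun j _ => ?_
      ring
    rw [h5]
    refine Finset.sum_eq_zero fun j _ => ?_
    have h6 : ∑ i ∈ Finset.range (n + 1 + 1), C i z * nb γ i (fun w => g w j) z = 0 := h4 j
    rw [h6, mul_zero]
  have hCl : ∀ l < n + 1, C l ∈ smallMer hδ g := fun l hl => hC l (by omega)
  have hInv : ∀ {a : ℂ → ℂ} {z : ℂ}, DifferentiableAt ℂ a z → a z ≠ 0 →
      deriv (fun z => (a z)⁻¹) z = -logDeriv a z * (a z)⁻¹ := by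
    intro a z ha h0
    rw [deriv_fun_inv'' ha h0, logDeriv_apply]
    field_simp
  refine ⟨fun hq => ?_, fun hq α hα => ?_⟩
  · -- homogeneous coordinates
    refine ⟨fun k z => (∏ t : Fin (n + 1), nb γ ((0 : Fin (n + 1)) : ℕ)
      ((Fin.cons (fun w => f w k) (fun _ => fun w => g w j0) : Fin (n + 1) → ℂ → ℂ) t) z) *
        (W z)⁻¹, fun k => ?_, ?_⟩
    · refine iter_tensor (μ := 0) hγm (φ := fun z => (W z)⁻¹) (hWm.inv)
        (u := (Fin.cons (fun w => f w k) (fun _ => fun w => g w j0) : Fin (n + 1) → ℂ → ℂ))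
        (fun t => ?_) hCl hCn (fun t => ?_) (smallMer hδ g).zero_mem ?_ (fun _ => 0)
      · refine Fin.cases ?_ (fun t => ?_) t
        · exact hfm k
        · exact hgm j0
      · refine Fin.cases ?_ (fun t => ?_) t
        · exact hfeq k
        · exact heq j0
      · filter_upwards [mer_an hWm, hWn] with z h1 h2
        rw [hInv h1.differentiableAt h2]
        change _ = (0 + ((n + 1 : ℕ) : ℂ) * (κ * logDeriv W z)) * (W z)⁻¹
        rw [hκ]
        push_cast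
        field_simp
        ring
    · filter_upwards [hWn, hgn] with z h1 h2
      refine ⟨g z j0 ^ n * (W z)⁻¹, mul_ne_zero (pow_ne_zero _ h2) (inv_ne_zero h1), fun k => ?_⟩
      rw [Fin.prod_univ_succ]
      simp only [Fin.cons_zero, Fin.cons_succ, Finset.prod_const, Finset.card_univ,
        Fintype.card_fin]
      change f z k * g z j0 ^ n * (W z)⁻¹ = g z j0 ^ n * (W z)⁻¹ * f z k
      ring
  · -- regular functions
    obtain ⟨J, hJ⟩ := mon_list α hα
    set F : ℂ → ℂ := fun z => eval (f z) Q with hF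
    have hFan : AnalyticOnNhd ℂ F (PB δ) := fun z hz =>
      (Pool.Agent.Y377.IL.ty_eval Pool.Agent.Y564.IL.t_TAY (h := fun j w => f w j)
        (fun j => han j z hz) Q).1
    have hFm := an_mer hFan
    obtain ⟨w0, hw0⟩ := PB_nonempty hδ
    have hF0 : ∃ w ∈ PB δ, F w ≠ 0 := ⟨w0, hw0, hX w0 hw0⟩
    set v : ℂ → ℂ := fun z => W z ^ q / F z ^ (n + 1) with hv
    obtain ⟨C3, hC3, hCQ⟩ := eval_bound hQ
    have hC4 : 1 ≤ C3 * C2 ^ q := by
      have := one_le_pow₀ hC2 (n := q)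
      nlinarith
    have hgF : OO δ g fun z => g z j0 ^ q / F z := by
      refine oo_quot hδ hδ1 hgan hgne (fun z hz => (hgan j0 z hz).fun_pow q) hFan hF0 (k := q) hC4
        (fun w hw => ?_) (fun w hw => ?_)
      · rw [norm_pow]
        have h1 : ‖g w j0‖ ^ q ≤ ‖g w‖ ^ q :=
          pow_le_pow_left₀ (norm_nonneg _) (norm_le_pi_norm (g w) j0) q
        have h2 : 0 ≤ ‖g w‖ ^ q := by positivity
        nlinarith
      · have h1 := hCQ (f w)
        have h2 : ‖f w‖ ^ q ≤ (C2 * ‖g w‖) ^ q := pow_le_pow_left₀ (norm_nonneg _) (b2' w hw) q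
        calc ‖F w‖ ≤ C3 * ‖f w‖ ^ q := h1
          _ ≤ C3 * (C2 * ‖g w‖) ^ q := mul_le_mul_of_nonneg_left h2 (by linarith)
          _ = C3 * C2 ^ q * ‖g w‖ ^ q := by rw [mul_pow]; ring
    have hvo : OO δ g v := by
      refine ((oo_pow hδ hWo q).mul hδ (oo_pow hδ hgF (n + 1))).congr hδ ?_
      filter_upwards [hgn, cd_self (Ω := PB δ)] with z h1 h2
      have h3 : F z ≠ 0 := hX z h2
      simp only [hv]
      rw [div_pow, div_pow, ← pow_mul, ← pow_mul, mul_comm q (n + 1)]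
      have h4 : g z j0 ^ ((n + 1) * q) ≠ 0 := pow_ne_zero _ h1
      have h5 : F z ^ (n + 1) ≠ 0 := pow_ne_zero _ h3
      field_simp
    have hvm := hvo.den.mero hδ
    have hvn : ∀ᶠ z in codiscreteWithin (PB δ), v z ≠ 0 := by
      filter_upwards [hWn, cd_self (Ω := PB δ)] with z h1 h2
      exact div_ne_zero (pow_ne_zero _ h1) (pow_ne_zero _ (hX z h2))
    have hvz : ¬ ∀ᶠ z in codiscreteWithin (PB δ), v z = 0 := by
      intro h
      obtain ⟨w, hw, h1, h2⟩ := cd_exists (PB_open δ) (PB_nonempty hδ) (h.and hvn)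
      exact h2 h1
    set μ : ℂ → ℂ := fun z => (1 / ((n : ℂ) + 1)) * logDeriv v z with hμ
    have hμs : SS δ g μ := (SS.const hδ g _).mul hδ (hvo.logDeriv hδ hδ1 hvz)
    have hμB : μ ∈ smallMer hδ g := by
      refine mem_of_poles hδ hμs hc hc0 ((hsg _).1 hs) (n := 1) (fun z0 hz0 hcz => ?_)
        (fun z0 hz0 => ?_)
      · have hWz : W z0 ≠ 0 := fun h => hcz (hcW z0 hz0 h)
        have hva : AnalyticAt ℂ v z0 := ((hWan z0 hz0).fun_pow q).fun_div
          ((hFan z0 hz0).fun_pow (n + 1)) (pow_ne_zero _ (hX z0 hz0))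
        have hv0 : v z0 ≠ 0 := div_ne_zero (pow_ne_zero _ hWz) (pow_ne_zero _ (hX z0 hz0))
        have h1 : AnalyticAt ℂ (fun z => deriv v z / v z) z0 := hva.deriv.fun_div hva hv0
        have h2 : AnalyticAt ℂ (logDeriv v) z0 := h1
        exact PoleLE.of_an (analyticAt_const.fun_mul h2) 0
      · have h1 := (PoleLE.of_an (a := fun _ : ℂ => 1 / ((n : ℂ) + 1)) (z0 := z0)
          analyticAt_const 0).mul (PoleLE.logDeriv (hvm z0 hz0))
        rwa [zero_add] at h1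
    have hreg : regV Q α f = fun z => (∏ t : Fin q, nb γ ((0 : Fin (n + 1)) : ℕ)
        (fun w => f w (J t)) z) * (F z)⁻¹ := by
      funext z
      change (∏ j, f z j ^ α j) / eval (f z) Q = (∏ t : Fin q, f z (J t)) * (F z)⁻¹
      rw [hJ (f z), div_eq_mul_inv]
    rw [hreg]
    refine iter_tensor hγm (φ := fun z => (F z)⁻¹) hFm.inv (u := fun t w => f w (J t))
      (fun t => hfm (J t)) hCl hCn (fun t => hfeq (J t)) hμB ?_ (fun _ => 0)
    filter_upwards [mer_an hWm, hWn, mer_an hFm, cd_self (Ω := PB δ)] with z h1 h2 h3 h4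
    have h5 : F z ≠ 0 := hX z h4
    rw [hInv h3.differentiableAt h5]
    have h6 : logDeriv v z = q * logDeriv W z - (n + 1 : ℕ) * logDeriv F z := by
      rw [hv, logDeriv_div (f := fun z => W z ^ q) (g := fun z => F z ^ (n + 1)) z
        (pow_ne_zero _ h2) (pow_ne_zero _ h5) (h1.differentiableAt.fun_pow _)
        (h3.differentiableAt.fun_pow _), logDeriv_fun_pow h1.differentiableAt,
        logDeriv_fun_pow h3.differentiableAt]
    change _ = ((1 / ((n : ℂ) + 1)) * logDeriv v z + (q : ℂ) * (κ * logDeriv W z)) * (F z)⁻¹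
    rw [h6, hκ]
    push_cast
    field_simp
    ring

end Pool.Agent.Helper4K9.MP
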