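import Pool.Agent.Helper4K9.AP.Ldl

/-!
The lemma on the logarithmic derivative for quotients of entire functions.
-/

set_option autoImplicit false

namespace Pool.Agent.Helper4K9.MP

open Metric Set Filter Topology MeromorphicOn
open Pool.Agent.H159R3.NV (L mero_of_diff ci_log jensen_entire T2 T2_mono avg_abs_log L_mono
  quot_mero avg_abs_quot T2_ge_L T2_ge_L0)
open Pool.Agent.Helper160.Nev (zp zp_finite exists_const avg_log_sum)
open Pool.Agent.Helper4K9.AP

theorem ord_ne_top {G : ℂ → ℂ} (hG : Differentiable ℂ G) (h0 : G 0 ≠ 0) (u : ℂ) :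
    meromorphicOrderAt G u ≠ ⊤ := by
  rw [meromorphicOrderAt_ne_top_iff_eventually_ne_zero (mero_of_diff hG u)]
  have h1 : AnalyticOnNhd ℂ G univ := fun z _ => hG.analyticAt z
  rcases h1.eqOn_zero_or_eventually_ne_zero_of_preconnected isPreconnected_univ with h | h
  · exact absurd (h (mem_univ 0)) h0
  · have h2 := (mem_codiscreteWithin_iff_forall_mem_nhdsNE.1 h) u (mem_univ u)
    filter_upwards [h2] with z hz
    rcases hz with hz | hz
    · exact hz
    · exact absurd (mem_univ z) hz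

theorem good_radius2 {G0 G1 : ℂ → ℂ} (h0 : Differentiable ℂ G0) (h1 : Differentiable ℂ G1)
    (o0 : ∀ u, meromorphicOrderAt G0 u ≠ ⊤) (o1 : ∀ u, meromorphicOrderAt G1 u ≠ ⊤)
    {r1 r2 : ℝ} (h12 : r1 < r2) :
    ∃ R ∈ Ioo r1 r2, ∀ u ∈ sphere (0:ℂ) R, meromorphicOrderAt G0 u = 0 ∧
      meromorphicOrderAt G1 u = 0 := by
  have m0 : MeromorphicOn G0 (closedBall 0 r2) := fun z _ => mero_of_diff h0 z
  have m1 : MeromorphicOn G1 (closedBall 0 r2) := fun z _ => mero_of_diff h1 z
  have hfin : (norm '' (zp G0 r2) ∪ norm '' (zp G1 r2)).Finite :=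
    ((zp_finite m0).image _).union ((zp_finite m1).image _)
  obtain ⟨R, hR1, hR2⟩ := (Set.Ioo_infinite h12).exists_notMem_finite hfin
  refine ⟨R, hR1, ?_⟩
  intro u hu
  rw [mem_sphere_zero_iff_norm] at hu
  have key : ∀ G : ℂ → ℂ, meromorphicOrderAt G u ≠ ⊤ → R ∉ norm '' (zp G r2) →
      meromorphicOrderAt G u = 0 := by
    intro G hG hRG
    by_contra hne
    apply hRG
    refine ⟨u, ⟨?_, ?_⟩, hu⟩
    · rw [mem_closedBall_zero_iff, hu]
      exact hR1.2.le
    · obtain ⟨n, hn⟩ := WithTop.ne_top_iff_exists.1 hG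
      intro h4
      apply hne
      rw [← hn] at h4 ⊢
      simp only [WithTop.untop₀_coe] at h4
      rw [h4]
      rfl
  exact ⟨key G0 (o0 u) fun h => hR2 (Or.inl h), key G1 (o1 u) fun h => hR2 (Or.inr h)⟩

/-- number of the zeros and poles -/
theorem div_le {G0 G1 : ℂ → ℂ} {R : ℝ} (m0 : MeromorphicOn G0 (closedBall 0 R))
    (m1 : MeromorphicOn G1 (closedBall 0 R)) (o0 : ∀ u, meromorphicOrderAt G0 u ≠ ⊤)
    (o1 : ∀ u, meromorphicOrderAt G1 u ≠ ⊤)
    (mg : MeromorphicOn (fun z => G1 z / G0 z) (closedBall 0 R)) :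
    (∑ u ∈ (divisor_ball_support_finite mg).toFinset,
      |(divisor (fun z => G1 z / G0 z) (ball 0 R) u : ℝ)|) ≤
    (∑ u ∈ (divisor_ball_support_finite m0).toFinset, |(divisor G0 (ball 0 R) u : ℝ)|) +
      ∑ u ∈ (divisor_ball_support_finite m1).toFinset, |(divisor G1 (ball 0 R) u : ℝ)| := by
  classical
  set S0 := (divisor_ball_support_finite m0).toFinset with hS0
  set S1 := (divisor_ball_support_finite m1).toFinset with hS1
  set Sg := (divisor_ball_support_finite mg).toFinset with hSg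
  have b0 : MeromorphicOn G0 (ball 0 R) := m0.mono_set ball_subset_closedBall
  have b1 : MeromorphicOn G1 (ball 0 R) := m1.mono_set ball_subset_closedBall
  have e1 : divisor (fun z => G1 z / G0 z) (ball 0 R) =
      divisor G1 (ball 0 R) - divisor G0 (ball 0 R) := by
    have h1 : (fun z => G1 z / G0 z) = G1 * G0⁻¹ := by
      funext z
      rw [Pi.mul_apply, Pi.inv_apply, div_eq_mul_inv]
    rw [h1, divisor_mul b1 b0.inv (fun z _ => o1 z) (fun z _ => by
      rw [meromorphicOrderAt_inv]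
      intro h2
      apply o0 z
      cases h3 : meromorphicOrderAt G0 z with
      | top => rfl
      | coe n =>
        rw [h3] at h2
        exact absurd h2 (by exact WithTop.coe_ne_top)), divisor_inv, sub_eq_add_neg]
  have e2 : ∀ u, |(divisor (fun z => G1 z / G0 z) (ball 0 R) u : ℝ)| ≤
      |(divisor G0 (ball 0 R) u : ℝ)| + |(divisor G1 (ball 0 R) u : ℝ)| := by
    intro u
    rw [e1]
    change |(((divisor G1 (ball 0 R) u - divisor G0 (ball 0 R) u : ℤ)) : ℝ)| ≤ _
    push_cast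
    rw [add_comm]
    exact abs_sub _ _
  calc ∑ u ∈ Sg, |(divisor (fun z => G1 z / G0 z) (ball 0 R) u : ℝ)|
      ≤ ∑ u ∈ Sg ∪ (S0 ∪ S1), |(divisor (fun z => G1 z / G0 z) (ball 0 R) u : ℝ)| :=
        Finset.sum_le_sum_of_subset_of_nonneg Finset.subset_union_left fun _ _ _ => abs_nonneg _
    _ ≤ ∑ u ∈ Sg ∪ (S0 ∪ S1), (|(divisor G0 (ball 0 R) u : ℝ)| +
          |(divisor G1 (ball 0 R) u : ℝ)|) := Finset.sum_le_sum fun u _ => e2 u
    _ = (∑ u ∈ S0, |(divisor G0 (ball 0 R) u : ℝ)|) +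
          ∑ u ∈ S1, |(divisor G1 (ball 0 R) u : ℝ)| := by
        rw [Finset.sum_add_distrib]
        congr 1
        · symm
          apply Finset.sum_subset
          · intro u hu
            exact Finset.mem_union_right _ (Finset.mem_union_left _ hu)
          · intro u _ hu
            have : (divisor G0 (ball 0 R)) u = 0 := by
              by_contra h
              exact hu ((Set.Finite.mem_toFinset _).2 h)
            rw [this]
            simp
        · symm
          apply Finset.sum_subset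
          · intro u hu
            exact Finset.mem_union_right _ (Finset.mem_union_right _ hu)
          · intro u _ hu
            have : (divisor G1 (ball 0 R)) u = 0 := by
              by_contra h
              exact hu ((Set.Finite.mem_toFinset _).2 h)
            rw [this]
            simp

/-- **Lemma on the logarithmic derivative** -/
theorem ldl2 {G0 G1 : ℂ → ℂ} (h0 : Differentiable ℂ G0) (h1 : Differentiable ℂ G1)
    (n0 : G0 0 ≠ 0) (n1 : G1 0 ≠ 0) {ε : ℝ} (hε : 0 < ε) :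
    ∃ C : ℝ, 0 ≤ C ∧ ∀ᶠ r in cofin,
      Real.circleAverage (fun z => Real.posLog ‖logDeriv (fun z => G1 z / G0 z) z‖) 0 r ≤
        ε * T2 G0 G1 r + C * (1 + Real.log r) := by
  obtain ⟨C0, hC0, hC⟩ := exists_const (α := 1 / 2) (by norm_num) (by norm_num)
  set c0 : ℝ := |Real.log ‖G0 0‖| + |Real.log ‖G1 0‖| with hc0
  have hc0n : 0 ≤ c0 := by positivity
  have a0 : |Real.log ‖G0 0‖| ≤ c0 := by
    rw [hc0]
    linarith [abs_nonneg (Real.log ‖G1 0‖)]
  have a1 : |Real.log ‖G1 0‖| ≤ c0 := by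
    rw [hc0]
    linarith [abs_nonneg (Real.log ‖G0 0‖)]
  have o0 := ord_ne_top h0 n0
  have o1 := ord_ne_top h1 n1
  set g : ℂ → ℂ := fun z => G1 z / G0 z with hg
  have mg : Meromorphic g := quot_mero h0 h1
  have og : ∀ u, meromorphicOrderAt g u = meromorphicOrderAt G1 u - meromorphicOrderAt G0 u := by
    intro u
    have h2 : g = G1 / G0 := by
      funext z
      rfl
    rw [h2, meromorphicOrderAt_div (mero_of_diff h1 u) (mero_of_diff h0 u)]
  have ogt : ∀ u, meromorphicOrderAt g u ≠ ⊤ := by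
    intro u
    rw [og u]
    obtain ⟨a, ha⟩ := WithTop.ne_top_iff_exists.1 (o0 u)
    obtain ⟨b, hb⟩ := WithTop.ne_top_iff_exists.1 (o1 u)
    rw [← ha, ← hb]
    exact WithTop.coe_ne_top
  set K : ℝ := 2 + 6 * (4 + c0) + 12 * C0 * (2 + c0) with hK
  have hK1 : 1 ≤ K := by
    have : 0 ≤ 12 * C0 * (2 + c0) := by positivity
    linarith
  let φ : ℝ → ℝ := fun r => 1 + c0 + T2 G0 G1 r
  have hφm : MonotoneOn φ (Ici 1) := by
    intro a ha b _ hab
    have : (0:ℝ) < a := zero_lt_one.trans_le ha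
    exact add_le_add le_rfl (T2_mono h0 n0 h1 this hab)
  have hT2 : ∀ r, 0 < r → -c0 ≤ T2 G0 G1 r := by
    intro r hr
    have h2 := T2_ge_L0 G0 G1 r
    have h3 := jensen_entire hr h0 n0
    have h4 := neg_abs_le (Real.log ‖G0 0‖)
    linarith
  have hφ1 : ∀ r, 1 ≤ r → 1 ≤ φ r := fun r hr => by
    have := hT2 r (by linarith)
    change 1 ≤ 1 + c0 + T2 G0 G1 r
    linarith
  have hl2 : 0 ≤ Real.log 2 := Real.log_nonneg (by norm_num)
  set l4 : ℝ := |Real.log (4 / ε)| + ε * (1 + c0) with hl4d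
  have hl4 : 0 ≤ l4 := by positivity
  refine ⟨2 * Real.log K + 4 * l4 + 2 * Real.log 2 + 2, by
    have := Real.log_nonneg hK1
    positivity, ?_⟩
  filter_upwards [borel hφm hφ1, cofin_gt 1] with r hr hr1
  set P : ℝ := φ r with hP
  have hP1 : 1 ≤ P := hφ1 r hr1.le
  have hP0 : 0 < P := by linarith
  set d : ℝ := P⁻¹ with hd
  have hd0 : 0 < d := inv_pos.2 hP0
  have hd1 : d ≤ 1 := inv_le_one_of_one_le₀ hP1
  have hdP : d * P = 1 := inv_mul_cancel₀ hP0.ne'
  obtain ⟨R, ⟨hRa, hRb⟩, hRgood⟩ := good_radius2 h0 h1 o0 o1 (r1 := r + d / 3)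
    (r2 := r + 2 * d / 3) (by linarith)
  have hR0 : 0 < R := by linarith
  have hrR : r < R := by linarith
  have hRR' : R < r + d := by linarith
  have hm0 : MeromorphicOn G0 (closedBall 0 R) := fun z _ => mero_of_diff h0 z
  have hm1 : MeromorphicOn G1 (closedBall 0 R) := fun z _ => mero_of_diff h1 z
  have hmg : MeromorphicOn g (closedBall 0 R) := fun z _ => mg z
  have hmain := avg_log_sum ({()} : Finset Unit) (fun _ => g) (r := r) (R := R) (α := 1 / 2)
    (C := C0) (by linarith) hrR (by norm_num) (by norm_num) (fun _ => hmg)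
    (fun _ _ u _ => ogt u) (fun _ _ u hu => by
      rw [og u, (hRgood u hu).1, (hRgood u hu).2]
      rfl) hC0 (hC r (by linarith))
  simp only [Finset.sum_singleton] at hmain
  refine hmain.trans ?_
  -- the bounds
  have hmR' : T2 G0 G1 (r + d) ≤ 2 * P - 1 - c0 := by
    have h2 : 1 + c0 + T2 G0 G1 (r + d) ≤ 2 * P := hr
    linarith
  have b1 : 2 * R / (R ^ 2 - r ^ 2) ≤ 6 * P := by
    have h2 : d / 3 ≤ R - r := by linarith
    have h3 : 0 < R ^ 2 - r ^ 2 := by nlinarith
    rw [div_le_iff₀ h3]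
    have h4 : R ^ 2 - r ^ 2 = (R - r) * (R + r) := by ring
    rw [h4]
    have h5 : 1 / 3 ≤ P * (R - r) := by
      calc (1 : ℝ) / 3 = P * (d / 3) := by rw [← hdP]; ring
        _ ≤ P * (R - r) := mul_le_mul_of_nonneg_left h2 hP0.le
    have h6 : 0 < R + r := by linarith
    nlinarith [mul_le_mul_of_nonneg_right h5 h6.le]
  have b2 : Real.circleAverage (fun ζ => |Real.log ‖g ζ‖|) 0 R ≤ 4 * P + c0 := by
    rw [hg, avg_abs_quot h0 h1 n0 n1 hR0.ne']
    have h2 := jensen_entire hR0 h0 n0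
    have h2' := jensen_entire hR0 h1 n1
    have h3 : T2 G0 G1 R ≤ T2 G0 G1 (r + d) := T2_mono h0 n0 h1 hR0 hRR'.le
    have h4 := neg_abs_le (Real.log ‖G0 0‖)
    have h4' := neg_abs_le (Real.log ‖G1 0‖)
    linarith
  have b2' : 0 ≤ Real.circleAverage (fun ζ => |Real.log ‖g ζ‖|) 0 R :=
    Real.circleAverage_nonneg_of_nonneg fun _ _ => abs_nonneg _
  set Z : ℝ := ∑ u ∈ (divisor_ball_support_finite hmg).toFinset, |(divisor g (ball 0 R) u : ℝ)|
    with hZ
  have hZ0 : 0 ≤ Z := Finset.sum_nonneg fun _ _ => abs_nonneg _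
  have hlogb : d / (3 * (r + 1)) ≤ Real.log ((r + d) / R) := by
    have h5 := Real.one_sub_inv_le_log_of_pos (x := (r + d) / R) (by positivity)
    refine le_trans ?_ h5
    rw [inv_div]
    have h6 : (1 : ℝ) - R / (r + d) = (r + d - R) / (r + d) := by
      field_simp
    rw [h6, div_le_div_iff₀ (by positivity) (by positivity)]
    have h7 : d / 3 ≤ r + d - R := by linarith
    have h8 : r + d ≤ r + 1 := by linarith
    calc d * (r + d) ≤ d * (r + 1) := by gcongr
      _ = (d / 3) * (3 * (r + 1)) := by ring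
      _ ≤ (r + d - R) * (3 * (r + 1)) := by gcongr
  have hz : ∀ Y : ℝ, 0 ≤ Y → Y * Real.log ((r + d) / R) ≤ 2 * P + c0 →
      Y ≤ (2 * P + c0) * (3 * (r + 1) * P) := by
    intro Y hY hYl
    have h9 : Y * (d / (3 * (r + 1))) ≤ 2 * P + c0 :=
      (mul_le_mul_of_nonneg_left hlogb hY).trans hYl
    have h10 : Y = Y * (d / (3 * (r + 1))) * (3 * (r + 1) * P) := by
      have h11 : (3 * (r + 1)) ≠ 0 := by positivity
      field_simp
      rw [mul_assoc, hdP, mul_one]
    rw [h10]
    apply mul_le_mul_of_nonneg_right h9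
    positivity
  have b3 : Z ≤ 2 * ((2 * P + c0) * (3 * (r + 1) * P)) := by
    have h2 := zeros_le h0 n0 (R := R) (R' := r + d) (by linarith) hRR' hm0
    have h2' := zeros_le h1 n1 (R := R) (R' := r + d) (by linarith) hRR' hm1
    have h3 : L G0 (r + d) - Real.log ‖G0 0‖ ≤ 2 * P + c0 := by
      have h4 := T2_ge_L0 G0 G1 (r + d)
      have h5 := neg_abs_le (Real.log ‖G0 0‖)
      linarith
    have h3' : L G1 (r + d) - Real.log ‖G1 0‖ ≤ 2 * P + c0 := by
      have h4 := T2_ge_L h0 h1 n0 n1 (R := r + d) (by linarith)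
      have h5 := neg_abs_le (Real.log ‖G1 0‖)
      linarith
    have h6 := hz _ (Finset.sum_nonneg fun _ _ => abs_nonneg _) (h2.trans h3)
    have h6' := hz _ (Finset.sum_nonneg fun _ _ => abs_nonneg _) (h2'.trans h3')
    have h7 := div_le hm0 hm1 o0 o1 hmg
    linarith
  have hin : 1 + (1 + 2 * R / (R ^ 2 - r ^ 2) * Real.circleAverage (fun ζ => |Real.log ‖g ζ‖|) 0 R +
      ∑ u ∈ (divisor_ball_support_finite hmg).toFinset,
        |(divisor g (ball 0 R) u : ℝ)| * (2 * C0)) ≤ K * (P ^ 2 * (r + 1)) := by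
    rw [← Finset.sum_mul, ← hZ]
    have h2 : 2 * R / (R ^ 2 - r ^ 2) * Real.circleAverage (fun ζ => |Real.log ‖g ζ‖|) 0 R ≤
        (6 * P) * (4 * P + c0) := mul_le_mul b1 b2 b2' (by positivity)
    have h3 : Z * (2 * C0) ≤ (2 * ((2 * P + c0) * (3 * (r + 1) * P))) * (2 * C0) :=
      mul_le_mul_of_nonneg_right b3 (by positivity)
    have h4 : 1 ≤ P ^ 2 := one_le_pow₀ hP1
    have h5 : 1 ≤ P ^ 2 * (r + 1) := by nlinarith
    have h6 : P * (4 * P + c0) ≤ (4 + c0) * (P ^ 2 * (r + 1)) := by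
      have h7 : P * (4 * P + c0) ≤ (4 + c0) * P ^ 2 := by
        nlinarith [mul_nonneg (mul_nonneg hc0n hP0.le) (sub_nonneg.2 hP1)]
      have h8 : P ^ 2 ≤ P ^ 2 * (r + 1) := by nlinarith
      calc P * (4 * P + c0) ≤ (4 + c0) * P ^ 2 := h7
        _ ≤ _ := mul_le_mul_of_nonneg_left h8 (by positivity)
    have h7 : (2 * P + c0) * P ≤ (2 + c0) * P ^ 2 := by
      nlinarith [mul_nonneg (mul_nonneg hc0n hP0.le) (sub_nonneg.2 hP1)]
    have h8 : (2 * ((2 * P + c0) * (3 * (r + 1) * P))) * (2 * C0) ≤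
        12 * C0 * (2 + c0) * (P ^ 2 * (r + 1)) := by
      calc (2 * ((2 * P + c0) * (3 * (r + 1) * P))) * (2 * C0) =
          (12 * C0 * (r + 1)) * ((2 * P + c0) * P) := by ring
        _ ≤ (12 * C0 * (r + 1)) * ((2 + c0) * P ^ 2) := by gcongr
        _ = _ := by ring
    have h9 : 2 * R / (R ^ 2 - r ^ 2) * Real.circleAverage (fun ζ => |Real.log ‖g ζ‖|) 0 R ≤
        6 * ((4 + c0) * (P ^ 2 * (r + 1))) := by
      have h10 : (6 * P) * (4 * P + c0) = 6 * (P * (4 * P + c0)) := by ring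
      rw [h10] at h2
      linarith
    have h10 : K * (P ^ 2 * (r + 1)) = 2 * (P ^ 2 * (r + 1)) + 6 * ((4 + c0) * (P ^ 2 * (r + 1))) +
        12 * C0 * (2 + c0) * (P ^ 2 * (r + 1)) := by
      rw [hK]
      ring
    rw [h10]
    linarith
  have hpos : 0 < 1 + (1 + 2 * R / (R ^ 2 - r ^ 2) *
      Real.circleAverage (fun ζ => |Real.log ‖g ζ‖|) 0 R +
      ∑ u ∈ (divisor_ball_support_finite hmg).toFinset,
        |(divisor g (ball 0 R) u : ℝ)| * (2 * C0)) := by
    have h3 : 0 < R ^ 2 - r ^ 2 := by nlinarith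
    have h4 : 0 ≤ 2 * R / (R ^ 2 - r ^ 2) * Real.circleAverage (fun ζ => |Real.log ‖g ζ‖|) 0 R :=
      mul_nonneg (by positivity) b2'
    have h5 : 0 ≤ ∑ u ∈ (divisor_ball_support_finite hmg).toFinset,
        |(divisor g (ball 0 R) u : ℝ)| * (2 * C0) :=
      Finset.sum_nonneg fun _ _ => by positivity
    linarith
  have h2 := Real.log_le_log hpos hin
  have h3 : Real.log (K * (P ^ 2 * (r + 1))) = Real.log K + (2 * Real.log P + Real.log (r + 1)) := by
    rw [Real.log_mul (by positivity) (by positivity), Real.log_mul (by positivity) (by positivity),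
      Real.log_pow]
    push_cast
    ring
  have h4 : Real.log P ≤ ε * P / 4 + l4 - ε * (1 + c0) - 1 := by
    have h5 := Real.log_le_sub_one_of_pos (x := P / (4 / ε)) (by positivity)
    rw [Real.log_div hP0.ne' (by positivity)] at h5
    have h6 : P / (4 / ε) = ε * P / 4 := by
      field_simp
    rw [h6] at h5
    have h7 := le_abs_self (Real.log (4 / ε))
    linarith
  have h5 : Real.log (r + 1) ≤ Real.log 2 + Real.log r := by
    rw [← Real.log_mul (by norm_num) (by positivity)]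
    exact Real.log_le_log (by positivity) (by linarith)
  have h6 : 0 ≤ Real.log r := Real.log_nonneg hr1.le
  have h7 := Real.log_nonneg hK1
  have h8 : P = 1 + c0 + T2 G0 G1 r := rfl
  have h9 : (0 : ℝ) ≤ (2 * Real.log K + 4 * l4 + 2 * Real.log 2) * Real.log r := by
    positivity
  have h12 : ε * P = ε * (1 + c0) + ε * T2 G0 G1 r := by rw [h8]; ring
  have h13 : 0 ≤ ε * (1 + c0) := by positivity
  rw [h3] at h2
  have h10 : (1 : ℝ) / (1 / 2) = 2 := by norm_num
  rw [h10]
  have h11 : (2 * Real.log K + 4 * l4 + 2 * Real.log 2 + 2) * (1 + Real.log r) =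
      (2 * Real.log K + 4 * l4 + 2 * Real.log 2) + 2 +
      (2 * Real.log K + 4 * l4 + 2 * Real.log 2) * Real.log r + 2 * Real.log r := by ring
  rw [h11]
  linarith

end Pool.Agent.Helper4K9.MP
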