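import Pool.Agent.Helper4K9.AP.Sup
import Pool.Agent.Helper4K9.MP.Ldl2

/-!
Growth of meromorphic functions near a puncture.
-/

set_option autoImplicit false

namespace Pool.Agent.Helper4K9.MP

open Metric Set Filter Topology Pool.Agent.W603.BP Pool.Agent.Helper4K9.IP Pool.Agent.Helper4K9.AP
open Pool.Agent.H159R3.NV (L mero_of_diff ci_log jensen_entire avg_le_cod ci_abs T2 T2_mono
  T2_ge_L T2_ge_L0 quot_mero)

variable {N : ℕ} {δ : ℝ}

/-- transfer to circles -/
theorem cd_circle (hδ : 0 < δ) {p : ℂ → Prop} (h : ∀ᶠ w in codiscreteWithin (PB δ), p w) {r : ℝ}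
    (hr : δ⁻¹ < r) : ∀ᶠ z in codiscreteWithin (sphere (0 : ℂ) |r|), p z⁻¹ := by
  have hd0 : 0 < δ⁻¹ := inv_pos.2 hδ
  have h1 : ∀ᶠ z in codiscreteWithin (Ext δ⁻¹), p z⁻¹ := by
    refine cd_of_ev fun x hx => ?_
    have hx0 : x ≠ 0 := ext_ne_zero hd0.le hx
    have h1 := cd_ev (PB_open δ) h (inv_mem_PB hδ hx)
    have h2 : Tendsto (fun w : ℂ => w⁻¹) (𝓝[≠] x) (𝓝[≠] x⁻¹) := by
      apply tendsto_nhdsWithin_of_tendsto_nhds_of_eventually_within
      · exact (continuousAt_inv₀ hx0).tendsto.mono_left nhdsWithin_le_nhds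
      · filter_upwards [self_mem_nhdsWithin] with z hz h3
        exact hz (inv_injective h3)
    exact h2.eventually h1
  refine codiscreteWithin_mono (fun z hz => ?_) h1
  exact (sph_ext hd0.le hr hz).1

theorem mer_sphere (hδ : 0 < δ) {a : ℂ → ℂ} (ha : MeromorphicOn a (PB δ)) {r : ℝ} (hr : δ⁻¹ < r) :
    MeromorphicOn (fun z => a z⁻¹) (sphere (0 : ℂ) |r|) := by
  intro z hz
  have hd0 : 0 < δ⁻¹ := inv_pos.2 hδ
  have h1 := (sph_ext hd0.le hr hz).1
  exact (ha z⁻¹ (inv_mem_PB hδ h1)).comp_analyticAt (analyticAt_inv (ext_ne_zero hd0.le h1))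

theorem ci_mPm (hδ : 0 < δ) {a : ℂ → ℂ} (ha : MeromorphicOn a (PB δ)) {r : ℝ} (hr : δ⁻¹ < r) :
    CircleIntegrable (fun z => Real.posLog ‖a z⁻¹‖) 0 r :=
  MeromorphicOn.circleIntegrable_posLog_norm (mer_sphere hδ ha hr)

theorem ci_lPm (hδ : 0 < δ) {a : ℂ → ℂ} (ha : MeromorphicOn a (PB δ)) {r : ℝ} (hr : δ⁻¹ < r) :
    CircleIntegrable (fun z => Real.log ‖a z⁻¹‖) 0 r :=
  MeromorphicOn.circleIntegrable_log_norm (mer_sphere hδ ha hr)

/-- mean of `log ‖c‖` on the circle of radius `1 / r` -/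
noncomputable def lP (c : ℂ → ℂ) (r : ℝ) : ℝ :=
  Real.circleAverage (fun z => Real.log ‖c z⁻¹‖) 0 r

theorem mP_congr (hδ : 0 < δ) {a b : ℂ → ℂ} (h : ∀ᶠ w in codiscreteWithin (PB δ), a w = b w)
    {r : ℝ} (hr : δ⁻¹ < r) : mP a r = mP b r := by
  have hr0 : 0 < r := (inv_pos.2 hδ).trans hr
  unfold mP
  apply Real.circleAverage_congr_codiscreteWithin _ hr0.ne'
  filter_upwards [cd_circle hδ h hr] with z hz
  rw [hz]

theorem mP_addm (hδ : 0 < δ) {a b : ℂ → ℂ} (ha : MeromorphicOn a (PB δ))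
    (hb : MeromorphicOn b (PB δ)) {r : ℝ} (hr : δ⁻¹ < r) :
    mP (fun w => a w + b w) r ≤ mP a r + mP b r + Real.log 2 := by
  have i1 := ci_mPm hδ ha hr
  have i2 := ci_mPm hδ hb hr
  have i3 : CircleIntegrable (fun z => Real.posLog ‖a z⁻¹‖ + Real.posLog ‖b z⁻¹‖) 0 r := i1.add i2
  have i4 := ci_mPm hδ (a := fun w => a w + b w) (ha.add hb) hr
  have h1 : mP (fun w => a w + b w) r ≤ Real.circleAverage
      (fun z => (Real.posLog ‖a z⁻¹‖ + Real.posLog ‖b z⁻¹‖) + Real.log 2) 0 r := by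
    apply Real.circleAverage_mono i4 (i3.add (circleIntegrable_const _ _ _))
    intro z _
    change _ ≤ (Real.posLog ‖a z⁻¹‖ + Real.posLog ‖b z⁻¹‖) + Real.log 2
    exact Real.posLog_norm_add_le _ _
  rw [Real.circleAverage_fun_add i3 (circleIntegrable_const _ _ _), Real.circleAverage_const,
    Real.circleAverage_fun_add i1 i2] at h1
  exact h1

theorem mP_mulm (hδ : 0 < δ) {a b : ℂ → ℂ} (ha : MeromorphicOn a (PB δ))
    (hb : MeromorphicOn b (PB δ)) {r : ℝ} (hr : δ⁻¹ < r) :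
    mP (fun w => a w * b w) r ≤ mP a r + mP b r := by
  have i1 := ci_mPm hδ ha hr
  have i2 := ci_mPm hδ hb hr
  have i4 := ci_mPm hδ (a := fun w => a w * b w) (ha.mul hb) hr
  have h1 : mP (fun w => a w * b w) r ≤ Real.circleAverage
      (fun z => Real.posLog ‖a z⁻¹‖ + Real.posLog ‖b z⁻¹‖) 0 r := by
    apply Real.circleAverage_mono i4 (i1.add i2)
    intro z _
    change _ ≤ Real.posLog ‖a z⁻¹‖ + Real.posLog ‖b z⁻¹‖
    rw [norm_mul]
    exact Real.posLog_mul
  rw [Real.circleAverage_fun_add i1 i2] at h1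
  exact h1

theorem lP_mul (hδ : 0 < δ) {a b : ℂ → ℂ} (ha : MeromorphicOn a (PB δ))
    (hb : MeromorphicOn b (PB δ)) (ha0 : ∀ᶠ w in codiscreteWithin (PB δ), a w ≠ 0)
    (hb0 : ∀ᶠ w in codiscreteWithin (PB δ), b w ≠ 0) {r : ℝ} (hr : δ⁻¹ < r) :
    lP (fun w => a w * b w) r = lP a r + lP b r := by
  have hr0 : 0 < r := (inv_pos.2 hδ).trans hr
  unfold lP
  rw [← Real.circleAverage_fun_add (ci_lPm hδ ha hr) (ci_lPm hδ hb hr)]
  apply Real.circleAverage_congr_codiscreteWithin _ hr0.ne'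
  filter_upwards [cd_circle hδ ha0 hr, cd_circle hδ hb0 hr] with z h1 h2
  rw [norm_mul, Real.log_mul (norm_ne_zero_iff.2 h1) (norm_ne_zero_iff.2 h2)]

theorem lP_congr (hδ : 0 < δ) {a b : ℂ → ℂ} (h : ∀ᶠ w in codiscreteWithin (PB δ), a w = b w)
    {r : ℝ} (hr : δ⁻¹ < r) : lP a r = lP b r := by
  have hr0 : 0 < r := (inv_pos.2 hδ).trans hr
  unfold lP
  apply Real.circleAverage_congr_codiscreteWithin _ hr0.ne'
  filter_upwards [cd_circle hδ h hr] with z hz
  rw [hz]

theorem lP_le_mP (hδ : 0 < δ) {a : ℂ → ℂ} (ha : MeromorphicOn a (PB δ)) {r : ℝ} (hr : δ⁻¹ < r) :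
    lP a r ≤ mP a r :=
  Real.circleAverage_mono (ci_lPm hδ ha hr) (ci_mPm hδ ha hr) fun _ _ =>
    Pool.Agent.H159R3.NV.log_le_posLog _

theorem an_mer {c : ℂ → ℂ} (hc : AnalyticOnNhd ℂ c (PB δ)) : MeromorphicOn c (PB δ) :=
  fun z hz => (hc z hz).meromorphicAt

theorem an_ne (hδ : 0 < δ) {c : ℂ → ℂ} (hc : AnalyticOnNhd ℂ c (PB δ))
    (hne : ∃ w ∈ PB δ, c w ≠ 0) : ∀ᶠ w in codiscreteWithin (PB δ), c w ≠ 0 := by
  apply mer_ne (PB_preconn hδ) (an_mer hc)
  intro h0
  obtain ⟨w, hw, hw2⟩ := hne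
  exact hw2 (near_zero (PB_open δ) hw (hc w hw) h0).self_of_nhds

/-- **The lemma on the logarithmic derivative** near a puncture -/
theorem ldP (hδ : 0 < δ) (hδ1 : δ ≤ 1) {a b c : ℂ → ℂ} (ha : MeromorphicOn a (PB δ))
    (hb : AnalyticOnNhd ℂ b (PB δ))
    (hc : AnalyticOnNhd ℂ c (PB δ)) (hb0 : ∃ w ∈ PB δ, b w ≠ 0) (hc0 : ∃ w ∈ PB δ, c w ≠ 0)
    (habc : ∀ᶠ w in codiscreteWithin (PB δ), a w * c w = b w) {ε : ℝ} (hε : 0 < ε) :
    ∃ C : ℝ, 0 ≤ C ∧ ∀ᶠ r in cofin, mP (logDeriv a) r ≤ ε * (lP c r + mP a r) +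
      C * (1 + Real.log r) := by
  obtain ⟨s, hs1, hs2, hfac⟩ := fac_fam (fun (k : Bool) w => if k then b w else c w) hδ
    hδ1 (fun k => by
      cases k
      · exact hc
      · exact hb) (fun k => by
      cases k
      · exact hc0
      · exact hb0)
  obtain ⟨H1, G1, hH1, hG1, n1, -, e1⟩ := hfac true
  obtain ⟨H0, G0, hH0, hG0, n0, -, e0⟩ := hfac false
  simp only [if_true, Bool.false_eq_true, if_false] at e1 e0
  obtain ⟨C1, hC1, b1⟩ := tame_log hs1 hH1
  obtain ⟨C0, hC0, b0⟩ := tame_log hs1 hH0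
  obtain ⟨D1, hD1, d1⟩ := tame_logDeriv hH1
  obtain ⟨D0, hD0, d0⟩ := tame_logDeriv hH0
  obtain ⟨C3, hC3, hldl⟩ := ldl2 hG0 hG1 n0 n1 hε
  set g : ℂ → ℂ := fun z => G1 z / G0 z with hg
  have mg : Meromorphic g := quot_mero hG0 hG1
  have mld : Meromorphic (logDeriv g) := by
    have h1 : logDeriv g = fun z => deriv g z / g z := by
      funext z
      rfl
    rw [h1]
    intro z
    exact ((mg z).deriv).div (mg z)
  have mla : MeromorphicOn (logDeriv a) (PB δ) := by
    have h1 : logDeriv a = fun z => deriv a z / a z := by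
      funext z
      rfl
    rw [h1]
    intro z hz
    exact ((ha z hz).deriv).div (ha z hz)
  have hl2 : 0 ≤ Real.log 2 := Real.log_nonneg (by norm_num)
  have hlD1 : 0 ≤ Real.log D1 := Real.log_nonneg hD1
  have hlD0 : 0 ≤ Real.log D0 := Real.log_nonneg hD0
  have hbn := an_ne hδ hb hb0
  have hcn := an_ne hδ hc hc0
  refine ⟨2 + 2 * Real.log 2 + Real.log D1 + Real.log D0 + C3 + ε * (2 * C0 + C1), by positivity, ?_⟩
  filter_upwards [cofin_gt (s + 2), hldl] with r hr hr3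
  have hr0 : 0 < r := by linarith
  have hrs : s < r := by linarith
  have hrδ : δ⁻¹ < r := lt_of_le_of_lt hs2 hrs
  have hlr : 0 ≤ Real.log r := Real.log_nonneg (by linarith)
  -- comparison of the characteristics
  have ht : T2 G0 G1 r ≤ lP c r + mP a r + (2 * C0 + C1) * (1 + Real.log r) := by
    have ciG0 := ci_log (mero_of_diff hG0) r
    have cig := Pool.Agent.H159R3.NV.ci_posLog mg r
    have cic := ci_lPm hδ (an_mer hc) hrδ
    have cia := ci_mPm hδ ha hrδ
    have k1 : L G0 r ≤ lP c r + C0 * (1 + Real.log r) := by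
      have h1 : L G0 r ≤ Real.circleAverage
          (fun z => Real.log ‖c z⁻¹‖ + C0 * (1 + Real.log r)) 0 r := by
        apply avg_le_cod ciG0 (cic.add (circleIntegrable_const _ _ _)) hr0.ne'
        filter_upwards [cod_ne hG0 n0 r, cod_mem r] with z h2 h4
        obtain ⟨h5, h6⟩ := sph_ext (by linarith) hrs h4
        have h7 := b0 z (by rw [h6]; linarith)
        rw [h6] at h7
        have h8 : Real.log ‖c z⁻¹‖ = Real.log ‖H0 z‖ + Real.log ‖G0 z‖ := by
          rw [e0 z h5, norm_mul, Real.log_mul (norm_ne_zero_iff.2 (hH0.ne z h5))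
            (norm_ne_zero_iff.2 h2)]
        change Real.log ‖G0 z‖ ≤ Real.log ‖c z⁻¹‖ + C0 * (1 + Real.log r)
        have := (abs_le.1 h7).1
        linarith
      rwa [Real.circleAverage_fun_add cic (circleIntegrable_const _ _ _),
        Real.circleAverage_const] at h1
    have k2 : Real.circleAverage (fun z => Real.posLog ‖g z‖) 0 r ≤
        mP a r + (C0 + C1) * (1 + Real.log r) := by
      have h1 : Real.circleAverage (fun z => Real.posLog ‖g z‖) 0 r ≤ Real.circleAverage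
          (fun z => Real.posLog ‖a z⁻¹‖ + (C0 + C1) * (1 + Real.log r)) 0 r := by
        apply avg_le_cod cig (cia.add (circleIntegrable_const _ _ _)) hr0.ne'
        filter_upwards [cod_ne hG0 n0 r, cod_mem r, cd_circle hδ habc hrδ] with z h2 h4 h9
        obtain ⟨h5, h6⟩ := sph_ext (by linarith) hrs h4
        have h7 := b0 z (by rw [h6]; linarith)
        have h7' := b1 z (by rw [h6]; linarith)
        rw [h6] at h7 h7'
        have hH0n := hH0.ne z h5
        have hH1n := hH1.ne z h5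
        have h8 : g z = a z⁻¹ * (H0 z * (H1 z)⁻¹) := by
          have h10 : a z⁻¹ * (H0 z * G0 z) = H1 z * G1 z := by
            rw [← e0 z h5, ← e1 z h5]
            exact h9
          rw [hg]
          simp only
          rw [div_eq_iff h2]
          have h11 : a z⁻¹ * (H0 z * (H1 z)⁻¹) * G0 z = (a z⁻¹ * (H0 z * G0 z)) * (H1 z)⁻¹ := by
            ring
          rw [h11, h10]
          field_simp
        change Real.posLog ‖g z‖ ≤ Real.posLog ‖a z⁻¹‖ + (C0 + C1) * (1 + Real.log r)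
        rw [h8, norm_mul]
        refine Real.posLog_mul.trans (add_le_add le_rfl ?_)
        have h12 : (C0 + C1) * (1 + Real.log r) = C0 * (1 + Real.log r) + C1 * (1 + Real.log r) := by
          ring
        rw [Real.posLog_apply, norm_mul, norm_inv, Real.log_mul (norm_ne_zero_iff.2 hH0n)
          (inv_ne_zero (norm_ne_zero_iff.2 hH1n)), Real.log_inv, h12]
        have h13 := abs_nonneg (Real.log ‖H0 z‖)
        have h14 := abs_nonneg (Real.log ‖H1 z‖)
        have h15 := le_abs_self (Real.log ‖H0 z‖)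
        have h16 := neg_abs_le (Real.log ‖H1 z‖)
        exact max_le (by linarith) (by linarith)
      rwa [Real.circleAverage_fun_add cia (circleIntegrable_const _ _ _),
        Real.circleAverage_const] at h1
    have h2 : T2 G0 G1 r = L G0 r + Real.circleAverage (fun z => Real.posLog ‖g z‖) 0 r := rfl
    rw [h2]
    have h3 : (2 * C0 + C1) * (1 + Real.log r) = C0 * (1 + Real.log r) +
      (C0 + C1) * (1 + Real.log r) := by ring
    rw [h3]
    linarith
  -- the logarithmic derivative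
  have ci2 : CircleIntegrable (fun z => Real.posLog ‖logDeriv g z‖) 0 r :=
    Pool.Agent.H159R3.NV.ci_posLog mld r
  have h1 : mP (logDeriv a) r ≤ Real.circleAverage (fun z => (Real.posLog ‖logDeriv g z‖ +
      (2 * Real.log r + 2 * Real.log 2 + Real.log D1 + Real.log D0))) 0 r := by
    unfold mP
    apply avg_le_cod (ci_mPm hδ mla hrδ) (ci2.add (circleIntegrable_const _ _ _)) hr0.ne'
    filter_upwards [cod_ne hG0 n0 r, cod_ne hG1 n1 r, cod_mem r,
      cd_circle hδ (cd_all (PB_open δ) habc) hrδ, cd_circle hδ hbn hrδ,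
      cd_circle hδ hcn hrδ] with z hz0 hz1 hzs hab hbz hcz
    obtain ⟨h3, h4⟩ := sph_ext (by linarith) hrs hzs
    have hz : z ≠ 0 := by
      rw [← norm_pos_iff, h4]
      exact hr0
    have hH1z := hH1.ne z h3
    have hH0z := hH0.ne z h3
    have hzB : z⁻¹ ∈ PB δ := inv_mem_PB hδ (Ext_mono hs2 h3)
    have key : ∀ (u H G : ℂ → ℂ), AnalyticOnNhd ℂ u (PB δ) → Tame s H → Differentiable ℂ G →
        G z ≠ 0 → u z⁻¹ ≠ 0 → (∀ z ∈ Ext s, u z⁻¹ = H z * G z) →
        logDeriv u z⁻¹ = -(z ^ 2) * (logDeriv H z + logDeriv G z) := by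
      intro u H G hu hH hG hGz huz he
      have hHz := hH.ne z h3
      have e1 : deriv (fun z => u z⁻¹) z = deriv u z⁻¹ * (-(z ^ 2)⁻¹) := by
        have h5 := (hu z⁻¹ hzB).differentiableAt.hasDerivAt
        exact (h5.comp z (hasDerivAt_inv hz)).deriv
      have e2 : deriv (fun z => u z⁻¹) z = deriv (fun z => H z * G z) z := by
        apply Filter.EventuallyEq.deriv_eq
        filter_upwards [(Ext_open s).mem_nhds h3] with w hw
        exact he w hw
      have e3 : deriv (fun z => H z * G z) z = (logDeriv H z + logDeriv G z) * (H z * G z) := by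
        have h6 : deriv (fun z => H z * G z) z = deriv H z * G z + H z * deriv G z :=
          deriv_fun_mul (hH.an z h3).differentiableAt (hG z)
        rw [h6, logDeriv_apply, logDeriv_apply]
        field_simp
      have h7 : deriv u z⁻¹ * (-(z ^ 2)⁻¹) = (logDeriv H z + logDeriv G z) * (u z⁻¹) := by
        rw [← e1, e2, e3, he z h3]
      have h8 : deriv u z⁻¹ = -(z ^ 2) * (deriv u z⁻¹ * (-(z ^ 2)⁻¹)) := by
        field_simp
      rw [logDeriv_apply, h8, h7, ← mul_assoc, mul_div_cancel_right₀ _ huz]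
    have hL1 := key b H1 G1 hb hH1 hG1 hz1 hbz e1
    have hL0 := key c H0 G0 hc hH0 hG0 hz0 hcz e0
    have hLa : logDeriv a z⁻¹ = logDeriv b z⁻¹ - logDeriv c z⁻¹ := by
      have h5 : a =ᶠ[𝓝 z⁻¹] fun w => b w / c w := by
        filter_upwards [hab, (hc z⁻¹ hzB).continuousAt.eventually_ne hcz] with w h6 h7
        rw [eq_div_iff h7]
        exact h6
      have h6 : logDeriv a z⁻¹ = logDeriv (fun w => b w / c w) z⁻¹ := by
        rw [logDeriv_apply, logDeriv_apply, h5.deriv_eq, h5.self_of_nhds]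
      rw [h6]
      exact logDeriv_div z⁻¹ hbz hcz (hb _ hzB).differentiableAt (hc _ hzB).differentiableAt
    have hLg : logDeriv g z = logDeriv G1 z - logDeriv G0 z :=
      logDeriv_div z hz1 hz0 (hG1 z) (hG0 z)
    have e4 : logDeriv a z⁻¹ = -(z ^ 2) * (logDeriv g z + (logDeriv H1 z - logDeriv H0 z)) := by
      rw [hLa, hL1, hL0, hLg]
      ring
    change Real.posLog ‖logDeriv a z⁻¹‖ ≤ (Real.posLog ‖logDeriv g z‖ +
      (2 * Real.log r + 2 * Real.log 2 + Real.log D1 + Real.log D0))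
    rw [e4, norm_mul, norm_neg, norm_pow, h4]
    have p1 : Real.posLog (r ^ 2) = 2 * Real.log r := by
      rw [Real.posLog_apply, Real.log_pow]
      push_cast
      exact max_eq_right (by positivity)
    have pD : ∀ (D : ℝ) (H : ℂ → ℂ), 1 ≤ D → ‖logDeriv H z‖ ≤ D →
        Real.posLog ‖logDeriv H z‖ ≤ Real.log D := by
      intro D H hD hH
      have h7 : Real.posLog ‖logDeriv H z‖ ≤ Real.posLog D :=
        Real.posLog_le_posLog (norm_nonneg _) hH
      have h8 : Real.posLog D = Real.log D := by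
        rw [Real.posLog_apply]
        exact max_eq_right (Real.log_nonneg hD)
      rwa [h8] at h7
    have p2 := pD D1 H1 hD1 (d1 z (by rw [h4]; linarith))
    have p3 := pD D0 H0 hD0 (d0 z (by rw [h4]; linarith))
    have p4 : Real.posLog ‖logDeriv H1 z - logDeriv H0 z‖ ≤
        Real.posLog ‖logDeriv H1 z‖ + Real.posLog ‖logDeriv H0 z‖ + Real.log 2 := by
      have h7 : Real.posLog ‖logDeriv H1 z + (-logDeriv H0 z)‖ ≤
          Real.posLog ‖logDeriv H1 z‖ + Real.posLog ‖-logDeriv H0 z‖ + Real.log 2 :=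
        Real.posLog_norm_add_le _ _
      rwa [norm_neg, ← sub_eq_add_neg] at h7
    have p5 : Real.posLog ‖logDeriv g z + (logDeriv H1 z - logDeriv H0 z)‖ ≤
        Real.posLog ‖logDeriv g z‖ + Real.posLog ‖logDeriv H1 z - logDeriv H0 z‖ + Real.log 2 :=
      Real.posLog_norm_add_le _ _
    have p6 : Real.posLog (r ^ 2 * ‖logDeriv g z + (logDeriv H1 z - logDeriv H0 z)‖) ≤
        Real.posLog (r ^ 2) + Real.posLog ‖logDeriv g z + (logDeriv H1 z - logDeriv H0 z)‖ :=
      Real.posLog_mul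
    rw [p1] at p6
    linarith
  rw [Real.circleAverage_fun_add ci2 (circleIntegrable_const _ _ _),
    Real.circleAverage_const] at h1
  have h5 : 0 ≤ (2 * Real.log 2 + Real.log D1 + Real.log D0) * Real.log r := by positivity
  have h6 : (2 + 2 * Real.log 2 + Real.log D1 + Real.log D0 + C3 + ε * (2 * C0 + C1)) *
      (1 + Real.log r) = 2 + 2 * Real.log r + (2 * Real.log 2 + Real.log D1 + Real.log D0) +
        (2 * Real.log 2 + Real.log D1 + Real.log D0) * Real.log r +
        C3 * (1 + Real.log r) + ε * ((2 * C0 + C1) * (1 + Real.log r)) := by ring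
  have h7 := mul_le_mul_of_nonneg_left ht hε.le
  rw [h6]
  linarith

end Pool.Agent.Helper4K9.MP
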