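import Pool.Agent.Helper4K9.MP.Few
import Pool.Agent.Helper4K9.MP.Adm

/-!
Curves with few inflection points.
-/

set_option autoImplicit false

namespace Pool.Agent.Helper4K9.MP

open MvPolynomial Metric Set Filter Topology Pool.Agent.W603.BP Pool.Agent.Helper4K9.IP
  Pool.Agent.Helper4K9.AP

variable {N : ℕ} {Q : MvPolynomial (Fin (N + 1)) ℂ} {q : ℕ} {f : ℂ → Fin (N + 1) → ℂ}

/-- The holomorphic map from the punctured disc with the vector `f` of homogeneous coordinates has
few inflection points near the origin: for some `δ ≤ 1` there is a holomorphic function `c` on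
`0 < ‖z‖ < δ` which has few zeros (for each `ε > 0`, the mean of `log ‖c‖` on the circle of radius
`1 / r` is at most `ε |T(r)| + O(1 + log r)`, for all `r ≥ 1` outside a set of finite measure, where
`T` is the characteristic of `f`), such that the vectors `f z, f' z, ..., f ^ (n) z`, where `n + 1`
is the dimension of the linear span of the image of `f`, are linearly independent if `c z ≠ 0`. -/
def FewInflections (f : ℂ → Fin (N + 1) → ℂ) : Prop :=
  ∃ (δ : ℝ) (c : ℂ → ℂ), 0 < δ ∧ δ ≤ 1 ∧ DifferentiableOn ℂ c (ball 0 δ \ {0}) ∧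
    (∃ z ∈ ball (0 : ℂ) δ \ {0}, c z ≠ 0) ∧
    (∀ z ∈ ball (0 : ℂ) δ \ {0}, c z ≠ 0 → LinearIndependent ℂ
      fun i : Fin (Module.finrank ℂ (Submodule.span ℂ (f '' (ball 0 1 \ {0})))) =>
        iteratedDeriv i f z) ∧
    ∀ ε : ℝ, 0 < ε → ∃ C : ℝ, ∀ᶠ r in cofin,
      Real.circleAverage (fun z => Real.log ‖c z⁻¹‖) 0 r ≤ ε * |TP f r| + C * (1 + Real.log r)

/-- The entire curve with the vector `f` of homogeneous coordinates has few inflection points near
infinity: for some `R ≥ 1` there is a holomorphic function `c` on `R < ‖z‖` which has few zeros (for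
each `ε > 0`, the mean of `log ‖c‖` on the circle of radius `r` is at most
`ε |T(r)| + O(1 + log r)`, for all `r ≥ 1` outside a set of finite measure, where `T(r)` is the mean
of `log ‖f‖`), such that the vectors `f z, f' z, ..., f ^ (n) z`, where `n + 1` is the dimension of
the linear span of the image of `f`, are linearly independent if `c z ≠ 0`. -/
def FewInflectionsE (f : ℂ → Fin (N + 1) → ℂ) : Prop :=
  ∃ (R : ℝ) (c : ℂ → ℂ), 1 ≤ R ∧ DifferentiableOn ℂ c {z | R < ‖z‖} ∧
    (∃ z, R < ‖z‖ ∧ c z ≠ 0) ∧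
    (∀ z, R < ‖z‖ → c z ≠ 0 → LinearIndependent ℂ
      fun i : Fin (Module.finrank ℂ (Submodule.span ℂ (range f))) => iteratedDeriv i f z) ∧
    ∀ ε : ℝ, 0 < ε → ∃ C : ℝ, ∀ᶠ r in cofin,
      Real.circleAverage (fun z => Real.log ‖c z‖) 0 r ≤
        ε * |Real.circleAverage (fun z => Real.log ‖f z‖) 0 r| + C * (1 + Real.log r)

theorem iter_lin {m : ℕ} {S : Set ℂ} (hS : IsOpen S)
    (A : (Fin m → ℂ) →L[ℂ] (Fin (N + 1) → ℂ)) {u : Fin m → ℂ → ℂ}
    (hu : ∀ j, AnalyticOnNhd ℂ (u j) S) (h : ∀ z ∈ S, f z = A fun j => u j z) (i : ℕ) :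
    ∀ z ∈ S, iteratedDeriv i f z = A fun j => deriv^[i] (u j) z := by
  induction i with
  | zero =>
    intro z hz
    rw [iteratedDeriv_zero]
    exact h z hz
  | succ i ih =>
    intro z hz
    rw [iteratedDeriv_succ]
    have h1 : iteratedDeriv i f =ᶠ[𝓝 z] fun w => A fun j => deriv^[i] (u j) w := by
      filter_upwards [hS.mem_nhds hz] with w hw
      exact ih w hw
    rw [h1.deriv_eq]
    have h2 : HasDerivAt (fun w => fun j => deriv^[i] (u j) w)
        (fun j => deriv^[i + 1] (u j) z) z := by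
      rw [hasDerivAt_pi]
      intro j
      have h3 := ((hu j z hz).iterated_deriv i).differentiableAt.hasDerivAt
      rw [← Function.iterate_succ_apply' deriv i (u j)] at h3
      exact h3
    exact (A.hasFDerivAt.comp_hasDerivAt z h2).deriv

theorem indep_le {E : Type} [AddCommGroup E] [Module ℂ E] {v : ℕ → E} {m m' : ℕ} (h : m' ≤ m)
    (hv : LinearIndependent ℂ fun i : Fin m => v i) : LinearIndependent ℂ fun i : Fin m' => v i :=
  hv.comp (Fin.castLE h) (Fin.castLE_injective h)

/-- curves with few inflection points are given by differential equations with small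
coefficients -/
theorem merAdm_of_few (hQ : Q.IsHomogeneous q) (han : ∀ j, AnalyticOnNhd ℂ (fun w => f w j) (PB 1))
    (hne : ∀ z ∈ PB 1, f z ≠ 0) (hX : ∀ z ∈ PB 1, eval (f z) Q ≠ 0) (h : FewInflections f) :
    MerAdm Q q f := by
  classical
  obtain ⟨δ, c, hδ, hδ1, hc, hc0, hli, hs⟩ := h
  rw [pb_eq] at hc hc0 hli
  rw [pb_eq] at hli
  have hsub := pb_sub hδ1
  have hcan : AnalyticOnNhd ℂ c (PB δ) := hc.analyticOnNhd (PB_open δ)
  refine ⟨δ, hδ, hδ1, ?_⟩
  -- coordinates in the linear span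
  set V : Submodule ℂ (Fin (N + 1) → ℂ) := Submodule.span ℂ (f '' PB δ) with hV
  have hVle : Module.finrank ℂ V ≤ Module.finrank ℂ (Submodule.span ℂ (f '' PB 1)) :=
    Submodule.finrank_mono (Submodule.span_mono (image_mono hsub))
  have hfV : ∀ z ∈ PB δ, f z ∈ V := fun z hz => Submodule.subset_span ⟨z, hz, rfl⟩
  obtain ⟨w0, hw0⟩ := PB_nonempty hδ
  have hpos : Module.finrank ℂ V ≠ 0 := by
    intro h0
    have h1 : V = ⊥ := Submodule.finrank_eq_zero.1 h0
    have h2 := hfV w0 hw0
    rw [h1, Submodule.mem_bot] at h2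
    exact hne w0 (hsub hw0) h2
  obtain ⟨n, hn⟩ := Nat.exists_eq_succ_of_ne_zero hpos
  let b : Module.Basis (Fin (n + 1)) ℂ V := Module.finBasisOfFinrankEq ℂ V hn
  let A : (Fin (n + 1) → ℂ) →ₗ[ℂ] (Fin (N + 1) → ℂ) := V.subtype ∘ₗ b.equivFun.symm.toLinearMap
  have hAinj : LinearMap.ker A = ⊥ := by
    rw [LinearMap.ker_eq_bot]
    exact V.injective_subtype.comp b.equivFun.symm.injective
  obtain ⟨B, hB⟩ := A.exists_leftInverse_of_injective hAinj
  have hBA : ∀ x, B (A x) = x := fun x => LinearMap.congr_fun hB x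
  have hAB : ∀ z ∈ PB δ, A (B (f z)) = f z := by
    intro z hz
    have h1 : f z = A (b.equivFun ⟨f z, hfV z hz⟩) := by
      change f z = V.subtype (b.equivFun.symm (b.equivFun ⟨f z, hfV z hz⟩))
      rw [LinearEquiv.symm_apply_apply]
      rfl
    rw [h1, hBA]
  let g : ℂ → Fin (n + 1) → ℂ := fun z => B (f z)
  let M1 : Fin (n + 1) → Fin (N + 1) → ℂ := fun j k => B (Pi.single k 1) j
  let M2 : Fin (N + 1) → Fin (n + 1) → ℂ := fun k j => A (Pi.single j 1) k
  have hg1 : ∀ z j, g z j = ∑ k, M1 j k * f z k := by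
    intro z j
    have h1 : B (f z) = ∑ k, f z k • B (Pi.single k 1) := by
      conv_lhs => rw [pi_eq_sum_univ' (f z)]
      rw [map_sum]
      refine Finset.sum_congr rfl fun k _ => ?_
      rw [map_smul]
    change B (f z) j = _
    rw [h1, Finset.sum_apply]
    refine Finset.sum_congr rfl fun k _ => ?_
    rw [Pi.smul_apply, smul_eq_mul, mul_comm]
  have hAf : ∀ x k, A x k = ∑ j, M2 k j * x j := by
    intro x k
    have h1 : A x = ∑ j, x j • A (Pi.single j 1) := by
      conv_lhs => rw [pi_eq_sum_univ' x]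
      rw [map_sum]
      refine Finset.sum_congr rfl fun k _ => ?_
      rw [map_smul]
    rw [h1, Finset.sum_apply]
    refine Finset.sum_congr rfl fun k _ => ?_
    rw [Pi.smul_apply, smul_eq_mul, mul_comm]
  have hg2 : ∀ z ∈ PB δ, ∀ k, f z k = ∑ j, M2 k j * g z j := by
    intro z hz k
    rw [← hAf]
    exact (congrFun (hAB z hz) k).symm
  have hgan : ∀ j, AnalyticOnNhd ℂ (fun w => g w j) (PB δ) := by
    intro j z hz
    have h1 : (fun w => g w j) = fun w => ∑ k, M1 j k * f w k := by
      funext w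
      exact hg1 w j
    rw [h1]
    exact Finset.analyticAt_fun_sum _ fun k _ => analyticAt_const.fun_mul (han k z (hsub hz))
  refine few_iter hQ hδ hδ1 (fun j => (han j).mono hsub) (fun w hw => hne w (hsub hw))
    (fun w hw => hX w (hsub hw)) hg1 hg2 hcan hc0 hs fun z hz hW => ?_
  by_contra hcz
  have h1 : LinearIndependent ℂ fun i : Fin (n + 1) => iteratedDeriv i f z :=
    indep_le (v := fun i => iteratedDeriv i f z) (le_trans hn.ge hVle) (hli z hz hcz)
  let Ac : (Fin (n + 1) → ℂ) →L[ℂ] (Fin (N + 1) → ℂ) := LinearMap.toContinuousLinearMap A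
  have h2 := fun i => iter_lin (f := f) (PB_open δ) Ac hgan (fun z hz => (hAB z hz).symm) i z hz
  have h3 : LinearIndependent ℂ fun i : Fin (n + 1) =>
      (fun j => deriv^[(i : ℕ)] (fun w => g w j) z) := by
    refine LinearIndependent.of_comp A ?_
    have h4 : (A ∘ fun i : Fin (n + 1) => (fun j => deriv^[(i : ℕ)] (fun w => g w j) z)) =
        fun i : Fin (n + 1) => iteratedDeriv i f z := by
      funext i
      exact (h2 i).symm
    rw [h4]
    exact h1
  have h5 : IsUnit (Matrix.of fun i j : Fin (n + 1) => nb (fun _ => 0) (i : ℕ)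
      ((fun j w => g w j) j) z) := by
    rw [← Matrix.linearIndependent_rows_iff_isUnit]
    have h6 : (Matrix.of fun i j : Fin (n + 1) => nb (fun _ => 0) (i : ℕ)
        ((fun j w => g w j) j) z).row = fun i : Fin (n + 1) =>
          (fun j => deriv^[(i : ℕ)] (fun w => g w j) z) := by
      funext i j
      change nb (fun _ => 0) (i : ℕ) (fun w => g w j) z = _
      rw [nb_zero_eq]
    rw [h6]
    exact h3
  rw [Matrix.isUnit_iff_isUnit_det] at h5
  exact h5.ne_zero hW

/-- triangular transformations -/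
theorem tri_indep {E : Type} [AddCommGroup E] [Module ℂ E] {v v' : ℕ → E} {P : ℕ → ℕ → ℂ}
    (h : ∀ i, v' i = ∑ l ∈ Finset.range (i + 1), P i l • v l) (hP : ∀ i, P i i ≠ 0) {m : ℕ}
    (hv : LinearIndependent ℂ fun i : Fin m => v i) : LinearIndependent ℂ fun i : Fin m => v' i := by
  classical
  rw [Fintype.linearIndependent_iff] at hv ⊢
  intro g hg
  let T : Matrix (Fin m) (Fin m) ℂ := Matrix.of fun i l => if (l : ℕ) ≤ i then P i l else 0
  have hT : ∀ i : Fin m, v' i = ∑ l : Fin m, T i l • v l := by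
    intro i
    rw [h i]
    have h1 : ∑ l : Fin m, T i l • v l =
        ∑ l ∈ Finset.range m, (if l ≤ (i : ℕ) then P i l else 0) • v l := by
      rw [← Fin.sum_univ_eq_sum_range (fun l => (if l ≤ (i : ℕ) then P i l else 0) • v l) m]
      rfl
    rw [h1]
    have h2 : Finset.range ((i : ℕ) + 1) ⊆ Finset.range m := by
      intro l hl
      rw [Finset.mem_range] at hl ⊢
      have := i.2
      omega
    rw [← Finset.sum_subset h2 (f := fun l => (if l ≤ (i : ℕ) then P i l else 0) • v l)]
    · refine Finset.sum_congr rfl fun l hl => ?_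
      rw [Finset.mem_range] at hl
      rw [if_pos (by omega)]
    · intro l _ hl
      rw [Finset.mem_range] at hl
      rw [if_neg (by omega), zero_smul]
  have hdet : T.det ≠ 0 := by
    rw [Matrix.det_of_isLowerTriangular]
    · refine Finset.prod_ne_zero_iff.2 fun i _ => ?_
      change (if (i : ℕ) ≤ i then P i i else 0) ≠ 0
      rw [if_pos le_rfl]
      exact hP i
    · intro i j hij
      have h3 : (i : ℕ) < j := hij
      change (if (j : ℕ) ≤ i then P i j else 0) = 0
      rw [if_neg (by omega)]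
  have h4 : ∀ l : Fin m, Matrix.vecMul g T l = 0 := by
    apply hv (Matrix.vecMul g T)
    rw [← hg]
    have h5 : ∀ l : Fin m, Matrix.vecMul g T l • v l = ∑ i : Fin m, g i • (T i l • v l) := by
      intro l
      change (∑ i, g i * T i l) • v l = _
      rw [Finset.sum_smul]
      refine Finset.sum_congr rfl fun i _ => ?_
      rw [mul_smul]
    rw [Finset.sum_congr rfl fun l _ => h5 l, Finset.sum_comm]
    refine Finset.sum_congr rfl fun i _ => ?_
    rw [hT i, Finset.smul_sum]
  have h6 := Matrix.eq_zero_of_vecMul_eq_zero hdet (funext h4)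
  exact fun i => congrFun h6 i

/-- the derivatives of a curve in the coordinate `1 / z` -/
theorem inv_deriv (hf : ∀ j, Differentiable ℂ fun z => f z j) (i : ℕ) :
    ∃ P : ℕ → ℂ → ℂ, (∀ l, AnalyticOnNhd ℂ (P l) {w | w ≠ 0}) ∧ (∀ w, w ≠ 0 → P i w ≠ 0) ∧
      ∀ w, w ≠ 0 → iteratedDeriv i (fun w => f w⁻¹) w =
        ∑ l ∈ Finset.range (i + 1), P l w • iteratedDeriv l f w⁻¹ := by
  have hopen : IsOpen {w : ℂ | w ≠ 0} := isOpen_ne
  have hinv : AnalyticOnNhd ℂ (fun w : ℂ => -(w ^ 2)⁻¹) {w | w ≠ 0} := fun w hw =>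
    ((analyticAt_id.fun_pow 2).fun_inv (pow_ne_zero 2 hw)).fun_neg
  have hd : ∀ l z, HasDerivAt (iteratedDeriv l f) (iteratedDeriv (l + 1) f z) z := by
    intro l z
    have h1 : ∀ z, iteratedDeriv l f z = fun j => deriv^[l] (fun z => f z j) z := by
      intro z
      exact iter_lin (f := f) isOpen_univ (ContinuousLinearMap.id ℂ (Fin (N + 1) → ℂ))
        (u := fun j z => f z j) (fun j z _ => (hf j).analyticAt z) (fun z _ => rfl) l z (mem_univ z)
    have h2 : iteratedDeriv (l + 1) f z = fun j => deriv^[l + 1] (fun z => f z j) z :=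
      iter_lin (f := f) isOpen_univ (ContinuousLinearMap.id ℂ (Fin (N + 1) → ℂ))
        (u := fun j z => f z j) (fun j z _ => (hf j).analyticAt z) (fun z _ => rfl) (l + 1) z
        (mem_univ z)
    have h3 : iteratedDeriv l f = fun z => fun j => deriv^[l] (fun z => f z j) z := funext h1
    rw [h2, h3, hasDerivAt_pi]
    intro j
    have h4 := (((hf j).analyticAt z).iterated_deriv l).differentiableAt.hasDerivAt
    rw [← Function.iterate_succ_apply' deriv l] at h4
    exact h4
  induction i with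
  | zero =>
    refine ⟨fun _ _ => 1, fun _ _ _ => analyticAt_const, fun _ _ => one_ne_zero, fun w _ => ?_⟩
    rw [Finset.sum_range_one, one_smul, iteratedDeriv_zero, iteratedDeriv_zero]
  | succ i ih =>
    obtain ⟨P, hP, hPi, hrel⟩ := ih
    refine ⟨fun l w => (if l = i + 1 then 0 else deriv (P l) w) +
      (if l = 0 then 0 else P (l - 1) w * -(w ^ 2)⁻¹), fun l w hw => ?_, fun w hw => ?_,
      fun w hw => ?_⟩
    · refine AnalyticAt.fun_add ?_ ?_
      · by_cases h0 : l = i + 1
        · simp only [h0, if_true]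
          exact analyticAt_const
        · simp only [h0, if_false]
          exact (hP l w hw).deriv
      · by_cases h0 : l = 0
        · simp only [h0, if_true]
          exact analyticAt_const
        · simp only [h0, if_false]
          exact (hP (l - 1) w hw).fun_mul (hinv w hw)
    · simp only [if_true, Nat.succ_ne_zero, if_false, Nat.add_sub_cancel, zero_add]
      exact mul_ne_zero (hPi w hw) (neg_ne_zero.2 (inv_ne_zero (pow_ne_zero 2 hw)))
    · rw [iteratedDeriv_succ]
      have h1 : iteratedDeriv i (fun w => f w⁻¹) =ᶠ[𝓝 w] fun w =>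
          ∑ l ∈ Finset.range (i + 1), P l w • iteratedDeriv l f w⁻¹ := by
        filter_upwards [hopen.mem_nhds hw] with x hx
        exact hrel x hx
      rw [h1.deriv_eq]
      have h2 : HasDerivAt (fun w => ∑ l ∈ Finset.range (i + 1), P l w • iteratedDeriv l f w⁻¹)
          (∑ l ∈ Finset.range (i + 1), (P l w • (-(w ^ 2)⁻¹ • iteratedDeriv (l + 1) f w⁻¹) +
            deriv (P l) w • iteratedDeriv l f w⁻¹)) w := by
        apply HasDerivAt.fun_sum
        intro l _
        have h3 : HasDerivAt (fun w => iteratedDeriv l f w⁻¹)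
            (-(w ^ 2)⁻¹ • iteratedDeriv (l + 1) f w⁻¹) w :=
          HasDerivAt.scomp w (hd l w⁻¹) (hasDerivAt_inv hw)
        exact ((hP l w hw).differentiableAt.hasDerivAt).smul h3
      rw [h2.deriv]
      simp only [add_smul]
      rw [Finset.sum_add_distrib, Finset.sum_add_distrib]
      have h4 : ∑ l ∈ Finset.range (i + 1 + 1), (if l = i + 1 then (0 : ℂ) else deriv (P l) w) •
          iteratedDeriv l f w⁻¹ = ∑ l ∈ Finset.range (i + 1), deriv (P l) w •
            iteratedDeriv l f w⁻¹ := by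
        rw [Finset.sum_range_succ, if_pos rfl, zero_smul, add_zero]
        refine Finset.sum_congr rfl fun l hl => ?_
        rw [Finset.mem_range] at hl
        rw [if_neg (by omega)]
      have h5 : ∑ l ∈ Finset.range (i + 1 + 1), (if l = 0 then (0 : ℂ) else
          P (l - 1) w * -(w ^ 2)⁻¹) • iteratedDeriv l f w⁻¹ = ∑ l ∈ Finset.range (i + 1),
            P l w • (-(w ^ 2)⁻¹ • iteratedDeriv (l + 1) f w⁻¹) := by
        rw [Finset.sum_range_succ', if_pos rfl, zero_smul, add_zero]
        refine Finset.sum_congr rfl fun l _ => ?_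
        rw [if_neg (Nat.succ_ne_zero l), Nat.add_sub_cancel, smul_smul]
      rw [h4, h5]
      exact add_comm _ _

/-- entire curves with few inflection points -/
theorem few_of_entire (hf : ∀ j, Differentiable ℂ fun z => f z j) (h : FewInflectionsE f) :
    FewInflections fun w => f w⁻¹ := by
  obtain ⟨R, c, hR, hc, ⟨z0, hz0, hcz0⟩, hli, hs⟩ := h
  have hR0 : 0 < R := by linarith
  have hopen : IsOpen {z : ℂ | R < ‖z‖} := isOpen_lt continuous_const continuous_norm
  have hz00 : z0 ≠ 0 := by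
    intro h0
    rw [h0, norm_zero] at hz0
    linarith
  have hmem : ∀ w ∈ ball (0 : ℂ) R⁻¹ \ {0}, w ≠ 0 ∧ R < ‖w⁻¹‖ := by
    rintro w ⟨hw1, hw2⟩
    have hw3 : w ≠ 0 := hw2
    have hw4 : ‖w‖ < R⁻¹ := by simpa using hw1
    refine ⟨hw3, ?_⟩
    rw [norm_inv]
    exact (lt_inv_comm₀ (norm_pos_iff.2 hw3) hR0).1 hw4
  refine ⟨R⁻¹, fun w => c w⁻¹, inv_pos.2 hR0, inv_le_one_of_one_le₀ hR, ?_, ?_, ?_, ?_⟩
  · intro w hw
    obtain ⟨h1, h2⟩ := hmem w hw
    have h3 : DifferentiableAt ℂ c w⁻¹ := (hc _ h2).differentiableAt (hopen.mem_nhds h2)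
    exact (h3.comp w (differentiableAt_inv h1)).differentiableWithinAt
  · refine ⟨z0⁻¹, ⟨?_, inv_ne_zero hz00⟩, by
      change c (z0⁻¹)⁻¹ ≠ 0
      rwa [inv_inv]⟩
    rw [mem_ball_zero_iff, norm_inv]
    exact inv_strictAnti₀ hR0 hz0
  · intro w hw hcw
    obtain ⟨h1, h2⟩ := hmem w hw
    have h3 := hli w⁻¹ h2 hcw
    have hle : Module.finrank ℂ (Submodule.span ℂ ((fun w => f w⁻¹) '' (ball 0 1 \ {0}))) ≤
        Module.finrank ℂ (Submodule.span ℂ (range f)) := by
      refine Submodule.finrank_mono (Submodule.span_mono ?_)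
      rintro _ ⟨x, -, rfl⟩
      exact ⟨x⁻¹, rfl⟩
    choose P hP1 hP2 hP3 using inv_deriv hf
    exact tri_indep (v := fun l => iteratedDeriv l f w⁻¹)
      (v' := fun i => iteratedDeriv i (fun w => f w⁻¹) w) (P := fun i l => P i l w)
      (fun i => hP3 i w h1) (fun i => hP2 i w h1)
      (indep_le (v := fun i => iteratedDeriv i f w⁻¹) hle h3)
  · intro ε hε
    obtain ⟨C, hC⟩ := hs ε hε
    refine ⟨C, ?_⟩
    filter_upwards [hC] with r hr
    have e1 : TP (fun w => f w⁻¹) r = Real.circleAverage (fun z => Real.log ‖f z‖) 0 r := by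
      unfold TP
      simp only [inv_inv]
    rw [e1]
    simp only [inv_inv]
    exact hr

end Pool.Agent.Helper4K9.MP
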