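import Pool.Agent.Helper4K9.MP.Coef
import Pool.Agent.Helper4K9.AP.Fin

/-!
Products of solutions of a linear differential equation.
-/

set_option autoImplicit false

namespace Pool.Agent.Helper4K9.MP

open Metric Set Filter Topology Pool.Agent.W603.BP Pool.Agent.Helper4K9.IP Pool.Agent.Helper4K9.AP

variable {N : ℕ} {δ : ℝ} {f : ℂ → Fin (N + 1) → ℂ} {B : Subalgebra ℂ (ℂ → ℂ)}

theorem iter_of_mem {Ω : Set ℂ} {a : ℂ → ℂ} (h : a ∈ B) : IterOn Ω B a := by
  have h1 : IterOn Ω B fun z => a z / (1 : ℂ → ℂ) z := IterOn.quot h B.one_mem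
  simpa using h1

theorem iter_zero {Ω : Set ℂ} : IterOn Ω B fun _ => 0 := iter_of_mem B.zero_mem

theorem iter_sum {Ω : Set ℂ} {ι : Type} (s : Finset ι) (a : ι → ℂ → ℂ)
    (h : ∀ i ∈ s, IterOn Ω B (a i)) : IterOn Ω B fun z => ∑ i ∈ s, a i z := by
  classical
  induction s using Finset.induction_on with
  | empty =>
    simp only [Finset.sum_empty]
    exact iter_zero
  | insert b s hb ih =>
    have h1 := (h b (Finset.mem_insert_self _ _)).add
      (ih fun i hi => h i (Finset.mem_insert_of_mem hi))
    have h2 : (fun z => ∑ i ∈ insert b s, a i z) = fun z => a b z + ∑ i ∈ s, a i z := by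
      funext z
      rw [Finset.sum_insert hb]
    rw [h2]
    exact h1

theorem iter_ode {Ω : Set ℂ} {ι : Type} [Fintype ι] (A : ι → ι → ℂ → ℂ) (y : ι → ℂ → ℂ)
    (hA : ∀ i j, IterOn Ω B (A i j)) (hy : ∀ i, MeromorphicOn (y i) Ω)
    (h : ∀ᶠ z in codiscreteWithin Ω, ∀ i, HasDerivAt (y i) (∑ j, A i j z * y j z) z) (i : ι) :
    IterOn Ω B (y i) := by
  classical
  let e := Fintype.equivFin ι
  have h1 := IterOn.ode (Ω := Ω) (B := B) (fun a b => A (e.symm a) (e.symm b))
    (fun a => y (e.symm a)) (fun a b => hA _ _) (fun a => hy _) (by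
      filter_upwards [h] with z hz a
      have h2 := hz (e.symm a)
      have h3 : ∑ b, A (e.symm a) (e.symm b) z * y (e.symm b) z = ∑ j, A (e.symm a) j z * y j z :=
        e.symm.sum_comp (fun j => A (e.symm a) j z * y j z)
      rw [h3]
      exact h2) (e i)
  simpa using h1

/-- **Products of the derivatives of solutions of a linear differential equation.** -/
theorem iter_tensor {γ φ μ : ℂ → ℂ} {n k : ℕ} (hγ : MeromorphicOn γ (PB δ))
    (hφ : MeromorphicOn φ (PB δ)) {u : Fin k → ℂ → ℂ} (hu : ∀ t, MeromorphicOn (u t) (PB δ))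
    {C : ℕ → ℂ → ℂ} (hC : ∀ l < n, C l ∈ B) (hC1 : C n = fun _ => 1)
    (heq : ∀ t, ∀ᶠ z in codiscreteWithin (PB δ),
      ∑ i ∈ Finset.range (n + 1), C i z * nb γ i (u t) z = 0) (hμ : μ ∈ B)
    (hφμ : ∀ᶠ z in codiscreteWithin (PB δ), deriv φ z = (μ z + k * γ z) * φ z)
    (I : Fin k → Fin n) : IterOn (PB δ) B fun z => (∏ t, nb γ (I t) (u t) z) * φ z := by
  classical
  let Nm : Fin n → Fin n → ℂ → ℂ := fun i l => if (i : ℕ) + 1 < n then
    (if (l : ℕ) = i + 1 then fun _ => 1 else fun _ => 0) else fun z => (-1) * C l z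
  have hNm : ∀ i l, Nm i l ∈ B := by
    intro i l
    by_cases h1 : (i : ℕ) + 1 < n
    · by_cases h2 : (l : ℕ) = i + 1
      · simp only [Nm, h1, h2, if_true]
        exact B.one_mem
      · simp only [Nm, h1, h2, if_true, if_false]
        exact B.zero_mem
    · simp only [Nm, h1, if_false]
      have h3 := B.mul_mem (B.algebraMap_mem (-1 : ℂ)) (hC l l.2)
      exact h3
  have hder : ∀ᶠ z in codiscreteWithin (PB δ), ∀ (t : Fin k) (i : Fin n),
      HasDerivAt (nb γ i (u t)) ((∑ l, Nm i l z * nb γ l (u t) z) - γ z * nb γ i (u t) z) z := by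
    have h1 : ∀ᶠ z in codiscreteWithin (PB δ), ∀ (t : Fin k) (i : Fin n),
        AnalyticAt ℂ (nb γ i (u t)) z := eventually_all.2 fun t => eventually_all.2 fun i =>
      mer_an (nb_mero hγ (hu t) i)
    filter_upwards [h1, eventually_all.2 heq] with z h2 h3 t i
    have h4 := (h2 t i).differentiableAt.hasDerivAt
    have h5 : deriv (nb γ i (u t)) z = (∑ l, Nm i l z * nb γ l (u t) z) -
        γ z * nb γ i (u t) z := by
      have h6 : nb γ (i + 1) (u t) z = deriv (nb γ i (u t)) z + γ z * nb γ i (u t) z := rfl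
      have h7 : ∑ l, Nm i l z * nb γ l (u t) z = nb γ (i + 1) (u t) z := by
        by_cases h8 : (i : ℕ) + 1 < n
        · rw [Finset.sum_eq_single (⟨(i : ℕ) + 1, h8⟩ : Fin n)]
          · simp only [Nm, h8, if_true, one_mul]
          · intro l _ hl
            have h9 : (l : ℕ) ≠ i + 1 := fun h => hl (Fin.ext h)
            simp only [Nm, h8, h9, if_true, if_false, zero_mul]
          · intro h
            exact absurd (Finset.mem_univ _) h
        · have h9 : (i : ℕ) + 1 = n := by omega
          have h10 := h3 t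
          rw [Finset.sum_range_succ, hC1, ← Fin.sum_univ_eq_sum_range
            (fun l => C l z * nb γ l (u t) z) n] at h10
          have h11 : ∑ l, Nm i l z * nb γ l (u t) z =
              -∑ l : Fin n, C l z * nb γ l (u t) z := by
            rw [← Finset.sum_neg_distrib]
            refine Finset.sum_congr rfl fun l _ => ?_
            simp only [Nm, h8, if_false]
            ring
          rw [h11, h9]
          linear_combination -h10
      rw [h7, h6]
      ring
    rw [← h5]
    exact h4
  have hym : ∀ I : Fin k → Fin n, MeromorphicOn (fun z => (∏ t, nb γ (I t) (u t) z) * φ z)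
      (PB δ) := by
    intro I
    refine MeromorphicOn.mul ?_ hφ
    intro z hz
    have h1 : MeromorphicAt (∏ t, nb γ (I t) (u t)) z :=
      MeromorphicAt.prod fun t _ => nb_mero hγ (hu t) (I t) z hz
    have h2 : (∏ t, nb γ (I t) (u t)) = fun z => ∏ t, nb γ (I t) (u t) z := by
      funext x
      rw [Finset.prod_apply]
    rwa [h2] at h1
  refine iter_ode (ι := Fin k → Fin n) (fun I I' z => (∑ t, ∑ l,
      if I' = Function.update I t l then Nm (I t) l z else 0) + if I' = I then μ z else 0)
    (fun I z => (∏ t, nb γ (I t) (u t) z) * φ z) (fun I I' => ?_) hym ?_ I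
  · refine IterOn.add (iter_sum _ _ fun t _ => iter_sum _ _ fun l _ => ?_) ?_
    · by_cases h : I' = Function.update I t l
      · simp only [h, if_true]
        exact iter_of_mem (hNm _ _)
      · simp only [h, if_false]
        exact iter_zero
    · by_cases h : I' = I
      · simp only [h, if_true]
        exact iter_of_mem hμ
      · simp only [h, if_false]
        exact iter_zero
  · filter_upwards [hder, hφμ, mer_an hφ] with z h1 h2 h3 I
    have h4 : HasDerivAt (fun z => ∏ t, nb γ (I t) (u t) z) (∑ t, (∏ s ∈ Finset.univ.erase t,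
        nb γ (I s) (u s) z) • ((∑ l, Nm (I t) l z * nb γ l (u t) z) -
          γ z * nb γ (I t) (u t) z)) z := HasDerivAt.fun_finset_prod fun t _ => h1 t (I t)
    have h5 := h4.mul h3.differentiableAt.hasDerivAt
    refine h5.congr_deriv ?_
    have h6 : ∀ t, (∏ s ∈ Finset.univ.erase t, nb γ (I s) (u s) z) * nb γ (I t) (u t) z =
        ∏ s, nb γ (I s) (u s) z := fun t =>
      Finset.prod_erase_mul _ (fun s => nb γ (I s) (u s) z) (Finset.mem_univ t)
    have h7 : ∀ t (l : Fin n), (∏ s, nb γ (Function.update I t l s) (u s) z) =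
        (∏ s ∈ Finset.univ.erase t, nb γ (I s) (u s) z) * nb γ l (u t) z := by
      intro t l
      rw [← Finset.prod_erase_mul _ _ (Finset.mem_univ t), Function.update_self]
      congr 1
      refine Finset.prod_congr rfl fun s hs => ?_
      rw [Function.update_of_ne (Finset.ne_of_mem_erase hs)]
    have h8 : ∑ I', ((∑ t, ∑ l, if I' = Function.update I t l then Nm (I t) l z else 0) +
        if I' = I then μ z else 0) * ((∏ t, nb γ (I' t) (u t) z) * φ z) =
        (∑ t, ∑ l, Nm (I t) l z * ((∏ s, nb γ (Function.update I t l s) (u s) z) * φ z)) +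
          μ z * ((∏ t, nb γ (I t) (u t) z) * φ z) := by
      simp only [add_mul, Finset.sum_add_distrib, Finset.sum_mul]
      congr 1
      · rw [Finset.sum_comm]
        refine Finset.sum_congr rfl fun t _ => ?_
        rw [Finset.sum_comm]
        refine Finset.sum_congr rfl fun l _ => ?_
        simp only [ite_mul, zero_mul]
        rw [Finset.sum_ite_eq' Finset.univ (Function.update I t l)
          (fun I' => Nm (I t) l z * ((∏ t, nb γ (I' t) (u t) z) * φ z))]
        simp
      · simp only [ite_mul, zero_mul]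
        rw [Finset.sum_ite_eq' Finset.univ I
          (fun I' => μ z * ((∏ t, nb γ (I' t) (u t) z) * φ z))]
        simp
    rw [h8, h2]
    have h9 : ∀ t, (∏ s ∈ Finset.univ.erase t, nb γ (I s) (u s) z) •
        ((∑ l, Nm (I t) l z * nb γ l (u t) z) - γ z * nb γ (I t) (u t) z) =
        (∑ l, Nm (I t) l z * (∏ s, nb γ (Function.update I t l s) (u s) z)) -
          γ z * ∏ s, nb γ (I s) (u s) z := by
      intro t
      rw [smul_eq_mul, mul_sub, Finset.mul_sum]
      congr 1
      · refine Finset.sum_congr rfl fun l _ => ?_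
        rw [h7]
        ring
      · rw [← h6 t]
        ring
    rw [Finset.sum_congr rfl fun t _ => h9 t, Finset.sum_sub_distrib, Finset.sum_const,
      Finset.card_univ, Fintype.card_fin, nsmul_eq_mul]
    have h10 : ∑ t, ∑ l, Nm (I t) l z * ((∏ s, nb γ (Function.update I t l s) (u s) z) * φ z) =
        (∑ t, ∑ l, Nm (I t) l z * (∏ s, nb γ (Function.update I t l s) (u s) z)) * φ z := by
      rw [Finset.sum_mul]
      refine Finset.sum_congr rfl fun t _ => ?_
      rw [Finset.sum_mul]
      refine Finset.sum_congr rfl fun l _ => ?_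
      ring
    rw [h10]
    ring

/-- a monomial as a product of variables -/
theorem mon_list {q : ℕ} (α : Fin (N + 1) →₀ ℕ) (hα : ∑ j, α j = q) :
    ∃ J : Fin q → Fin (N + 1), ∀ x : Fin (N + 1) → ℂ, ∏ t, x (J t) = ∏ j, x j ^ α j := by
  classical
  induction q generalizing α with
  | zero =>
    refine ⟨fun t => t.elim0, fun x => ?_⟩
    have h1 : ∀ j, α j = 0 := fun j =>
      (Finset.sum_eq_zero_iff.1 hα) j (Finset.mem_univ j)
    simp [h1]
  | succ q ih =>
    obtain ⟨j, -, hj⟩ := Finset.exists_ne_zero_of_sum_ne_zero (s := Finset.univ) (f := fun j => α j)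
      (by rw [hα]; exact Nat.succ_ne_zero q)
    have hj' : 1 ≤ α j := Nat.one_le_iff_ne_zero.2 hj
    let β : Fin (N + 1) →₀ ℕ := α - Finsupp.single j 1
    have hβ : ∀ i, α i = β i + (Finsupp.single j 1 : Fin (N + 1) →₀ ℕ) i := by
      intro i
      have h1 : β i = α i - (Finsupp.single j 1 : Fin (N + 1) →₀ ℕ) i := rfl
      rw [h1]
      by_cases h : i = j
      · rw [h, Finsupp.single_eq_same]
        omega
      · rw [Finsupp.single_eq_of_ne h]
        omega
    have hβs : ∑ i, β i = q := by
      have h1 : ∑ i, α i = ∑ i, β i + ∑ i, (Finsupp.single j 1 : Fin (N + 1) →₀ ℕ) i := by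
        rw [← Finset.sum_add_distrib]
        exact Finset.sum_congr rfl fun i _ => hβ i
      have h2 : ∑ i, (Finsupp.single j 1 : Fin (N + 1) →₀ ℕ) i = 1 := by
        simp [Finsupp.single_apply]
      omega
    obtain ⟨J, hJ⟩ := ih β hβs
    refine ⟨Fin.cons j J, fun x => ?_⟩
    rw [Fin.prod_univ_succ]
    simp only [Fin.cons_zero, Fin.cons_succ]
    rw [hJ x]
    have h1 : ∏ i, x i ^ α i = ∏ i, x i ^ β i * x i ^ (Finsupp.single j 1 : Fin (N + 1) →₀ ℕ) i :=
      Finset.prod_congr rfl fun i _ => by rw [hβ i, pow_add]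
    rw [h1, Finset.prod_mul_distrib]
    have h2 : ∏ i, x i ^ (Finsupp.single j 1 : Fin (N + 1) →₀ ℕ) i = x j := by
      rw [Finset.prod_eq_single j]
      · rw [Finsupp.single_eq_same, pow_one]
      · intro i _ hi
        rw [Finsupp.single_eq_of_ne hi, pow_zero]
      · intro h
        exact absurd (Finset.mem_univ _) h
    rw [h2]
    ring

end Pool.Agent.Helper4K9.MP
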