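import Pool.Agent.Helper4K9.MP.Ring

/-!
Linear differential operators with coefficients of small proximity.
-/

set_option autoImplicit false

namespace Pool.Agent.Helper4K9.MP

open Metric Set Filter Topology Pool.Agent.W603.BP Pool.Agent.Helper4K9.IP Pool.Agent.Helper4K9.AP

variable {N : ℕ} {δ : ℝ} {f : ℂ → Fin (N + 1) → ℂ}

/-- iterates of the twisted derivative `u' + γ u` -/
noncomputable def nb (γ : ℂ → ℂ) : ℕ → (ℂ → ℂ) → ℂ → ℂ
  | 0, u => u
  | i + 1, u => fun z => deriv (nb γ i u) z + γ z * nb γ i u z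

theorem nb_succ (γ : ℂ → ℂ) (i : ℕ) (u : ℂ → ℂ) :
    nb γ (i + 1) u = fun z => deriv (nb γ i u) z + γ z * nb γ i u z := rfl

theorem cd_deriv {u v : ℂ → ℂ} (h : ∀ᶠ w in codiscreteWithin (PB δ), u w = v w) :
    ∀ᶠ w in codiscreteWithin (PB δ), deriv u w = deriv v w := by
  filter_upwards [cd_all (PB_open δ) h] with w hw
  exact (show u =ᶠ[𝓝 w] v from hw).deriv_eq

theorem nb_congr {γ γ' u v : ℂ → ℂ} (hγ : ∀ᶠ w in codiscreteWithin (PB δ), γ w = γ' w)
    (h : ∀ᶠ w in codiscreteWithin (PB δ), u w = v w) (i : ℕ) :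
    ∀ᶠ w in codiscreteWithin (PB δ), nb γ i u w = nb γ' i v w := by
  induction i with
  | zero => exact h
  | succ i ih =>
    filter_upwards [hγ, ih, cd_deriv ih] with w h1 h2 h3
    rw [nb_succ, nb_succ]
    simp only
    rw [h1, h2, h3]

theorem nb_mero {γ u : ℂ → ℂ} (hγ : MeromorphicOn γ (PB δ)) (hu : MeromorphicOn u (PB δ)) (i : ℕ) :
    MeromorphicOn (nb γ i u) (PB δ) := by
  induction i with
  | zero => exact hu
  | succ i ih => exact ih.deriv.add (hγ.mul ih)

theorem nb_zero_eq (u : ℂ → ℂ) (i : ℕ) : nb (fun _ => 0) i u = deriv^[i] u := by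
  induction i with
  | zero => rfl
  | succ i ih =>
    rw [Function.iterate_succ_apply', ← ih, nb_succ]
    funext z
    simp

/-- change of the gauge -/
theorem nb_gauge (hδ : 0 < δ) {γ g u : ℂ → ℂ} (hγ : MeromorphicOn γ (PB δ))
    (hg : MeromorphicOn g (PB δ)) (hg0 : ¬ ∀ᶠ w in codiscreteWithin (PB δ), g w = 0)
    (hu : MeromorphicOn u (PB δ)) (i : ℕ) : ∀ᶠ w in codiscreteWithin (PB δ),
      nb γ i (fun z => g z * u z) w = g w * nb (fun z => γ z + logDeriv g z) i u w := by
  have hγ' : MeromorphicOn (fun z => γ z + logDeriv g z) (PB δ) := hγ.add (hg.deriv.div hg)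
  induction i with
  | zero => exact Eventually.of_forall fun _ => rfl
  | succ i ih =>
    filter_upwards [ih, cd_deriv ih, mer_an hg, mer_an (nb_mero hγ' hu i),
      mer_ne (PB_preconn hδ) hg hg0] with w h1 h2 h3 h4 h5
    rw [nb_succ, nb_succ]
    simp only
    rw [h2, h1, deriv_fun_mul h3.differentiableAt h4.differentiableAt, logDeriv_apply]
    field_simp
    ring

theorem nb_oo (hδ : 0 < δ) (hδ1 : δ ≤ 1) {γ u : ℂ → ℂ} (hγ : OO δ f γ) (hu : OO δ f u) (i : ℕ) :
    OO δ f (nb γ i u) := by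
  induction i with
  | zero => exact hu
  | succ i ih => exact (ih.deriv hδ hδ1).add hδ (hγ.mul hδ ih)

theorem oo_sum (hδ : 0 < δ) {ι : Type} (s : Finset ι) (a : ι → ℂ → ℂ)
    (h : ∀ i ∈ s, OO δ f (a i)) : OO δ f fun w => ∑ i ∈ s, a i w := by
  classical
  induction s using Finset.induction_on with
  | empty => simpa using OO.const hδ f 0
  | insert b s hb ih =>
    have h1 := (h b (Finset.mem_insert_self _ _)).add hδ
      (ih fun i hi => h i (Finset.mem_insert_of_mem hi))
    have h2 : (fun w => ∑ i ∈ insert b s, a i w) = fun w => a b w + ∑ i ∈ s, a i w := by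
      funext w
      rw [Finset.sum_insert hb]
    rw [h2]
    exact h1

theorem oo_prod (hδ : 0 < δ) {ι : Type} (s : Finset ι) (a : ι → ℂ → ℂ)
    (h : ∀ i ∈ s, OO δ f (a i)) : OO δ f fun w => ∏ i ∈ s, a i w := by
  classical
  induction s using Finset.induction_on with
  | empty => simpa using OO.const hδ f 1
  | insert b s hb ih =>
    have h1 := (h b (Finset.mem_insert_self _ _)).mul hδ
      (ih fun i hi => h i (Finset.mem_insert_of_mem hi))
    have h2 : (fun w => ∏ i ∈ insert b s, a i w) = fun w => a b w * ∏ i ∈ s, a i w := by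
      funext w
      rw [Finset.prod_insert hb]
    rw [h2]
    exact h1

/-- a pole of order at most `n` -/
def PoleLE (n : ℕ) (a : ℂ → ℂ) (z0 : ℂ) : Prop :=
  ∃ g : ℂ → ℂ, AnalyticAt ℂ g z0 ∧ ∀ᶠ z in 𝓝[≠] z0, a z * (z - z0) ^ n = g z

theorem PoleLE.mono {n m : ℕ} {a : ℂ → ℂ} {z0 : ℂ} (h : PoleLE n a z0) (hnm : n ≤ m) :
    PoleLE m a z0 := by
  obtain ⟨g, hg, h1⟩ := h
  refine ⟨fun z => g z * (z - z0) ^ (m - n), hg.fun_mul (by fun_prop), ?_⟩
  filter_upwards [h1] with z hz
  rw [← hz, mul_assoc, ← pow_add, Nat.add_sub_cancel' hnm]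

theorem PoleLE.congr {n : ℕ} {a b : ℂ → ℂ} {z0 : ℂ} (h : PoleLE n a z0)
    (hab : ∀ᶠ z in 𝓝[≠] z0, a z = b z) : PoleLE n b z0 := by
  obtain ⟨g, hg, h1⟩ := h
  refine ⟨g, hg, ?_⟩
  filter_upwards [h1, hab] with z hz h2
  rw [← h2, hz]

theorem PoleLE.of_an {a : ℂ → ℂ} {z0 : ℂ} (h : AnalyticAt ℂ a z0) (n : ℕ) : PoleLE n a z0 :=
  ⟨fun z => a z * (z - z0) ^ n, h.fun_mul (by fun_prop), Eventually.of_forall fun _ => rfl⟩

theorem PoleLE.add {n : ℕ} {a b : ℂ → ℂ} {z0 : ℂ} (ha : PoleLE n a z0) (hb : PoleLE n b z0) :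
    PoleLE n (fun z => a z + b z) z0 := by
  obtain ⟨g, hg, h1⟩ := ha
  obtain ⟨g', hg', h1'⟩ := hb
  refine ⟨fun z => g z + g' z, hg.fun_add hg', ?_⟩
  filter_upwards [h1, h1'] with z hz hz'
  rw [add_mul, hz, hz']

theorem PoleLE.mul {n m : ℕ} {a b : ℂ → ℂ} {z0 : ℂ} (ha : PoleLE n a z0) (hb : PoleLE m b z0) :
    PoleLE (n + m) (fun z => a z * b z) z0 := by
  obtain ⟨g, hg, h1⟩ := ha
  obtain ⟨g', hg', h1'⟩ := hb
  refine ⟨fun z => g z * g' z, hg.fun_mul hg', ?_⟩
  filter_upwards [h1, h1'] with z hz hz'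
  rw [← hz, ← hz', pow_add]
  ring

theorem PoleLE.deriv {n : ℕ} {a : ℂ → ℂ} {z0 : ℂ} (ha : PoleLE n a z0)
    (hm : MeromorphicAt a z0) : PoleLE (n + 1) (deriv a) z0 := by
  obtain ⟨g, hg, h1⟩ := ha
  refine ⟨fun z => _root_.deriv g z * (z - z0) - n * g z,
    (hg.deriv.fun_mul (by fun_prop)).fun_sub (analyticAt_const.fun_mul hg), ?_⟩
  have h2 : ∀ᶠ z in 𝓝[≠] z0, ∀ᶠ w in 𝓝 z, a w * (w - z0) ^ n = g w := by
    have h3 := eventually_eventually_nhdsWithin.2 h1
    filter_upwards [h3, self_mem_nhdsWithin] with z h4 h5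
    have h6 : (𝓝[≠] z0) = (𝓝[≠] z0) := rfl
    have h7 : 𝓝[{z0}ᶜ] z = 𝓝 z := isOpen_compl_singleton.nhdsWithin_eq h5
    rw [h7] at h4
    exact h4
  filter_upwards [h2, hm.eventually_analyticAt, self_mem_nhdsWithin] with z h3 h4 h5
  have h6 : g =ᶠ[𝓝 z] fun w => a w * (w - z0) ^ n := by
    filter_upwards [h3] with w hw
    exact hw.symm
  have h7 : z - z0 ≠ 0 := sub_ne_zero.2 h5
  have h8 : HasDerivAt (fun w : ℂ => (w - z0) ^ n) (n * (z - z0) ^ (n - 1)) z := by
    have := ((hasDerivAt_id z).sub_const z0).fun_pow n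
    simpa using this
  have e1 : g z = a z * (z - z0) ^ n := h6.self_of_nhds
  rw [h6.deriv_eq, e1, deriv_fun_mul h4.differentiableAt h8.differentiableAt, h8.deriv]
  rcases Nat.eq_zero_or_pos n with hn | hn
  · subst hn
    simp
  · have h9 : (z - z0) ^ n = (z - z0) ^ (n - 1) * (z - z0) := by
      rw [← pow_succ, Nat.sub_add_cancel hn]
    rw [pow_succ, h9]
    ring

theorem PoleLE.logDeriv {v : ℂ → ℂ} {z0 : ℂ} (hm : MeromorphicAt v z0) :
    PoleLE 1 (_root_.logDeriv v) z0 := by
  by_cases h0 : ∀ᶠ z in 𝓝[≠] z0, v z = 0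
  · refine (PoleLE.of_an (analyticAt_const (v := (0 : ℂ))) 1).congr ?_
    have h3 := eventually_eventually_nhdsWithin.2 h0
    filter_upwards [h3, self_mem_nhdsWithin, h0] with z h4 h5 h6
    have h7 : 𝓝[{z0}ᶜ] z = 𝓝 z := isOpen_compl_singleton.nhdsWithin_eq h5
    rw [h7] at h4
    have h8 : v =ᶠ[𝓝 z] fun _ => 0 := h4
    rw [logDeriv_apply, h8.deriv_eq, deriv_const, zero_div]
  · have h1 : meromorphicOrderAt v z0 ≠ ⊤ := fun h => h0 (meromorphicOrderAt_eq_top_iff.1 h)
    obtain ⟨k, hk⟩ := WithTop.ne_top_iff_exists.1 h1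
    obtain ⟨g, hg, hg0, hvg⟩ := (meromorphicOrderAt_eq_int_iff hm).1 hk.symm
    refine ⟨fun z => k + _root_.logDeriv g z * (z - z0), ?_, ?_⟩
    · have h2 : AnalyticAt ℂ (fun z => _root_.deriv g z / g z) z0 := hg.deriv.fun_div hg hg0
      have h3 : AnalyticAt ℂ (_root_.logDeriv g) z0 := h2
      exact analyticAt_const.fun_add (h3.fun_mul (by fun_prop))
    · have h3 := eventually_eventually_nhdsWithin.2 hvg
      have h4 : ∀ᶠ z in 𝓝[≠] z0, AnalyticAt ℂ g z ∧ g z ≠ 0 :=
        nhdsWithin_le_nhds (hg.eventually_analyticAt.and (hg.continuousAt.eventually_ne hg0))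
      filter_upwards [h3, self_mem_nhdsWithin, h4] with z h5 h6 h7
      have h8 : 𝓝[{z0}ᶜ] z = 𝓝 z := isOpen_compl_singleton.nhdsWithin_eq h6
      rw [h8] at h5
      have h9 : z - z0 ≠ 0 := sub_ne_zero.2 h6
      have h10 : v =ᶠ[𝓝 z] fun w => (w - z0) ^ k * g w := by
        filter_upwards [h5] with w hw
        rw [hw, smul_eq_mul]
      have h11 : HasDerivAt (fun w : ℂ => (w - z0) ^ k) (k * (z - z0) ^ (k - 1)) z := by
        have h12 := (hasDerivAt_zpow k (z - z0) (Or.inl h9)).comp z
          ((hasDerivAt_id z).sub_const z0)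
        rw [mul_one] at h12
        exact h12
      have e2 : v z = (z - z0) ^ k * g z := h10.self_of_nhds
      rw [logDeriv_apply, h10.deriv_eq, e2,
        deriv_fun_mul h11.differentiableAt h7.1.differentiableAt, h11.deriv, logDeriv_apply, pow_one]
      have h13 : (z - z0) ^ k ≠ 0 := zpow_ne_zero _ h9
      have h14 : (z - z0) ^ k = (z - z0) ^ (k - 1) * (z - z0) := by
        rw [← zpow_add_one₀ h9]
        congr 1
        ring
      have h15 : (z - z0) ^ (k - 1) ≠ 0 := zpow_ne_zero _ h9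
      have h16 := h7.2
      rw [h14]
      field_simp

/-- **Monic operators with coefficients of small proximity** which annihilate given functions, and
bounds for the orders of the poles of the coefficients. -/
theorem operators (hδ : 0 < δ) (hδ1 : δ ≤ 1) {γ : ℂ → ℂ} (hγ : SS δ f γ)
    (hγ1 : ∀ z0 ∈ PB δ, PoleLE 1 γ z0) (y : ℕ → ℂ → ℂ) (hy : ∀ j, OO δ f (y j)) (m : ℕ) :
    ∃ c : ℕ → ℂ → ℂ, (∀ i, SS δ f (c i)) ∧ (c m = fun _ => 1) ∧ (∀ i, m < i → c i = fun _ => 0) ∧
      (∀ i ≤ m, ∀ z0 ∈ PB δ, PoleLE (m - i) (c i) z0) ∧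
      ∀ j < m, ∀ᶠ z in codiscreteWithin (PB δ),
        ∑ i ∈ Finset.range (m + 1), c i z * nb γ i (y j) z = 0 := by
  induction m with
  | zero =>
    refine ⟨fun i => if i = 0 then fun _ => 1 else fun _ => 0, fun i => ?_, by simp, fun i hi => ?_,
      fun i hi z0 _ => ?_, fun j hj => absurd hj (Nat.not_lt_zero _)⟩
    · simp only
      split_ifs
      · exact SS.const hδ f 1
      · exact SS.const hδ f 0
    · simp only
      rw [if_neg (by omega)]
    · have : i = 0 := by omega
      simp only [this, if_true]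
      exact PoleLE.of_an analyticAt_const _
  | succ m ih =>
    obtain ⟨c, hc, hcm, hcz, hcp, hk⟩ := ih
    have hcm' : ∀ i, MeromorphicOn (c i) (PB δ) := fun i => (hc i).oo.den.mero hδ
    have hγm : MeromorphicOn γ (PB δ) := hγ.oo.den.mero hδ
    have hym : ∀ j, MeromorphicOn (y j) (PB δ) := fun j => (hy j).den.mero hδ
    let L : (ℂ → ℂ) → ℂ → ℂ := fun u z => ∑ i ∈ Finset.range (m + 1), c i z * nb γ i u z
    have hv : OO δ f (L (y m)) := oo_sum hδ _ (fun i z => c i z * nb γ i (y m) z) fun i _ =>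
      (hc i).oo.mul hδ (nb_oo hδ hδ1 hγ.oo (hy m) i)
    -- the factor
    obtain ⟨b, hb, hb1, hbv⟩ : ∃ b : ℂ → ℂ, SS δ f b ∧ (∀ z0 ∈ PB δ, PoleLE 1 b z0) ∧
        ∀ᶠ z in codiscreteWithin (PB δ), deriv (L (y m)) z + γ z * L (y m) z =
          b z * L (y m) z := by
      by_cases h0 : ∀ᶠ z in codiscreteWithin (PB δ), L (y m) z = 0
      · refine ⟨fun _ => 0, SS.const hδ f 0, fun z0 _ => PoleLE.of_an analyticAt_const _, ?_⟩
        filter_upwards [h0, deriv_zero_of h0] with z h1 h2
        rw [h1, h2]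
        ring
      · refine ⟨fun z => logDeriv (L (y m)) z + γ z, (hv.logDeriv hδ hδ1 h0).add hδ hγ,
          fun z0 hz0 => (PoleLE.logDeriv (hv.den.mero hδ z0 hz0)).add (hγ1 z0 hz0), ?_⟩
        filter_upwards [mer_ne (PB_preconn hδ) (hv.den.mero hδ) h0] with z h1
        rw [logDeriv_apply]
        field_simp
    have hbm : MeromorphicOn b (PB δ) := hb.oo.den.mero hδ
    let c' : ℕ → ℂ → ℂ := fun i z =>
      (if i = 0 then 0 else c (i - 1) z) + (deriv (c i) z + (-1) * b z * c i z)
    have hneg : SS δ f fun z => (-1) * b z := (SS.const hδ f (-1)).mul hδ hb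
    have hneg1 : ∀ z0 ∈ PB δ, PoleLE 1 (fun z => (-1) * b z) z0 := by
      intro z0 hz0
      have h1 := (PoleLE.of_an (a := fun _ : ℂ => (-1 : ℂ)) (z0 := z0) analyticAt_const 0).mul
        (hb1 z0 hz0)
      rwa [zero_add] at h1
    refine ⟨c', fun i => ?_, ?_, fun i hi => ?_, fun i hi z0 hz0 => ?_, fun j hj => ?_⟩
    · refine SS.add hδ ?_ (((hc i).deriv hδ hδ1).add hδ (hneg.mul hδ (hc i)))
      by_cases h0 : i = 0
      · simp only [h0, if_true]
        exact SS.const hδ f 0
      · simp only [h0, if_false]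
        exact hc (i - 1)
    · funext z
      change (if m + 1 = 0 then 0 else c (m + 1 - 1) z) +
        (deriv (c (m + 1)) z + (-1) * b z * c (m + 1) z) = 1
      rw [hcz (m + 1) (by omega), Nat.add_sub_cancel, hcm, if_neg (Nat.succ_ne_zero m)]
      simp
    · funext z
      change (if i = 0 then 0 else c (i - 1) z) + (deriv (c i) z + (-1) * b z * c i z) = 0
      rw [hcz i (by omega), hcz (i - 1) (by omega)]
      simp
    · -- poles
      have p2 : ∀ i' ≤ m, PoleLE (m + 1 - i') (deriv (c i')) z0 ∧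
          PoleLE (m + 1 - i') (fun z => (-1) * b z * c i' z) z0 := by
        intro i' hi'
        constructor
        · have h1 := (hcp i' hi' z0 hz0).deriv (hcm' i' z0 hz0)
          exact h1.mono (by omega)
        · have h1 := (hneg1 z0 hz0).mul (hcp i' hi' z0 hz0)
          exact h1.mono (by omega)
      have p3 : PoleLE (m + 1 - i) (fun z => deriv (c i) z + (-1) * b z * c i z) z0 := by
        rcases Nat.lt_or_ge m i with h | h
        · have h1 : i = m + 1 := by omega
          have h2 : (fun z => deriv (c i) z + (-1) * b z * c i z) = fun _ => 0 := by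
            funext z
            rw [hcz i h]
            simp
          rw [h2]
          exact PoleLE.of_an analyticAt_const _
        · exact (p2 i h).1.add (p2 i h).2
      have p1 : PoleLE (m + 1 - i) (fun z => if i = 0 then 0 else c (i - 1) z) z0 := by
        by_cases h0 : i = 0
        · simp only [h0, if_true]
          exact PoleLE.of_an analyticAt_const _
        · simp only [h0, if_false]
          have h1 := hcp (i - 1) (by omega) z0 hz0
          have h2 : m - (i - 1) = m + 1 - i := by omega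
          rwa [h2] at h1
      exact p1.add p3
    · -- annihilation
      have key : ∀ u : ℂ → ℂ, MeromorphicOn u (PB δ) →
          (∀ᶠ z in codiscreteWithin (PB δ), deriv (L u) z + γ z * L u z = b z * L u z) →
          ∀ᶠ z in codiscreteWithin (PB δ),
            ∑ i ∈ Finset.range (m + 1 + 1), c' i z * nb γ i u z = 0 := by
        intro u hu hLu
        have han : ∀ᶠ z in codiscreteWithin (PB δ), ∀ i ∈ Finset.range (m + 1),
            AnalyticAt ℂ (c i) z ∧ AnalyticAt ℂ (nb γ i u) z := by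
          rw [Filter.eventually_all_finset]
          exact fun i _ => (mer_an (hcm' i)).and (mer_an (nb_mero hγm hu i))
        filter_upwards [hLu, han] with z h1 h2
        have h3 : deriv (L u) z = ∑ i ∈ Finset.range (m + 1),
            (deriv (c i) z * nb γ i u z + c i z * deriv (nb γ i u) z) := by
          have h4 : HasDerivAt (L u) (∑ i ∈ Finset.range (m + 1),
              (deriv (c i) z * nb γ i u z + c i z * deriv (nb γ i u) z)) z := by
            apply HasDerivAt.fun_sum
            intro i hi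
            exact ((h2 i hi).1.differentiableAt.hasDerivAt).mul
              ((h2 i hi).2.differentiableAt.hasDerivAt)
          exact h4.deriv
        have h5 : L u z = ∑ i ∈ Finset.range (m + 1), c i z * nb γ i u z := rfl
        have h6 : ∑ i ∈ Finset.range (m + 1 + 1), c' i z * nb γ i u z =
            (∑ i ∈ Finset.range (m + 1), c i z * nb γ (i + 1) u z) +
            ∑ i ∈ Finset.range (m + 1), (deriv (c i) z + (-1) * b z * c i z) * nb γ i u z := by
          have h7 : ∀ i, c' i z * nb γ i u z = (if i = 0 then 0 else c (i - 1) z) * nb γ i u z +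
              (deriv (c i) z + (-1) * b z * c i z) * nb γ i u z := fun i => by
            change ((if i = 0 then 0 else c (i - 1) z) +
              (deriv (c i) z + (-1) * b z * c i z)) * nb γ i u z = _
            ring
          rw [Finset.sum_congr rfl fun i _ => h7 i, Finset.sum_add_distrib]
          congr 1
          · rw [Finset.sum_range_succ']
            simp
          · rw [Finset.sum_range_succ, hcz (m + 1) (by omega)]
            simp
        rw [h6, ← Finset.sum_add_distrib]
        have h8 : ∀ i ∈ Finset.range (m + 1), c i z * nb γ (i + 1) u z +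
            (deriv (c i) z + (-1) * b z * c i z) * nb γ i u z =
            (deriv (c i) z * nb γ i u z + c i z * deriv (nb γ i u) z) +
              (γ z - b z) * (c i z * nb γ i u z) := by
          intro i _
          rw [nb_succ]
          simp only
          ring
        rw [Finset.sum_congr rfl h8, Finset.sum_add_distrib, ← Finset.mul_sum, ← h3, ← h5]
        linear_combination h1
      rcases Nat.lt_or_ge j m with h | h
      · apply key (y j) (hym j)
        have h0 : ∀ᶠ z in codiscreteWithin (PB δ), L (y j) z = 0 := hk j h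
        filter_upwards [h0, deriv_zero_of h0] with z h1 h2
        rw [h1, h2]
        ring
      · have : j = m := by omega
        rw [this]
        exact key (y m) (hym m) hbv

end Pool.Agent.Helper4K9.MP
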