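import Pool.Agent.Helper4K9.MP.Cls

/-!
The ring of the meromorphic functions which are small with respect to a curve.
-/

set_option autoImplicit false

namespace Pool.Agent.Helper4K9.MP

open Metric Set Filter Topology Pool.Agent.W603.BP Pool.Agent.Helper4K9.IP Pool.Agent.Helper4K9.AP
open Pool.Agent.H159R3.NV (avg_le_cod)

variable {N : ℕ} {δ : ℝ} {f : ℂ → Fin (N + 1) → ℂ}

theorem Gr.sum {G : (ℝ → ℝ) → Prop} (hG : Gr G) {ι : Type} (s : Finset ι) (φ : ι → ℝ → ℝ)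
    (h : ∀ i ∈ s, G (φ i)) : G fun r => ∑ i ∈ s, φ i r := by
  classical
  induction s using Finset.induction_on with
  | empty => simpa using hG.zero
  | insert a s ha ih =>
    have h1 := hG.add _ _ (h a (Finset.mem_insert_self _ _))
      (ih fun i hi => h i (Finset.mem_insert_of_mem hi))
    have h2 : (fun r => ∑ i ∈ insert a s, φ i r) = fun r => φ a r + ∑ i ∈ s, φ i r := by
      funext r
      rw [Finset.sum_insert ha]
    rw [h2]
    exact h1

/-- The meromorphic functions on the punctured disc of radius `δ` which are small with respect to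
the curve `f`: the quotients `a = b / c` of holomorphic functions on the punctured disc such that, on
the circle of radius `1 / r`, the means of `log ‖c‖` (up to `O(log r)` this is the counting function
of the zeros of `c`) and of `log⁺ ‖a‖` are, for each `ε > 0`, at most `ε |T(r)| + O(1 + log r)` for
`r ≥ 1` outside a set of finite measure, where `T` is the characteristic of `f`. -/
noncomputable def smallMer {δ : ℝ} (hδ : 0 < δ) (f : ℂ → Fin (N + 1) → ℂ) :
    Subalgebra ℂ (ℂ → ℂ) where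
  carrier := {a | Den δ (Sml f) a ∧ Sml f (mP a)}
  mul_mem' := by
    rintro a b ⟨ha, ha2⟩ ⟨hb, hb2⟩
    exact ⟨ha.mul hδ (gr_sml f) hb, gr_mP_mul hδ (gr_sml f) (ha.mero hδ) (hb.mero hδ) ha2 hb2⟩
  add_mem' := by
    rintro a b ⟨ha, ha2⟩ ⟨hb, hb2⟩
    exact ⟨ha.add hδ (gr_sml f) hb, gr_mP_add hδ (gr_sml f) (ha.mero hδ) (hb.mero hδ) ha2 hb2⟩
  algebraMap_mem' := fun c => ⟨den_an hδ (gr_sml f) fun _ _ => analyticAt_const,
    gr_mP_const (gr_sml f) c⟩

theorem mem_smallMer {hδ : 0 < δ} {a : ℂ → ℂ} :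
    a ∈ smallMer hδ f ↔ Den δ (Sml f) a ∧ Sml f (mP a) := Iff.rfl

theorem small_oo {hδ : 0 < δ} {a : ℂ → ℂ} (h : a ∈ smallMer hδ f) : OO δ f a :=
  ⟨h.1.weaken fun _ => Sml.dom, h.2.dom⟩

theorem db_smallMer (hδ : 0 < δ) (hδ1 : δ ≤ 1) (f : ℂ → Fin (N + 1) → ℂ) :
    DBOn (PB δ) (smallMer hδ f) := by
  refine ⟨fun b hb => hb.1.mero hδ, fun b hb => ⟨hb.1.deriv hδ (gr_sml f), ?_⟩⟩
  by_cases ha0 : ∀ᶠ w in codiscreteWithin (PB δ), b w = 0
  · refine (gr_sml f).mono _ _ (gr_sml f).zero ⟨0, ?_⟩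
    filter_upwards [cofin_gt δ⁻¹] with r hr
    rw [mP_congr hδ (deriv_zero_of ha0) hr]
    unfold mP
    simp [Real.circleAverage_const]
  · exact gr_mP_deriv hδ (gr_sml f) (hb.1.mero hδ) ha0 hb.2
      ((small_oo hb).logDeriv hδ hδ1 ha0).sml

theorem common_den (hδ : 0 < δ) {G : (ℝ → ℝ) → Prop} (hG : Gr G) (b : ℕ → ℂ → ℂ)
    (hb : ∀ k, Den δ G (b k)) (m : ℕ) : ∃ (c : ℂ → ℂ) (β : ℕ → ℂ → ℂ),
      AnalyticOnNhd ℂ c (PB δ) ∧ (∃ w ∈ PB δ, c w ≠ 0) ∧ G (lP c) ∧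
      ∀ k < m, AnalyticOnNhd ℂ (β k) (PB δ) ∧
        ∀ᶠ w in codiscreteWithin (PB δ), b k w * c w = β k w := by
  induction m with
  | zero =>
    obtain ⟨w, hw⟩ := PB_nonempty hδ
    refine ⟨fun _ => 1, fun _ _ => 0, fun _ _ => analyticAt_const, ⟨w, hw, one_ne_zero⟩,
      hG.mono _ _ hG.zero ⟨0, ?_⟩, fun k hk => absurd hk (Nat.not_lt_zero _)⟩
    filter_upwards with r
    unfold lP
    simp [Real.circleAverage_const]
  | succ m ih =>
    obtain ⟨c, β, hc, hc0, hgc, h⟩ := ih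
    obtain ⟨b', c', hb', hc', hc0', habc', hgc'⟩ := hb m
    refine ⟨fun w => c w * c' w, fun k w => if k = m then b' w * c w else β k w * c' w,
      an_mul hc hc', mul_nz hδ hc hc' hc0 hc0', gr_lP_mul hδ hG hc hc' hc0 hc0' hgc hgc', ?_⟩
    intro k hk
    by_cases hkm : k = m
    · simp only [hkm, if_true]
      refine ⟨an_mul hb' hc, ?_⟩
      filter_upwards [habc'] with w hw
      rw [← hw]
      ring
    · simp only [hkm, if_false]
      obtain ⟨h1, h2⟩ := h k (by omega)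
      refine ⟨an_mul h1 hc', ?_⟩
      filter_upwards [h2] with w hw
      rw [← hw]
      ring

/-- the leading coefficient of an algebraic relation -/
theorem top_bound (hδ : 0 < δ) {u v : ℂ → ℂ}
    (hu : AnalyticOnNhd ℂ u (PB δ)) (hv : AnalyticOnNhd ℂ v (PB δ)) (hv0 : ∃ w ∈ PB δ, v w ≠ 0)
    (h : AlgRatioOn (PB δ) (smallMer hδ f) u v) :
    ∃ (l : ℕ) (b β : ℕ → ℂ → ℂ) (c : ℂ → ℂ), (∀ k, b k ∈ smallMer hδ f) ∧
      AnalyticOnNhd ℂ c (PB δ) ∧ (∃ w ∈ PB δ, c w ≠ 0) ∧ Sml f (lP c) ∧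
      (∀ k ∈ Finset.range (l + 1), AnalyticOnNhd ℂ (β k) (PB δ) ∧
        ∀ᶠ w in codiscreteWithin (PB δ), b k w * c w = β k w) ∧
      (∃ w ∈ PB δ, β l w ≠ 0) ∧
      ∀ w ∈ PB δ, ‖β l w‖ * ‖u w‖ ≤ (∑ k ∈ Finset.range (l + 1), ‖β k w‖) * ‖v w‖ := by
  classical
  obtain ⟨m, b, hb, ⟨k0, hk0, hbk⟩, hs⟩ := h
  obtain ⟨c, β, hc, hc0, hgc, hβ⟩ := common_den hδ (gr_sml f) b (fun k => (hb k).1) (m + 1)
  have hcn := an_ne hδ hc hc0
  let T := (Finset.range (m + 1)).filter fun k => ¬ ∀ᶠ z in codiscreteWithin (PB δ), b k z = 0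
  have hT : T.Nonempty :=
    ⟨k0, Finset.mem_filter.mpr ⟨Finset.mem_range.mpr (Nat.lt_succ_of_le hk0), hbk⟩⟩
  set l := T.max' hT with hl
  have hlT : l ∈ T := T.max'_mem hT
  have hlm : l ≤ m := Nat.lt_succ_iff.mp (Finset.mem_range.mp (Finset.mem_filter.mp hlT).1)
  have hbig : ∀ᶠ z in codiscreteWithin (PB δ), ∀ k ∈ Finset.range (m + 1), l < k → b k z = 0 := by
    rw [Filter.eventually_all_finset]
    intro k hk
    by_cases hlk : l < k
    · have h1 : ∀ᶠ z in codiscreteWithin (PB δ), b k z = 0 := by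
        by_contra hcon
        have : k ∈ T := Finset.mem_filter.mpr ⟨hk, hcon⟩
        exact absurd (T.le_max' k this) (not_le.mpr hlk)
      filter_upwards [h1] with z hz _
      exact hz
    · exact Eventually.of_forall fun z h => absurd h hlk
  have hβl : ∀ k ∈ Finset.range (l + 1), AnalyticOnNhd ℂ (β k) (PB δ) ∧
      ∀ᶠ w in codiscreteWithin (PB δ), b k w * c w = β k w := by
    intro k hk
    rw [Finset.mem_range] at hk
    exact hβ k (by omega)
  have hvne : ∀ᶠ z in codiscreteWithin (PB δ), v z ≠ 0 := an_ne hδ hv hv0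
  refine ⟨l, b, β, c, hb, hc, hc0, hgc, hβl, ?_, ?_⟩
  · obtain ⟨h1, h2⟩ := hβl l (Finset.mem_range.2 (Nat.lt_succ_self _))
    exact nz_of_cd hδ (Finset.mem_filter.mp hlT).2 hc hc0 h2
  have hcu : ContinuousOn (fun w => ‖β l w‖ * ‖u w‖) (PB δ) :=
    (hβl l (Finset.mem_range.2 (Nat.lt_succ_self _))).1.continuousOn.norm.mul hu.continuousOn.norm
  have hcv : ContinuousOn (fun w => (∑ k ∈ Finset.range (l + 1), ‖β k w‖) * ‖v w‖) (PB δ) :=
    (continuousOn_finsetSum _ fun k hk => (hβl k hk).1.continuousOn.norm).mul hv.continuousOn.norm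
  refine le_of_cod hcu hcv ?_
  have hβe : ∀ᶠ z in codiscreteWithin (PB δ), ∀ k ∈ Finset.range (l + 1),
      b k z * c z = β k z := by
    rw [Filter.eventually_all_finset]
    exact fun k hk => (hβl k hk).2
  filter_upwards [hs, hbig, hvne, hβe] with z h1 h2 h3 h5
  refine pt_bound (fun k => β k z) (u z) (v z) ?_
  have h4 : v z ^ (m - l) * ∑ k ∈ Finset.range (l + 1), β k z * u z ^ k * v z ^ (l - k) = 0 := by
    have h6 : c z * ∑ k ∈ Finset.range (m + 1), b k z * u z ^ k * v z ^ (m - k) = 0 := by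
      rw [h1, mul_zero]
    rw [← h6, Finset.mul_sum, Finset.mul_sum]
    have hsub : Finset.range (l + 1) ⊆ Finset.range (m + 1) := by
      intro k hk
      rw [Finset.mem_range] at hk ⊢
      omega
    rw [← Finset.sum_subset hsub (f := fun k => c z * (b k z * u z ^ k * v z ^ (m - k)))]
    · refine Finset.sum_congr rfl fun k hk => ?_
      have hk' : k ≤ l := Nat.lt_succ_iff.mp (Finset.mem_range.mp hk)
      have : m - k = (m - l) + (l - k) := by omega
      rw [this, pow_add, ← h5 k hk]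
      ring
    · intro k hk hk'
      have : l < k := by
        rw [Finset.mem_range] at hk'
        omega
      rw [h2 k hk this]
      ring
  exact (mul_eq_zero.1 h4).resolve_left (pow_ne_zero _ h3)

/-- **Growth of curves which are algebraic over the ring of small functions.** -/
theorem growth_of_alg (hδ : 0 < δ) (hδ1 : δ ≤ 1)
    (han : ∀ j, AnalyticOnNhd ℂ (fun w => f w j) (PB δ)) (hne : ∀ w ∈ PB δ, f w ≠ 0)
    (halg : ∀ i j, AlgRatioOn (PB δ) (smallMer hδ f) (fun w => f w i) fun w => f w j) :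
    ∃ C : ℝ, ∀ᶠ r in cofin, TP f r ≤ C * (1 + Real.log r) := by
  classical
  obtain ⟨w0, hw0⟩ := PB_nonempty hδ
  obtain ⟨j0, hj0⟩ := Function.ne_iff.1 (hne w0 hw0)
  have hj0' : f w0 j0 ≠ 0 := hj0
  choose l b βf cf hb hcan hc0 hcs hβf hbl hbd using fun i =>
    top_bound hδ (han i) (han j0) ⟨w0, hw0, hj0'⟩ (halg i j0)
  have hβan : ∀ i, ∀ k ∈ Finset.range (l i + 1), AnalyticOnNhd ℂ (βf i k) (PB δ) :=
    fun i k hk => (hβf i k hk).1
  have hlr : ∀ i, l i ∈ Finset.range (l i + 1) := fun i => Finset.mem_range.2 (Nat.lt_succ_self _)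
  -- the product of the leading coefficients
  obtain ⟨hβan', hβne⟩ : AnalyticOnNhd ℂ (fun w => ∏ i, βf i (l i) w) (PB δ) ∧
      ∃ w ∈ PB δ, ∏ i, βf i (l i) w ≠ 0 := by
    constructor
    · intro w hw
      have h1 : AnalyticAt ℂ (∏ i, βf i (l i)) w :=
        Finset.analyticAt_prod _ fun i _ => hβan i (l i) (hlr i) w hw
      have h2 : (∏ i, βf i (l i)) = fun w => ∏ i, βf i (l i) w := by
        funext w
        rw [Finset.prod_apply]
      rwa [h2] at h1
    · have h1 : ∀ i, ∀ᶠ z in codiscreteWithin (PB δ), βf i (l i) z ≠ 0 := fun i =>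
        an_ne hδ (hβan i (l i) (hlr i)) (hbl i)
      obtain ⟨w, hw, hw2⟩ := cd_exists (PB_open δ) (PB_nonempty hδ) (eventually_all.2 h1)
      exact ⟨w, hw, Finset.prod_ne_zero_iff.2 fun i _ => hw2 i⟩
  set β : ℂ → ℂ := fun w => ∏ i, βf i (l i) w with hβ
  set Φ : ℂ → ℝ := fun w => ∏ i, ∑ k ∈ Finset.range (l i + 1), ‖βf i k w‖ with hΦ
  have hΦc : ContinuousOn Φ (PB δ) :=
    continuousOn_finsetProd _ fun i _ => continuousOn_finsetSum _ fun k hk =>
      (hβan i k hk).continuousOn.norm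
  have hfc : ContinuousOn f (PB δ) := continuousOn_pi.2 fun j => (han j).continuousOn
  have hmain : ∀ w ∈ PB δ, ‖β w‖ * ‖f w‖ ≤ Φ w * ‖f w j0‖ := by
    intro w hw
    have h1 : ∀ i, ‖β w‖ * ‖f w i‖ ≤ Φ w * ‖f w j0‖ := by
      intro i
      have e1 : ‖β w‖ = (∏ i' ∈ Finset.univ.erase i, ‖βf i' (l i') w‖) * ‖βf i (l i) w‖ := by
        rw [hβ]
        simp only
        rw [norm_prod, Finset.prod_erase_mul _ _ (Finset.mem_univ i)]
      have e2 : Φ w = (∏ i' ∈ Finset.univ.erase i, ∑ k ∈ Finset.range (l i' + 1), ‖βf i' k w‖) *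
          ∑ k ∈ Finset.range (l i + 1), ‖βf i k w‖ := by
        rw [hΦ]
        simp only
        rw [Finset.prod_erase_mul _ _ (Finset.mem_univ i)]
      rw [e1, e2, mul_assoc, mul_assoc]
      have h2 : ∏ i' ∈ Finset.univ.erase i, ‖βf i' (l i') w‖ ≤
          ∏ i' ∈ Finset.univ.erase i, ∑ k ∈ Finset.range (l i' + 1), ‖βf i' k w‖ := by
        apply Finset.prod_le_prod (fun _ _ => norm_nonneg _)
        intro i' _
        exact Finset.single_le_sum (f := fun k => ‖βf i' k w‖) (fun _ _ => norm_nonneg _)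
          (Finset.mem_range.2 (Nat.lt_succ_self _))
      exact mul_le_mul h2 (hbd i w hw) (by positivity)
        (Finset.prod_nonneg fun _ _ => Finset.sum_nonneg fun _ _ => norm_nonneg _)
    have h2 : ‖β w • f w‖ ≤ Φ w * ‖f w j0‖ := by
      rw [pi_norm_le_iff_of_nonneg (mul_nonneg (Finset.prod_nonneg fun _ _ =>
        Finset.sum_nonneg fun _ _ => norm_nonneg _) (norm_nonneg _))]
      intro i
      rw [Pi.smul_apply, smul_eq_mul, norm_mul]
      exact h1 i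
    rwa [norm_smul] at h2
  have hfj : ∀ᶠ z in codiscreteWithin (PB δ), f z j0 ≠ 0 := an_ne hδ (han j0) ⟨w0, hw0, hj0'⟩
  -- the quotient is holomorphic
  obtain ⟨s, hs, hsf⟩ := removable' (V := PB δ) (f := fun w => β w / f w j0) (by
    intro w hw
    filter_upwards [cd_ev (PB_open δ) hfj hw,
      nhdsWithin_le_nhds ((PB_open δ).mem_nhds hw)] with z h1 h2
    exact (hβan' z h2).differentiableAt.div (han j0 z h2).differentiableAt h1) (by
    intro w hw
    have hO := (PB_open δ).mem_nhds hw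
    have h1 : ContinuousAt (fun z => Φ z / ‖f z‖) w := by
      apply ContinuousAt.div ((hΦc w hw).continuousAt hO) ((hfc w hw).continuousAt hO).norm
      exact norm_ne_zero_iff.2 (hne w hw)
    refine ⟨Φ w / ‖f w‖ + 1, ?_⟩
    have h2 : ∀ᶠ z in 𝓝 w, Φ z / ‖f z‖ < Φ w / ‖f w‖ + 1 :=
      h1.eventually_lt continuousAt_const (by simp)
    filter_upwards [cd_ev (PB_open δ) hfj hw, nhdsWithin_le_nhds hO,
      nhdsWithin_le_nhds h2] with z h3 h4 h5
    refine le_trans ?_ h5.le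
    have h6 : 0 < ‖f z j0‖ := norm_pos_iff.2 h3
    have h7 : 0 < ‖f z‖ := norm_pos_iff.2 (hne z h4)
    rw [norm_div, div_le_div_iff₀ h6 h7]
    exact hmain z h4)
  have hsβ : ∀ w ∈ PB δ, f w j0 ≠ 0 → s w = β w / f w j0 := by
    intro w hw h0
    exact hsf w hw ((hβan' w hw).continuousAt.div (han j0 w hw).continuousAt h0)
  have hsne : ∃ w ∈ PB δ, s w ≠ 0 := by
    obtain ⟨w, hw, h2, h3⟩ := cd_exists (PB_open δ) (PB_nonempty hδ)
      ((an_ne hδ hβan' hβne).and hfj)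
    exact ⟨w, hw, by rw [hsβ w hw h3]; exact div_ne_zero h2 h3⟩
  have hsΦ : ∀ w ∈ PB δ, ‖s w‖ * ‖f w‖ ≤ Φ w := by
    refine le_of_cod (hs.continuousOn.norm.mul hfc.norm) hΦc ?_
    filter_upwards [hfj, cd_self (Ω := PB δ)] with z h1 h2
    rw [hsβ z h2 h1, norm_div, div_mul_eq_mul_div, div_le_iff₀ (norm_pos_iff.2 h1)]
    exact hmain z h2
  -- mean values
  obtain ⟨C1, hC1, hlow⟩ := low_mean hδ hδ1 hs hsne
  let A : Finset (Σ _ : Fin (N + 1), ℕ) := Finset.univ.sigma fun i => Finset.range (l i + 1)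
  set K : ℝ := ∑ i : Fin (N + 1), Real.log (l i + 1) with hK
  have hK0 : 0 ≤ K := Finset.sum_nonneg fun i _ => Real.log_nonneg (by
    have : (0 : ℝ) ≤ l i := Nat.cast_nonneg _
    linarith)
  have hφ : Sml f fun r => (∑ i, lP (cf i) r) + ∑ p ∈ A, mP (b p.1 p.2) r :=
    (gr_sml f).add _ _ ((gr_sml f).sum _ _ fun i _ => hcs i) ((gr_sml f).sum _ _ fun p _ =>
      (hb p.1 p.2).2)
  obtain ⟨C2, hC2⟩ := hφ (1 / 2) (by norm_num)
  refine ⟨2 * (K + |C2| + C1), ?_⟩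
  have hall : ∀ᶠ w in codiscreteWithin (PB δ), ∀ p ∈ A,
      b p.1 p.2 w * cf p.1 w = βf p.1 p.2 w := by
    rw [Filter.eventually_all_finset]
    intro p hp
    exact (hβf p.1 p.2 (Finset.mem_sigma.1 hp).2).2
  have hcne : ∀ᶠ w in codiscreteWithin (PB δ), ∀ i, cf i w ≠ 0 :=
    eventually_all.2 fun i => an_ne hδ (hcan i) (hc0 i)
  filter_upwards [hC2, hlow, cofin_gt δ⁻¹, cofin_gt 1] with r h1 h2 h3 h4
  have hr0 : 0 < r := by linarith
  have hlr' : 0 ≤ Real.log r := Real.log_nonneg h4.le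
  have hd0 : 0 < δ⁻¹ := inv_pos.2 hδ
  have ciT : CircleIntegrable (fun z => Real.log ‖f z⁻¹‖) 0 r := by
    apply ContinuousOn.circleIntegrable hr0.le
    intro z hz
    rw [← abs_of_pos hr0] at hz
    obtain ⟨h5, h6⟩ := sph_ext hd0.le h3 hz
    have h7 := inv_mem_PB hδ h5
    have h8 : ContinuousAt (fun z : ℂ => f z⁻¹) z :=
      ContinuousAt.comp (g := f) (f := fun z : ℂ => z⁻¹)
        ((hfc _ h7).continuousAt ((PB_open δ).mem_nhds h7))
        (continuousAt_inv₀ (ext_ne_zero hd0.le h5))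
    exact (h8.norm.log (norm_ne_zero_iff.2 (hne _ h7))).continuousWithinAt
  have ciA : ∀ p ∈ A, CircleIntegrable (fun z => Real.posLog ‖b p.1 p.2 z⁻¹‖) 0 r :=
    fun p _ => ci_mPm hδ ((hb p.1 p.2).1.mero hδ) h3
  have ciC : ∀ i ∈ (Finset.univ : Finset (Fin (N + 1))),
      CircleIntegrable (fun z => Real.log ‖cf i z⁻¹‖) 0 r :=
    fun i _ => ci_lPm hδ (an_mer (hcan i)) h3
  have ciS := ci_lP hδ hs h3
  have ciB : CircleIntegrable (fun z => ∑ p ∈ A, Real.posLog ‖b p.1 p.2 z⁻¹‖) 0 r :=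
    CircleIntegrable.fun_sum _ ciA
  have ciD : CircleIntegrable (fun z => ∑ i, Real.log ‖cf i z⁻¹‖) 0 r :=
    CircleIntegrable.fun_sum _ ciC
  have ciE : CircleIntegrable (fun z => (∑ i, Real.log ‖cf i z⁻¹‖) +
      ∑ p ∈ A, Real.posLog ‖b p.1 p.2 z⁻¹‖) 0 r := ciD.add ciB
  have ciK : CircleIntegrable (fun z => K + ((∑ i, Real.log ‖cf i z⁻¹‖) +
      ∑ p ∈ A, Real.posLog ‖b p.1 p.2 z⁻¹‖)) 0 r :=
    (circleIntegrable_const _ _ _).add ciE
  have h5 : TP f r ≤ Real.circleAverage (fun z => (K + ((∑ i, Real.log ‖cf i z⁻¹‖) +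
      ∑ p ∈ A, Real.posLog ‖b p.1 p.2 z⁻¹‖)) - Real.log ‖s z⁻¹‖) 0 r := by
    unfold TP
    apply avg_le_cod ciT (ciK.sub ciS) hr0.ne'
    filter_upwards [cod_circle hδ hs hsne h3, cod_mem r, cd_circle hδ hall h3,
      cd_circle hδ hcne h3] with z h6 h7 hz1 hz2
    obtain ⟨h8, h9⟩ := sph_ext hd0.le h3 h7
    have h10 := inv_mem_PB hδ h8
    change Real.log ‖f z⁻¹‖ ≤ (K + ((∑ i, Real.log ‖cf i z⁻¹‖) +
      ∑ p ∈ A, Real.posLog ‖b p.1 p.2 z⁻¹‖)) - Real.log ‖s z⁻¹‖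
    have h11 : 0 < ‖s z⁻¹‖ := norm_pos_iff.2 h6
    have h12 : 0 < ‖f z⁻¹‖ := norm_pos_iff.2 (hne _ h10)
    have h13 : Real.log ‖s z⁻¹‖ + Real.log ‖f z⁻¹‖ ≤ Real.log (Φ z⁻¹) := by
      rw [← Real.log_mul h11.ne' h12.ne']
      exact Real.log_le_log (by positivity) (hsΦ _ h10)
    have hΦ0 : 0 < Φ z⁻¹ := lt_of_lt_of_le (by positivity) (hsΦ _ h10)
    have h14 : Real.log (Φ z⁻¹) ≤ K + ((∑ i, Real.log ‖cf i z⁻¹‖) +
        ∑ p ∈ A, Real.posLog ‖b p.1 p.2 z⁻¹‖) := by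
      have hne' : ∀ i ∈ (Finset.univ : Finset (Fin (N + 1))),
          ∑ k ∈ Finset.range (l i + 1), ‖βf i k z⁻¹‖ ≠ 0 :=
        Finset.prod_ne_zero_iff.1 hΦ0.ne'
      rw [hΦ]
      simp only
      rw [Real.log_prod hne', hK, Finset.sum_sigma, ← Finset.sum_add_distrib,
        ← Finset.sum_add_distrib]
      refine Finset.sum_le_sum fun i hi => ?_
      have e1 : ∑ k ∈ Finset.range (l i + 1), ‖βf i k z⁻¹‖ =
          ‖cf i z⁻¹‖ * ∑ k ∈ Finset.range (l i + 1), ‖b i k z⁻¹‖ := by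
        rw [Finset.mul_sum]
        refine Finset.sum_congr rfl fun k hk => ?_
        rw [← hz1 ⟨i, k⟩ (Finset.mem_sigma.2 ⟨hi, hk⟩), norm_mul, mul_comm]
      have e2 : ∑ k ∈ Finset.range (l i + 1), ‖b i k z⁻¹‖ ≠ 0 := by
        intro h0
        apply hne' i hi
        rw [e1, h0, mul_zero]
      rw [e1, Real.log_mul (norm_ne_zero_iff.2 (hz2 i)) e2]
      have e3 : Real.log (∑ k ∈ Finset.range (l i + 1), ‖b i k z⁻¹‖) ≤
          Real.posLog (∑ k ∈ Finset.range (l i + 1), ‖b i k z⁻¹‖) :=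
        Pool.Agent.H159R3.NV.log_le_posLog _
      have e4 := Real.posLog_sum (Finset.range (l i + 1)) fun k => ‖b i k z⁻¹‖
      rw [Finset.card_range] at e4
      push_cast at e4
      linarith
    linarith
  rw [Real.circleAverage_fun_sub ciK ciS, Real.circleAverage_fun_add (circleIntegrable_const _ _ _)
    ciE, Real.circleAverage_const, Real.circleAverage_fun_add ciD ciB,
    Real.circleAverage_fun_sum ciA, Real.circleAverage_fun_sum ciC] at h5
  have h6 : TP f r ≤ K + ((∑ i, lP (cf i) r) + ∑ p ∈ A, mP (b p.1 p.2) r) -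
      Real.circleAverage (fun z => Real.log ‖s z⁻¹‖) 0 r := h5
  have h7 : C2 * (1 + Real.log r) ≤ |C2| * (1 + Real.log r) :=
    mul_le_mul_of_nonneg_right (le_abs_self _) (by linarith)
  have h8 : TP f r ≤ 1 / 2 * |TP f r| + (K + |C2| + C1) * (1 + Real.log r) := by
    have h9 : 0 ≤ K * Real.log r := by positivity
    have h10 : (K + |C2| + C1) * (1 + Real.log r) = K + K * Real.log r + |C2| * (1 + Real.log r) +
      C1 * (1 + Real.log r) := by ring
    rw [h10]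
    linarith
  have h9 : 0 ≤ (K + |C2| + C1) * (1 + Real.log r) := by positivity
  rcases le_total 0 (TP f r) with h10 | h10
  · rw [abs_of_nonneg h10] at h8
    linarith
  · linarith

end Pool.Agent.Helper4K9.MP
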