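import Pool.Agent.Helper4K9.MP.Ops

/-!
Twisted Wronskians.
-/

set_option autoImplicit false

namespace Pool.Agent.Helper4K9.MP

open Metric Set Filter Topology Pool.Agent.W603.BP Pool.Agent.Helper4K9.IP Pool.Agent.Helper4K9.AP

variable {N : ℕ} {δ : ℝ} {f : ℂ → Fin (N + 1) → ℂ} {m : ℕ}

/-- the twisted Wronskian -/
noncomputable def wd (γ : ℂ → ℂ) (u : Fin m → ℂ → ℂ) (z : ℂ) : ℂ :=
  Matrix.det (Matrix.of fun i j : Fin m => nb γ (i : ℕ) (u j) z)

/-- the coefficients of the iterates of the twisted derivative -/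
noncomputable def pp (γ : ℂ → ℂ) : ℕ → ℕ → ℂ → ℂ
  | 0, l => fun _ => if l = 0 then 1 else 0
  | i + 1, l => fun z => (if l = 0 then 0 else pp γ i (l - 1) z) +
      (deriv (pp γ i l) z + γ z * pp γ i l z)

theorem pp_zero (γ : ℂ → ℂ) (i : ℕ) : ∀ l, i < l → pp γ i l = fun _ => 0 := by
  induction i with
  | zero =>
    intro l hl
    funext z
    change (if l = 0 then (1 : ℂ) else 0) = 0
    rw [if_neg (by omega)]
  | succ i ih =>
    intro l hl
    funext z
    change (if l = 0 then 0 else pp γ i (l - 1) z) + (deriv (pp γ i l) z + γ z * pp γ i l z) = 0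
    rw [ih l (by omega), ih (l - 1) (by omega)]
    simp

theorem pp_self (γ : ℂ → ℂ) (i : ℕ) : pp γ i i = fun _ => 1 := by
  induction i with
  | zero =>
    funext z
    change (if (0 : ℕ) = 0 then (1 : ℂ) else 0) = 1
    rw [if_pos rfl]
  | succ i ih =>
    funext z
    change (if i + 1 = 0 then 0 else pp γ i (i + 1 - 1) z) +
      (deriv (pp γ i (i + 1)) z + γ z * pp γ i (i + 1) z) = 1
    rw [pp_zero γ i (i + 1) (Nat.lt_succ_self i), Nat.add_sub_cancel, ih,
      if_neg (Nat.succ_ne_zero i)]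
    simp

theorem pp_mero {γ : ℂ → ℂ} (hγ : MeromorphicOn γ (PB δ)) (i : ℕ) :
    ∀ l, MeromorphicOn (pp γ i l) (PB δ) := by
  induction i with
  | zero => exact fun l x _ => MeromorphicAt.const _ x
  | succ i ih =>
    intro l
    have h1 : MeromorphicOn (fun z => if l = 0 then 0 else pp γ i (l - 1) z) (PB δ) := by
      by_cases h0 : l = 0
      · simp only [h0, if_true]
        exact fun x _ => MeromorphicAt.const _ x
      · simp only [h0, if_false]
        exact ih (l - 1)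
    exact h1.add ((ih l).deriv.add (hγ.mul (ih l)))

theorem nb_expand {γ u : ℂ → ℂ} (hγ : MeromorphicOn γ (PB δ)) (hu : MeromorphicOn u (PB δ))
    (i : ℕ) : ∀ᶠ z in codiscreteWithin (PB δ),
      nb γ i u z = ∑ l ∈ Finset.range (i + 1), pp γ i l z * nb (fun _ => 0) l u z := by
  have h0m : MeromorphicOn (fun _ : ℂ => (0 : ℂ)) (PB δ) := fun x _ => MeromorphicAt.const _ x
  induction i with
  | zero =>
    refine Eventually.of_forall fun z => ?_
    rw [Finset.sum_range_one, pp_self]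
    simp only [one_mul]
    rfl
  | succ i ih =>
    have han : ∀ᶠ z in codiscreteWithin (PB δ), ∀ l ∈ Finset.range (i + 1),
        AnalyticAt ℂ (pp γ i l) z ∧ AnalyticAt ℂ (nb (fun _ => 0) l u) z := by
      rw [Filter.eventually_all_finset]
      exact fun l _ => (mer_an (pp_mero hγ i l)).and (mer_an (nb_mero h0m hu l))
    filter_upwards [ih, cd_deriv ih, han] with z h1 h2 h3
    have h4 : HasDerivAt (fun z => ∑ l ∈ Finset.range (i + 1), pp γ i l z * nb (fun _ => 0) l u z)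
        (∑ l ∈ Finset.range (i + 1), (deriv (pp γ i l) z * nb (fun _ => 0) l u z +
          pp γ i l z * deriv (nb (fun _ => 0) l u) z)) z := by
      apply HasDerivAt.fun_sum
      intro l hl
      exact ((h3 l hl).1.differentiableAt.hasDerivAt).mul
        ((h3 l hl).2.differentiableAt.hasDerivAt)
    rw [nb_succ]
    simp only
    rw [h2, h4.deriv, h1]
    have h7 : ∀ l, pp γ (i + 1) l z * nb (fun _ => 0) l u z =
        (if l = 0 then 0 else pp γ i (l - 1) z) * nb (fun _ => 0) l u z +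
        (deriv (pp γ i l) z + γ z * pp γ i l z) * nb (fun _ => 0) l u z := fun l => by
      change ((if l = 0 then 0 else pp γ i (l - 1) z) +
        (deriv (pp γ i l) z + γ z * pp γ i l z)) * nb (fun _ => 0) l u z = _
      ring
    have h10 : ∑ l ∈ Finset.range (i + 1 + 1), pp γ (i + 1) l z * nb (fun _ => 0) l u z =
        (∑ l ∈ Finset.range (i + 1 + 1), (if l = 0 then 0 else pp γ i (l - 1) z) *
          nb (fun _ => 0) l u z) + ∑ l ∈ Finset.range (i + 1 + 1),
          (deriv (pp γ i l) z + γ z * pp γ i l z) * nb (fun _ => 0) l u z := by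
      rw [← Finset.sum_add_distrib]
      exact Finset.sum_congr rfl fun l _ => h7 l
    have h8 : ∑ l ∈ Finset.range (i + 1 + 1), (if l = 0 then 0 else pp γ i (l - 1) z) *
        nb (fun _ => 0) l u z = ∑ l ∈ Finset.range (i + 1), pp γ i l z *
          nb (fun _ => 0) (l + 1) u z := by
      rw [Finset.sum_range_succ']
      simp
    have h9 : ∑ l ∈ Finset.range (i + 1 + 1), (deriv (pp γ i l) z + γ z * pp γ i l z) *
        nb (fun _ => 0) l u z = ∑ l ∈ Finset.range (i + 1),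
          (deriv (pp γ i l) z + γ z * pp γ i l z) * nb (fun _ => 0) l u z := by
      rw [Finset.sum_range_succ, pp_zero γ i (i + 1) (Nat.lt_succ_self i)]
      simp
    rw [h10, h8, h9, Finset.mul_sum, ← Finset.sum_add_distrib, ← Finset.sum_add_distrib]
    refine Finset.sum_congr rfl fun l _ => ?_
    rw [nb_succ]
    simp only
    ring

/-- the twist does not change the Wronskian -/
theorem wd_twist {γ : ℂ → ℂ} (hγ : MeromorphicOn γ (PB δ)) {u : Fin m → ℂ → ℂ}
    (hu : ∀ j, MeromorphicOn (u j) (PB δ)) :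
    ∀ᶠ z in codiscreteWithin (PB δ), wd γ u z = wd (fun _ => 0) u z := by
  have h1 : ∀ᶠ z in codiscreteWithin (PB δ), ∀ i j : Fin m, nb γ (i : ℕ) (u j) z =
      ∑ l ∈ Finset.range ((i : ℕ) + 1), pp γ i l z * nb (fun _ => 0) l (u j) z :=
    eventually_all.2 fun i => eventually_all.2 fun j => nb_expand hγ (hu j) i
  filter_upwards [h1] with z hz
  let P : Matrix (Fin m) (Fin m) ℂ := Matrix.of fun i l => pp γ (i : ℕ) (l : ℕ) z
  have h2 : (Matrix.of fun i j : Fin m => nb γ (i : ℕ) (u j) z) =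
      P * Matrix.of fun i j : Fin m => nb (fun _ => 0) (i : ℕ) (u j) z := by
    ext i j
    rw [Matrix.mul_apply]
    change nb γ (i : ℕ) (u j) z = ∑ l : Fin m, pp γ (i : ℕ) (l : ℕ) z *
      nb (fun _ => 0) (l : ℕ) (u j) z
    rw [hz i j, Fin.sum_univ_eq_sum_range (fun l => pp γ (i : ℕ) l z * nb (fun _ => 0) l (u j) z) m]
    apply Finset.sum_subset
    · intro l hl
      rw [Finset.mem_range] at hl ⊢
      omega
    · intro l _ hl
      rw [Finset.mem_range, not_lt] at hl
      rw [pp_zero γ i l (by omega)]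
      simp
  have h3 : P.det = 1 := by
    rw [Matrix.det_of_isLowerTriangular]
    · apply Finset.prod_eq_one
      intro i _
      change pp γ (i : ℕ) (i : ℕ) z = 1
      rw [pp_self]
    · intro i l hil
      have : (i : ℕ) < (l : ℕ) := hil
      change pp γ (i : ℕ) (l : ℕ) z = 0
      rw [pp_zero γ i l this]
  unfold wd
  rw [h2, Matrix.det_mul, h3, one_mul]

/-- change of the gauge -/
theorem wd_gauge (hδ : 0 < δ) {γ g : ℂ → ℂ} (hγ : MeromorphicOn γ (PB δ))
    (hg : MeromorphicOn g (PB δ)) (hg0 : ¬ ∀ᶠ w in codiscreteWithin (PB δ), g w = 0)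
    {u : Fin m → ℂ → ℂ} (hu : ∀ j, MeromorphicOn (u j) (PB δ)) :
    ∀ᶠ z in codiscreteWithin (PB δ), wd γ (fun j z => g z * u j z) z =
      g z ^ m * wd (fun z => γ z + logDeriv g z) u z := by
  have h1 : ∀ᶠ z in codiscreteWithin (PB δ), ∀ i j : Fin m,
      nb γ (i : ℕ) (fun z => g z * u j z) z =
      g z * nb (fun z => γ z + logDeriv g z) (i : ℕ) (u j) z :=
    eventually_all.2 fun i => eventually_all.2 fun j => nb_gauge hδ hγ hg hg0 (hu j) i
  filter_upwards [h1] with z hz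
  unfold wd
  have h2 : (Matrix.of fun i j : Fin m => nb γ (i : ℕ) (fun z => g z * u j z) z) =
      g z • Matrix.of fun i j : Fin m => nb (fun z => γ z + logDeriv g z) (i : ℕ) (u j) z := by
    ext i j
    exact hz i j
  rw [h2, Matrix.det_smul, Fintype.card_fin]

theorem wd_congr {γ γ' : ℂ → ℂ} {u u' : Fin m → ℂ → ℂ}
    (hγ : ∀ᶠ w in codiscreteWithin (PB δ), γ w = γ' w)
    (h : ∀ j, ∀ᶠ w in codiscreteWithin (PB δ), u j w = u' j w) :
    ∀ᶠ z in codiscreteWithin (PB δ), wd γ u z = wd γ' u' z := by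
  have h1 : ∀ᶠ z in codiscreteWithin (PB δ), ∀ i j : Fin m,
      nb γ (i : ℕ) (u j) z = nb γ' (i : ℕ) (u' j) z :=
    eventually_all.2 fun i => eventually_all.2 fun j => nb_congr hγ (h j) i
  filter_upwards [h1] with z hz
  unfold wd
  congr 1
  ext i j
  exact hz i j

/-- **the Wronskian in homogeneous coordinates** -/
theorem wd_quot (hδ : 0 < δ) {g : ℂ → ℂ}
    (hg : MeromorphicOn g (PB δ)) (hg0 : ¬ ∀ᶠ w in codiscreteWithin (PB δ), g w = 0)
    {u : Fin m → ℂ → ℂ} (hu : ∀ j, MeromorphicOn (u j) (PB δ)) :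
    ∀ᶠ z in codiscreteWithin (PB δ), wd (fun _ => 0) u z =
      g z ^ m * wd (fun _ => 0) (fun j z => u j z / g z) z := by
  have h0m : MeromorphicOn (fun _ : ℂ => (0 : ℂ)) (PB δ) := fun x _ => MeromorphicAt.const _ x
  have hy : ∀ j, MeromorphicOn (fun z => u j z / g z) (PB δ) := fun j => (hu j).div hg
  have hγ' : MeromorphicOn (fun z => (fun _ : ℂ => (0 : ℂ)) z + logDeriv g z) (PB δ) :=
    h0m.add (hg.deriv.div hg)
  have h1 : ∀ᶠ z in codiscreteWithin (PB δ), wd (fun _ => 0) u z =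
      wd (fun _ => 0) (fun j z => g z * (u j z / g z)) z := by
    apply wd_congr (Eventually.of_forall fun _ => rfl)
    intro j
    filter_upwards [mer_ne (PB_preconn hδ) hg hg0] with z hz
    field_simp
  filter_upwards [h1, wd_gauge hδ h0m hg hg0 hy, wd_twist hγ' hy] with z h2 h3 h4
  rw [h2, h3, h4]

theorem wd_oo (hδ : 0 < δ) (hδ1 : δ ≤ 1) {γ : ℂ → ℂ} (hγ : OO δ f γ) {u : Fin m → ℂ → ℂ}
    (hu : ∀ j, OO δ f (u j)) : OO δ f (wd γ u) := by
  have h1 : wd γ u = fun z => ∑ σ : Equiv.Perm (Fin m), (((Equiv.Perm.sign σ : ℤˣ) : ℤ) : ℂ) *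
      ∏ i, nb γ ((σ i : Fin m) : ℕ) (u i) z := by
    funext z
    unfold wd
    rw [Matrix.det_apply']
    rfl
  rw [h1]
  apply oo_sum hδ
  intro σ _
  exact (OO.const hδ f _).mul hδ (oo_prod hδ _ (fun i z => nb γ ((σ i : Fin m) : ℕ) (u i) z)
    fun i _ => nb_oo hδ hδ1 hγ (hu i) _)

theorem wd_mero {γ : ℂ → ℂ} (hγ : MeromorphicOn γ (PB δ)) {u : Fin m → ℂ → ℂ}
    (hu : ∀ j, MeromorphicOn (u j) (PB δ)) : MeromorphicOn (wd γ u) (PB δ) := by
  have h1 : wd γ u = fun z => ∑ σ : Equiv.Perm (Fin m), (((Equiv.Perm.sign σ : ℤˣ) : ℤ) : ℂ) *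
      ∏ i, nb γ ((σ i : Fin m) : ℕ) (u i) z := by
    funext z
    unfold wd
    rw [Matrix.det_apply']
    rfl
  rw [h1]
  intro x hx
  exact MeromorphicAt.fun_sum fun σ _ => (MeromorphicAt.const _ x).fun_mul
    (MeromorphicAt.fun_prod fun i _ => nb_mero hγ (hu i) _ x hx)

end Pool.Agent.Helper4K9.MP
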